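import Mathlib
import Pool.Agent.N248.RR.C
set_option autoImplicit false

/-! Kakeya for random sets of directions: independent points and finitely many tests. -/

namespace Pool.Agent.N248.KR

open MeasureTheory Set
open scoped ENNReal NNReal

variable {Ω₀ : Type*} [MeasurableSpace Ω₀]

theorem pi_cyl (P : Measure Ω₀) [IsProbabilityMeasure P] (M : ℕ) (G : Set Ω₀) (T : Finset (Fin M)) :
    (Measure.pi fun _ : Fin M => P) (⋂ j ∈ T, {ω | ω j ∈ G}) = P G ^ T.card := by
  classical
  have h1 : (⋂ j ∈ T, {ω : Fin M → Ω₀ | ω j ∈ G}) =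
      Set.pi univ (fun i => if i ∈ T then G else univ) := by
    ext ω
    simp only [mem_iInter, mem_univ_pi]
    constructor
    · intro h i
      by_cases hi : i ∈ T
      · rw [if_pos hi]; exact h i hi
      · rw [if_neg hi]; trivial
    · intro h i hi
      have := h i
      rwa [if_pos hi] at this
  rw [h1, Measure.pi_pi]
  have h2 : ∀ i, P (if i ∈ T then G else univ) = if i ∈ T then P G else 1 := by
    intro i
    split_ifs
    · rfl
    · exact measure_univ
  simp_rw [h2]
  rw [Finset.prod_ite_mem, Finset.univ_inter, Finset.prod_const]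

/-- many points in a given set -/
theorem many_points (P : Measure Ω₀) [IsProbabilityMeasure P] (M : ℕ) (G : Set Ω₀) (u : ℕ)
    (hu : Real.exp 2 * (M * (P G).toReal) ≤ u) :
    (Measure.pi fun _ : Fin M => P) {ω | ∃ T : Finset (Fin M), T.card = u ∧ ∀ j ∈ T, ω j ∈ G} ≤
      ENNReal.ofReal (Real.exp (-u)) := by
  classical
  set G' := toMeasurable P G with hG'
  have hGG : P G' = P G := measure_toMeasurable G
  have h1 := RR.few (Measure.pi fun _ : Fin M => P) (fun j : Fin M => {ω : Fin M → Ω₀ | ω j ∈ G'})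
    (by
      intro T
      rw [pi_cyl]
      refine le_of_eq ?_
      rw [← Finset.prod_const]
      refine Finset.prod_congr rfl fun j _ => ?_
      have := pi_cyl P M G' {j}
      simp only [Finset.mem_singleton, iInter_iInter_eq_left, Finset.card_singleton,
        pow_one] at this
      exact this.symm) Finset.univ (P G).toReal M ENNReal.toReal_nonneg (by simp) (by
      intro j _
      have := pi_cyl P M G' {j}
      simp only [Finset.mem_singleton, iInter_iInter_eq_left, Finset.card_singleton,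
        pow_one] at this
      rw [this, hGG, ENNReal.ofReal_toReal (measure_ne_top P G)]) u
  refine (measure_mono ?_).trans (h1.trans (ENNReal.ofReal_le_ofReal ?_))
  · rintro ω ⟨T, hT, hω⟩
    exact ⟨T, Finset.subset_univ _, hT, fun j hj => subset_toMeasurable P G (hω j hj)⟩
  · exact RR.fact_bound _ u (by positivity) hu

open scoped Classical in
/-- **all tests are passed with high probability** -/
theorem good_prob (P : Measure Ω₀) [IsProbabilityMeasure P] (M : ℕ) {Z : Type*} [Fintype Z]
    (G : (s : ℕ) → (Fin s → Z) → ℕ → Set Ω₀) (J : ℕ) (A c : ℝ)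
    (hA : (Fintype.card Z : ℝ) ≤ Real.exp A) (hA0 : 0 ≤ A) (hc : A + 1 ≤ c) :
    (Measure.pi fun _ : Fin M => P) {ω | ¬ ∀ (s : ℕ) (w : Fin s → Z) (j : ℕ), 1 ≤ s → j ≤ J →
      ((Finset.univ.filter fun i => ω i ∈ G s w j).card : ℝ) < c * s ∨
      ((Finset.univ.filter fun i => ω i ∈ G s w j).card : ℝ) ≤
        Real.exp 2 * (M * (P (G s w j)).toReal)} ≤
      ENNReal.ofReal (2 * (J + 1) * Real.exp (-(c - A))) := by
  set μ := Measure.pi fun _ : Fin M => P with hμ
  set B : (s : ℕ) → (Fin s → Z) → ℕ → Set (Fin M → Ω₀) := fun s w j =>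
    {ω | c * s ≤ ((Finset.univ.filter fun i => ω i ∈ G s w j).card : ℝ) ∧
      Real.exp 2 * (M * (P (G s w j)).toReal) <
        ((Finset.univ.filter fun i => ω i ∈ G s w j).card : ℝ)} with hB
  have hBm : ∀ s w j, μ (B s w j) ≤ ENNReal.ofReal (Real.exp (-(c * s))) := by
    intro s w j
    set u : ℕ := ⌈max (c * s) (Real.exp 2 * (M * (P (G s w j)).toReal))⌉₊ with hu
    have h1 : max (c * s) (Real.exp 2 * (M * (P (G s w j)).toReal)) ≤ u := Nat.le_ceil _
    have h2 := many_points P M (G s w j) u ((le_max_right _ _).trans h1)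
    refine (measure_mono ?_).trans (h2.trans (ENNReal.ofReal_le_ofReal (Real.exp_le_exp.2
      (neg_le_neg ((le_max_left _ _).trans h1)))))
    rintro ω ⟨ha, hb⟩
    have h3 : u ≤ (Finset.univ.filter fun i => ω i ∈ G s w j).card := by
      rw [hu]
      exact Nat.ceil_le.2 (max_le ha hb.le)
    obtain ⟨T, hT, hTc⟩ := Finset.exists_subset_card_eq h3
    exact ⟨T, hTc, fun j hj => (Finset.mem_filter.1 (hT hj)).2⟩
  have hsub : {ω | ¬ ∀ (s : ℕ) (w : Fin s → Z) (j : ℕ), 1 ≤ s → j ≤ J →
      ((Finset.univ.filter fun i => ω i ∈ G s w j).card : ℝ) < c * s ∨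
      ((Finset.univ.filter fun i => ω i ∈ G s w j).card : ℝ) ≤
        Real.exp 2 * (M * (P (G s w j)).toReal)} ⊆
      ⋃ t : ℕ, ⋃ w : Fin (t + 1) → Z, ⋃ j ∈ Finset.range (J + 1), B (t + 1) w j := by
    intro ω hω
    simp only [mem_setOf_eq, not_forall, not_or, not_lt, not_le] at hω
    obtain ⟨s, w, j, hs, hj, h1, h2⟩ := hω
    obtain ⟨t, rfl⟩ : ∃ t, s = t + 1 := ⟨s - 1, by omega⟩
    simp only [mem_iUnion]
    exact ⟨t, w, j, Finset.mem_range.2 (by omega), h1, h2⟩
  refine (measure_mono hsub).trans ((measure_iUnion_le _).trans ?_)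
  have hterm : ∀ t : ℕ, μ (⋃ w : Fin (t + 1) → Z, ⋃ j ∈ Finset.range (J + 1), B (t + 1) w j) ≤
      ENNReal.ofReal ((J + 1) * Real.exp (-(c - A))) * (2⁻¹ : ℝ≥0∞) ^ t := by
    intro t
    calc μ (⋃ w : Fin (t + 1) → Z, ⋃ j ∈ Finset.range (J + 1), B (t + 1) w j)
        ≤ ∑ w : Fin (t + 1) → Z, μ (⋃ j ∈ Finset.range (J + 1), B (t + 1) w j) :=
          measure_iUnion_fintype_le _ _
      _ ≤ ∑ _w : Fin (t + 1) → Z, ∑ _j ∈ Finset.range (J + 1),
            ENNReal.ofReal (Real.exp (-(c * ((t + 1 : ℕ) : ℝ)))) := by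
          refine Finset.sum_le_sum fun w _ => (measure_biUnion_finset_le _ _).trans ?_
          exact Finset.sum_le_sum fun j _ => hBm _ _ _
      _ = ENNReal.ofReal ((Fintype.card Z : ℝ) ^ (t + 1) * ((J + 1) *
            Real.exp (-(c * ((t + 1 : ℕ) : ℝ))))) := by
          rw [Finset.sum_const, Finset.sum_const, Finset.card_univ, Finset.card_range,
            Fintype.card_fun, Fintype.card_fin, nsmul_eq_mul, nsmul_eq_mul,
            ← ENNReal.ofReal_natCast, ← ENNReal.ofReal_natCast,
            ← ENNReal.ofReal_mul (by positivity), ← ENNReal.ofReal_mul (by positivity)]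
          push_cast
          rfl
      _ ≤ ENNReal.ofReal (((J + 1) * Real.exp (-(c - A))) * (2⁻¹ : ℝ) ^ t) := by
          apply ENNReal.ofReal_le_ofReal
          have h1 : (Fintype.card Z : ℝ) ^ (t + 1) ≤ Real.exp (A * (t + 1)) := by
            calc (Fintype.card Z : ℝ) ^ (t + 1) ≤ (Real.exp A) ^ (t + 1) := by gcongr
              _ = Real.exp (A * (t + 1)) := by rw [← Real.exp_nat_mul]; push_cast; ring_nf
          have h2 : Real.exp (A * (t + 1)) * Real.exp (-(c * (t + 1))) =
              Real.exp (-(c - A)) * Real.exp (-(c - A)) ^ t := by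
            rw [← Real.exp_add, ← Real.exp_nat_mul, ← Real.exp_add]
            congr 1; ring
          have h3 : Real.exp (-(c - A)) ≤ 2⁻¹ := by
            have h4 : Real.exp (-(c - A)) ≤ Real.exp (-1) := Real.exp_le_exp.2 (by linarith)
            have h5 : Real.exp (-1) < 0.3678794412 := Real.exp_neg_one_lt_d9
            have h6 : (0.3678794412 : ℝ) < 2⁻¹ := by norm_num
            linarith
          calc (Fintype.card Z : ℝ) ^ (t + 1) * ((J + 1) * Real.exp (-(c * ((t + 1 : ℕ) : ℝ))))
              ≤ Real.exp (A * (t + 1)) * ((J + 1) * Real.exp (-(c * ((t + 1 : ℕ) : ℝ)))) := by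
                gcongr
            _ = (J + 1) * (Real.exp (A * (t + 1)) * Real.exp (-(c * (t + 1)))) := by
                push_cast; ring
            _ = (J + 1) * (Real.exp (-(c - A)) * Real.exp (-(c - A)) ^ t) := by rw [h2]
            _ ≤ (J + 1) * (Real.exp (-(c - A)) * (2⁻¹ : ℝ) ^ t) := by gcongr
            _ = _ := by ring
      _ = _ := by
          rw [ENNReal.ofReal_mul (by positivity), ENNReal.ofReal_pow (by positivity),
            ENNReal.ofReal_inv_of_pos (by norm_num)]
          norm_num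
  refine (ENNReal.tsum_le_tsum hterm).trans ?_
  rw [ENNReal.tsum_mul_left, ENNReal.tsum_geometric, ENNReal.one_sub_inv_two, inv_inv]
  refine le_of_eq ?_
  rw [show (2 : ℝ≥0∞) = ENNReal.ofReal 2 by norm_num, ← ENNReal.ofReal_mul (by positivity)]
  congr 1
  ring

end Pool.Agent.N248.KR
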