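import Mathlib
set_option autoImplicit false

/-! Kakeya for random sets of directions: random samples of a family of sets. -/

namespace Pool.Agent.N248.KR

open MeasureTheory Set
open scoped ENNReal NNReal

variable {X : Type*}

/-- number of sets of the family which contain the point -/
noncomputable def ct {ι : Type*} [Fintype ι] (T : ι → Set X) (x : X) : ℝ :=
  ∑ i, (T i).indicator (fun _ => (1 : ℝ)) x

theorem ct_nonneg {ι : Type*} [Fintype ι] (T : ι → Set X) (x : X) : 0 ≤ ct T x :=
  Finset.sum_nonneg fun i _ => indicator_nonneg (fun _ _ => zero_le_one) x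

theorem ct_le {ι : Type*} [Fintype ι] (T : ι → Set X) (x : X) : ct T x ≤ Fintype.card ι := by
  unfold ct
  calc ∑ i, (T i).indicator (fun _ => (1 : ℝ)) x ≤ ∑ _i : ι, (1 : ℝ) :=
        Finset.sum_le_sum fun _ _ => indicator_le_self' (fun _ _ => zero_le_one) x
    _ = Fintype.card ι := by simp

theorem ct_meas [MeasurableSpace X] {ι : Type*} [Fintype ι] {T : ι → Set X}
    (hT : ∀ i, MeasurableSet (T i)) : Measurable (ct T) :=
  Finset.measurable_sum _ fun i _ => measurable_const.indicator (hT i)

/-- points in no set of the family -/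
theorem ct_pos_mem {ι : Type*} [Fintype ι] {T : ι → Set X} {x : X} (h : 0 < ct T x) :
    x ∈ ⋃ i, T i := by
  by_contra hx
  simp only [mem_iUnion, not_exists] at hx
  have : ct T x = 0 := Finset.sum_eq_zero fun i _ => indicator_of_notMem (hx i) _
  linarith

theorem pos_vol [MeasurableSpace X] (ν : Measure X) {ι : Type*} [Fintype ι] (T : ι → Set X)
    (V : ℝ) (hTV : ∀ i, ν (T i) ≤ ENNReal.ofReal V) :
    ν {x | 0 < ct T x} ≤ ENNReal.ofReal (Fintype.card ι * V) := by
  calc ν {x | 0 < ct T x} ≤ ν (⋃ i, T i) := measure_mono fun x hx => ct_pos_mem hx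
    _ ≤ ∑ i, ν (T i) := measure_iUnion_fintype_le _ _
    _ ≤ ∑ _i : ι, ENNReal.ofReal V := Finset.sum_le_sum fun i _ => hTV i
    _ = ENNReal.ofReal (Fintype.card ι * V) := by
        rw [Finset.sum_const, Finset.card_univ, nsmul_eq_mul,
          ENNReal.ofReal_mul (Nat.cast_nonneg _), ENNReal.ofReal_natCast]

theorem gen_sum {ι : Type*} [Fintype ι] (T : ι → Set X) (s : ℕ) (b : ℝ) (hb : 0 < b) (x : X) :
    ∑ w : Fin s → ι, b ^ ct (fun l => T (w l)) x =
      (Fintype.card ι + (b - 1) * ct T x) ^ s := by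
  have h1 : ∀ w : Fin s → ι, b ^ ct (fun l => T (w l)) x =
      ∏ l, b ^ (T (w l)).indicator (fun _ => (1 : ℝ)) x := by
    intro w
    unfold ct
    rw [Real.rpow_sum_of_pos hb]
  simp_rw [h1]
  rw [← Fintype.sum_pow (fun i => b ^ (T i).indicator (fun _ => (1 : ℝ)) x) s]
  congr 1
  have h2 : ∀ i, b ^ (T i).indicator (fun _ => (1 : ℝ)) x =
      1 + (b - 1) * (T i).indicator (fun _ => (1 : ℝ)) x := by
    intro i
    by_cases h : x ∈ T i
    · rw [indicator_of_mem h, Real.rpow_one]; ring
    · rw [indicator_of_notMem h, Real.rpow_zero]; ring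
  simp_rw [h2]
  rw [Finset.sum_add_distrib, ← Finset.mul_sum, Finset.sum_const, Finset.card_univ, nsmul_eq_mul,
    mul_one]
  rfl

/-- **the sampling lemma** -/
theorem sampling [MeasurableSpace X] (ν : Measure X) {ι : Type*} [Fintype ι] [Nonempty ι]
    (T : ι → Set X) (hT : ∀ i, MeasurableSet (T i)) (V : ℝ) (hV : 0 ≤ V)
    (hTV : ∀ i, ν (T i) ≤ ENNReal.ofReal V) (μ K : ℝ) (hμ : 0 < μ) (hμm : μ ≤ Fintype.card ι)
    (hK : 0 < K) (s : ℕ) (hs1 : K * Fintype.card ι / μ ≤ s)
    (hs2 : (s : ℝ) ≤ K * Fintype.card ι / μ + 1) :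
    ∃ w : Fin s → ι,
      ν ({x | μ ≤ ct T x} \ {x | K / 2 ≤ ct (fun l => T (w l)) x}) ≤
        ENNReal.ofReal (3 * Real.exp (-(K / 12)) * (Fintype.card ι * V)) ∧
      ν ({x | K / 2 ≤ ct (fun l => T (w l)) x} \ {x | μ / 4 ≤ ct T x}) ≤
        ENNReal.ofReal (3 * Real.exp (-(K / 12)) * (Fintype.card ι * V)) := by
  set m : ℝ := (Fintype.card ι : ℝ) with hm
  have hm0 : 0 < m := by rw [hm]; exact_mod_cast Fintype.card_pos
  have hl2 := Real.log_two_lt_d9
  have hl1 := Real.log_two_gt_d9
  set A : Set X := {x | μ ≤ ct T x} with hA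
  set A4 : Set X := {x | μ / 4 ≤ ct T x} with hA4
  set D : Set X := {x | 0 < ct T x} with hD
  have hctm := ct_meas hT
  have hAm : MeasurableSet A := measurableSet_le measurable_const hctm
  have hA4m : MeasurableSet A4 := measurableSet_le measurable_const hctm
  have hDm : MeasurableSet D := measurableSet_lt measurable_const hctm
  have hEm : ∀ w : Fin s → ι, MeasurableSet {x | K / 2 ≤ ct (fun l => T (w l)) x} :=
    fun w => measurableSet_le measurable_const (ct_meas fun l => hT (w l))
  have hDν := pos_vol ν T V hTV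
  rw [← hm, ← hD] at hDν
  -- pointwise bounds
  have hp1 : ∀ x ∈ A, ∑ w : Fin s → ι, ENNReal.ofReal ((2 : ℝ) ^ (K / 2) *
      (1 / 2 : ℝ) ^ ct (fun l => T (w l)) x) ≤ ENNReal.ofReal (m ^ s * Real.exp (-(K / 12))) := by
    intro x hx
    rw [← ENNReal.ofReal_sum_of_nonneg fun w _ => by positivity]
    apply ENNReal.ofReal_le_ofReal
    rw [← Finset.mul_sum, gen_sum T s (1 / 2) (by norm_num) x]
    have hx' : μ ≤ ct T x := hx
    have hc1 := ct_le T x
    have hc0 := ct_nonneg T x
    have h1 : ((Fintype.card ι : ℝ) + (1 / 2 - 1) * ct T x) = m * (1 - ct T x / (2 * m)) := by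
      rw [← hm]; field_simp; ring
    rw [h1, mul_pow]
    have h2 : 0 ≤ 1 - ct T x / (2 * m) := by
      rw [sub_nonneg, div_le_one (by positivity)]
      rw [← hm] at hc1
      linarith
    have h3 : (1 - ct T x / (2 * m)) ^ s ≤ Real.exp (-(K / 2)) := by
      calc (1 - ct T x / (2 * m)) ^ s ≤ (Real.exp (-(ct T x / (2 * m)))) ^ s :=
            pow_le_pow_left₀ h2 (by linarith [Real.add_one_le_exp (-(ct T x / (2 * m)))]) s
        _ = Real.exp (-(s * (ct T x / (2 * m)))) := by rw [← Real.exp_nat_mul]; congr 1; ring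
        _ ≤ Real.exp (-(K / 2)) := by
            apply Real.exp_le_exp.2
            rw [neg_le_neg_iff]
            calc K / 2 = (K * m / μ) * (μ / (2 * m)) := by field_simp
              _ ≤ s * (ct T x / (2 * m)) := by gcongr
    calc (2 : ℝ) ^ (K / 2) * (m ^ s * (1 - ct T x / (2 * m)) ^ s)
        ≤ (2 : ℝ) ^ (K / 2) * (m ^ s * Real.exp (-(K / 2))) := by gcongr
      _ = m ^ s * (Real.exp (Real.log 2 * (K / 2)) * Real.exp (-(K / 2))) := by
          rw [Real.rpow_def_of_pos (by norm_num)]; ring
      _ ≤ m ^ s * Real.exp (-(K / 12)) := by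
          rw [← Real.exp_add]
          refine mul_le_mul_of_nonneg_left (Real.exp_le_exp.2 ?_) (by positivity)
          nlinarith
  have hp2 : ∀ x ∈ D \ A4, ∑ w : Fin s → ι, ENNReal.ofReal ((1 / 2 : ℝ) ^ (K / 2) *
      (2 : ℝ) ^ ct (fun l => T (w l)) x) ≤
        ENNReal.ofReal (m ^ s * (2 * Real.exp (-(K / 12)))) := by
    intro x hx
    rw [← ENNReal.ofReal_sum_of_nonneg fun w _ => by positivity]
    apply ENNReal.ofReal_le_ofReal
    rw [← Finset.mul_sum, gen_sum T s 2 (by norm_num) x]
    have hx' : ct T x < μ / 4 := not_le.1 hx.2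
    have hc0 := ct_nonneg T x
    have h1 : ((Fintype.card ι : ℝ) + (2 - 1) * ct T x) = m * (1 + ct T x / m) := by
      rw [← hm]; field_simp; ring
    rw [h1, mul_pow]
    have h3 : (1 + ct T x / m) ^ s ≤ Real.exp (K / 4 + 1 / 4) := by
      calc (1 + ct T x / m) ^ s ≤ (Real.exp (ct T x / m)) ^ s :=
            pow_le_pow_left₀ (by positivity) (by linarith [Real.add_one_le_exp (ct T x / m)]) s
        _ = Real.exp (s * (ct T x / m)) := by rw [← Real.exp_nat_mul]
        _ ≤ Real.exp (K / 4 + 1 / 4) := by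
            apply Real.exp_le_exp.2
            calc (s : ℝ) * (ct T x / m) ≤ (K * m / μ + 1) * ((μ / 4) / m) := by gcongr
              _ = K / 4 + (μ / m) / 4 := by field_simp
              _ ≤ K / 4 + 1 / 4 := by
                  have : μ / m ≤ 1 := (div_le_one hm0).2 hμm
                  linarith
    have h4 : Real.exp (1 / 4) ≤ 2 := by
      have h5 : Real.exp (1 / 4) ≤ Real.exp (Real.log 2) := Real.exp_le_exp.2 (by linarith)
      rwa [Real.exp_log (by norm_num)] at h5
    calc (1 / 2 : ℝ) ^ (K / 2) * (m ^ s * (1 + ct T x / m) ^ s)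
        ≤ (1 / 2 : ℝ) ^ (K / 2) * (m ^ s * Real.exp (K / 4 + 1 / 4)) := by gcongr
      _ = m ^ s * (Real.exp (-(Real.log 2 * (K / 2)) + K / 4) * Real.exp (1 / 4)) := by
          rw [Real.rpow_def_of_pos (by norm_num), Real.exp_add, Real.exp_add, one_div,
            Real.log_inv]
          rw [show -Real.log 2 * (K / 2) = -(Real.log 2 * (K / 2)) by ring]
          ring
      _ ≤ m ^ s * (Real.exp (-(K / 12)) * 2) := by
          refine mul_le_mul_of_nonneg_left (mul_le_mul (Real.exp_le_exp.2 ?_) h4
            (Real.exp_pos _).le (Real.exp_pos _).le) (by positivity)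
          nlinarith
      _ = m ^ s * (2 * Real.exp (-(K / 12))) := by ring
  -- averages
  set F1 : (Fin s → ι) → ℝ≥0∞ := fun w => ν (A \ {x | K / 2 ≤ ct (fun l => T (w l)) x}) with hF1
  set F2 : (Fin s → ι) → ℝ≥0∞ := fun w => ν ({x | K / 2 ≤ ct (fun l => T (w l)) x} \ A4) with hF2
  have hI1 : ∑ w, F1 w ≤ ENNReal.ofReal (m ^ s * Real.exp (-(K / 12)) * (m * V)) := by
    have e1 : ∀ w, F1 w = ∫⁻ x, (A \ {x | K / 2 ≤ ct (fun l => T (w l)) x}).indicator 1 x ∂ν :=
      fun w => (lintegral_indicator_one (hAm.diff (hEm w))).symm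
    calc ∑ w, F1 w = ∫⁻ x, ∑ w : Fin s → ι,
          (A \ {x | K / 2 ≤ ct (fun l => T (w l)) x}).indicator 1 x ∂ν := by
          rw [lintegral_finsetSum _ fun w _ => measurable_one.indicator (hAm.diff (hEm w))]
          exact Finset.sum_congr rfl fun w _ => e1 w
      _ ≤ ∫⁻ x, D.indicator (fun _ => ENNReal.ofReal (m ^ s * Real.exp (-(K / 12)))) x ∂ν := by
          refine lintegral_mono fun x => ?_
          by_cases hx : x ∈ A
          · have hxD : x ∈ D := lt_of_lt_of_le hμ hx
            rw [indicator_of_mem hxD]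
            refine le_trans (Finset.sum_le_sum fun w _ => ?_) (hp1 x hx)
            by_cases hw : x ∈ A \ {x | K / 2 ≤ ct (fun l => T (w l)) x}
            · rw [indicator_of_mem hw, Pi.one_apply, ← ENNReal.ofReal_one]
              apply ENNReal.ofReal_le_ofReal
              have hlt : ct (fun l => T (w l)) x < K / 2 := not_le.1 hw.2
              rw [one_div, Real.inv_rpow (by norm_num), ← Real.rpow_neg (by norm_num),
                ← Real.rpow_add (by norm_num)]
              exact Real.one_le_rpow (by norm_num) (by linarith)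
            · rw [indicator_of_notMem hw]
              exact zero_le
          · have : ∀ w : Fin s → ι, (A \ {x | K / 2 ≤ ct (fun l => T (w l)) x}).indicator
                (1 : X → ℝ≥0∞) x = 0 := fun w => indicator_of_notMem (fun h => hx h.1) _
            simp only [this, Finset.sum_const_zero]
            exact zero_le
      _ = ENNReal.ofReal (m ^ s * Real.exp (-(K / 12))) * ν D := by
          rw [lintegral_indicator_const hDm]
      _ ≤ ENNReal.ofReal (m ^ s * Real.exp (-(K / 12))) * ENNReal.ofReal (m * V) := by gcongr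
      _ = _ := by rw [← ENNReal.ofReal_mul (by positivity)]
  have hI2 : ∑ w, F2 w ≤ ENNReal.ofReal (m ^ s * (2 * Real.exp (-(K / 12))) * (m * V)) := by
    have e1 : ∀ w, F2 w = ∫⁻ x, ({x | K / 2 ≤ ct (fun l => T (w l)) x} \ A4).indicator 1 x ∂ν :=
      fun w => (lintegral_indicator_one ((hEm w).diff hA4m)).symm
    calc ∑ w, F2 w = ∫⁻ x, ∑ w : Fin s → ι,
          ({x | K / 2 ≤ ct (fun l => T (w l)) x} \ A4).indicator 1 x ∂ν := by
          rw [lintegral_finsetSum _ fun w _ => measurable_one.indicator ((hEm w).diff hA4m)]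
          exact Finset.sum_congr rfl fun w _ => e1 w
      _ ≤ ∫⁻ x, D.indicator (fun _ => ENNReal.ofReal (m ^ s * (2 * Real.exp (-(K / 12))))) x ∂ν := by
          refine lintegral_mono fun x => ?_
          by_cases hx : x ∈ D \ A4
          · rw [indicator_of_mem hx.1]
            refine le_trans (Finset.sum_le_sum fun w _ => ?_) (hp2 x hx)
            by_cases hw : x ∈ {x | K / 2 ≤ ct (fun l => T (w l)) x} \ A4
            · rw [indicator_of_mem hw, Pi.one_apply, ← ENNReal.ofReal_one]
              apply ENNReal.ofReal_le_ofReal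
              have hlt : K / 2 ≤ ct (fun l => T (w l)) x := hw.1
              rw [one_div, Real.inv_rpow (by norm_num), ← Real.rpow_neg (by norm_num),
                ← Real.rpow_add (by norm_num)]
              exact Real.one_le_rpow (by norm_num) (by linarith)
            · rw [indicator_of_notMem hw]
              exact zero_le
          · have : ∀ w : Fin s → ι, ({x | K / 2 ≤ ct (fun l => T (w l)) x} \ A4).indicator
                (1 : X → ℝ≥0∞) x = 0 := by
              intro w
              refine indicator_of_notMem (fun h => hx ⟨?_, h.2⟩) _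
              have h1 : 0 < ct (fun l => T (w l)) x := lt_of_lt_of_le (by positivity) h.1
              have h2 := ct_pos_mem h1
              rw [mem_iUnion] at h2
              obtain ⟨l, hl⟩ := h2
              show 0 < ct T x
              have h3 : (T (w l)).indicator (fun _ => (1 : ℝ)) x ≤ ct T x :=
                Finset.single_le_sum (f := fun i => (T i).indicator (fun _ => (1 : ℝ)) x)
                  (fun i _ => indicator_nonneg (fun _ _ => zero_le_one) x) (Finset.mem_univ (w l))
              rw [indicator_of_mem hl] at h3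
              linarith
            simp only [this, Finset.sum_const_zero]
            exact zero_le
      _ = ENNReal.ofReal (m ^ s * (2 * Real.exp (-(K / 12)))) * ν D := by
          rw [lintegral_indicator_const hDm]
      _ ≤ ENNReal.ofReal (m ^ s * (2 * Real.exp (-(K / 12)))) * ENNReal.ofReal (m * V) := by gcongr
      _ = _ := by rw [← ENNReal.ofReal_mul (by positivity)]
  by_contra hcon
  push Not at hcon
  set c : ℝ≥0∞ := ENNReal.ofReal (3 * Real.exp (-(K / 12)) * (m * V)) with hc
  have hlt : ∀ w, c < F1 w + F2 w := by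
    intro w
    rcases le_or_gt (F1 w) c with h | h
    · have := hcon w h
      exact this.trans_le le_add_self
    · exact h.trans_le le_self_add
  have h1 : ∑ _w : Fin s → ι, c < ∑ w, (F1 w + F2 w) :=
    ENNReal.sum_lt_sum_of_nonempty ⟨fun _ => Classical.arbitrary ι, Finset.mem_univ _⟩
      fun w _ => hlt w
  have h2 : ∑ w, (F1 w + F2 w) ≤ ∑ _w : Fin s → ι, c := by
    rw [Finset.sum_add_distrib, Finset.sum_const, Finset.card_univ, Fintype.card_fun,
      Fintype.card_fin, nsmul_eq_mul, hc]
    refine (add_le_add hI1 hI2).trans (le_of_eq ?_)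
    rw [← ENNReal.ofReal_add (by positivity) (by positivity), ← ENNReal.ofReal_natCast,
      ← ENNReal.ofReal_mul (by positivity)]
    congr 1
    push_cast
    ring
  exact absurd (h1.trans_le h2) (lt_irrefl _)

end Pool.Agent.N248.KR
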