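import Mathlib
import Pool.Agent.N248.KR.Samp
set_option autoImplicit false

/-! Kakeya for random sets of directions: the level sets of a family whose samples behave well. -/

namespace Pool.Agent.N248.KR

open MeasureTheory Set
open scoped ENNReal NNReal

variable {X : Type*} [MeasurableSpace X]

theorem lint_ct (ν : Measure X) {ι : Type*} [Fintype ι] (T : ι → Set X)
    (hT : ∀ i, MeasurableSet (T i)) {A : Set X} (hA : MeasurableSet A) :
    ∫⁻ x in A, ENNReal.ofReal (ct T x) ∂ν = ∑ i, ν (T i ∩ A) := by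
  have h1 : ∀ x, ENNReal.ofReal (ct T x) = ∑ i, (T i).indicator (fun _ => (1 : ℝ≥0∞)) x := by
    intro x
    unfold ct
    rw [ENNReal.ofReal_sum_of_nonneg fun i _ => indicator_nonneg (fun _ _ => zero_le_one) x]
    refine Finset.sum_congr rfl fun i _ => ?_
    by_cases h : x ∈ T i
    · rw [indicator_of_mem h, indicator_of_mem h, ENNReal.ofReal_one]
    · rw [indicator_of_notMem h, indicator_of_notMem h, ENNReal.ofReal_zero]
  simp_rw [h1]
  rw [lintegral_finsetSum _ fun i _ => measurable_const.indicator (hT i)]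
  refine Finset.sum_congr rfl fun i _ => ?_
  rw [lintegral_indicator_const (hT i), one_mul, Measure.restrict_apply (hT i)]

/-- dyadic decomposition of a number in `[0,1]` -/
theorem dyadic (a : ℝ) (ha1 : a ≤ 1) (J : ℕ) :
    a ≤ (1 / 2) ^ (J + 1) + ∑ j ∈ Finset.range (J + 1),
      (1 / 2 : ℝ) ^ j * (if (1 / 2 : ℝ) ^ (j + 1) < a then 1 else 0) := by
  rcases le_or_gt a ((1 / 2) ^ (J + 1)) with h | h
  · refine h.trans (le_add_of_nonneg_right (Finset.sum_nonneg fun j _ => ?_))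
    split_ifs <;> positivity
  · have hex : ∃ j : ℕ, (1 / 2 : ℝ) ^ (j + 1) < a := ⟨J, h⟩
    classical
    set j := Nat.find hex with hj
    have hj1 : (1 / 2 : ℝ) ^ (j + 1) < a := Nat.find_spec hex
    have hjJ : j ≤ J := Nat.find_min' hex h
    have hja : a ≤ (1 / 2 : ℝ) ^ j := by
      rcases Nat.eq_zero_or_pos j with h0 | h0
      · rw [h0, pow_zero]; exact ha1
      · have := Nat.find_min hex (m := j - 1) (by omega)
        rw [not_lt, Nat.sub_add_cancel h0] at this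
        exact this
    calc a ≤ (1 / 2 : ℝ) ^ j * (if (1 / 2 : ℝ) ^ (j + 1) < a then 1 else 0) := by
          rw [if_pos hj1, mul_one]; exact hja
      _ ≤ ∑ j ∈ Finset.range (J + 1),
          (1 / 2 : ℝ) ^ j * (if (1 / 2 : ℝ) ^ (j + 1) < a then 1 else 0) := by
          refine Finset.single_le_sum (f := fun j => (1 / 2 : ℝ) ^ j *
            (if (1 / 2 : ℝ) ^ (j + 1) < a then 1 else 0)) (fun j _ => ?_)
            (Finset.mem_range.2 (by omega))
          split_ifs <;> positivity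
      _ ≤ _ := le_add_of_nonneg_left (by positivity)

/-- pigeonhole -/
theorem pigeon {ι : Type*} [Fintype ι] (a : ι → ℝ) (ha1 : ∀ i, a i ≤ 1) (J : ℕ) (Y : ℝ)
    (hY : Y ≤ ∑ i, a i) (hJ : Fintype.card ι * (1 / 2 : ℝ) ^ (J + 1) ≤ Y / 2) :
    ∃ j ≤ J, Y / (2 * (J + 1)) ≤
      (Finset.univ.filter fun i => (1 / 2 : ℝ) ^ (j + 1) < a i).card * (1 / 2 : ℝ) ^ j := by
  classical
  by_contra hcon
  push Not at hcon
  have h1 : ∑ i, a i ≤ ∑ i : ι, ((1 / 2 : ℝ) ^ (J + 1) + ∑ j ∈ Finset.range (J + 1),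
      (1 / 2 : ℝ) ^ j * (if (1 / 2 : ℝ) ^ (j + 1) < a i then 1 else 0)) :=
    Finset.sum_le_sum fun i _ => dyadic (a i) (ha1 i) J
  rw [Finset.sum_add_distrib, Finset.sum_const, Finset.card_univ, nsmul_eq_mul,
    Finset.sum_comm] at h1
  have h2 : ∀ j ∈ Finset.range (J + 1), ∑ i : ι, (1 / 2 : ℝ) ^ j *
      (if (1 / 2 : ℝ) ^ (j + 1) < a i then (1 : ℝ) else 0) < Y / (2 * (J + 1)) := by
    intro j hj
    rw [← Finset.mul_sum, Finset.sum_boole]
    have := hcon j (by rw [Finset.mem_range] at hj; omega)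
    rwa [mul_comm]
  have h3 : ∑ j ∈ Finset.range (J + 1), ∑ i : ι, (1 / 2 : ℝ) ^ j *
      (if (1 / 2 : ℝ) ^ (j + 1) < a i then (1 : ℝ) else 0) <
      ∑ _j ∈ Finset.range (J + 1), Y / (2 * (J + 1)) :=
    Finset.sum_lt_sum_of_nonempty ⟨0, by simp⟩ h2
  rw [Finset.sum_const, Finset.card_range, nsmul_eq_mul] at h3
  have h4 : ((J + 1 : ℕ) : ℝ) * (Y / (2 * (J + 1))) = Y / 2 := by
    push_cast
    field_simp
  rw [h4] at h3
  linarith

/-- **The level sets.** -/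
theorem levels (ν : Measure X) {ι : Type*} [Fintype ι] [Nonempty ι] (T : ι → Set X)
    (hT : ∀ i, MeasurableSet (T i)) (V : ℝ) (hV : 0 < V) (hTV : ∀ i, ν (T i) ≤ ENNReal.ofReal V)
    (p : ℝ) (hp : 2 ≤ p) (J : ℕ) (hJ : (Fintype.card ι : ℝ) ≤ 2 ^ J) (K C2 Q : ℝ) (hK : 1 ≤ K)
    (hC2 : 0 ≤ C2) (hQ : 0 ≤ Q)
    (hKJ : 12 * Real.exp (-(K / 12)) * Fintype.card ι * 2 ^ J ≤ 1)
    (H : ∀ (s : ℕ) (w : Fin s → ι) (j : ℕ), j ≤ J → 1 ≤ s → (s : ℝ) ≤ K * Fintype.card ι + 1 →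
      ∀ E' : Set X, E' = {x | K / 2 ≤ ct (fun l => T (w l)) x} →
      ((Finset.univ.filter fun i => ENNReal.ofReal ((1 / 2) ^ (j + 2) * V) ≤
        ν (T i ∩ E')).card : ℝ) < C2 * s ∨
      ((Finset.univ.filter fun i => ENNReal.ofReal ((1 / 2) ^ (j + 2) * V) ≤
        ν (T i ∩ E')).card : ℝ) ≤ Q * ((2 : ℝ) ^ j) ^ p * (ν E').toReal) :
    ∃ Lam : ℝ, 0 < Lam ∧ Lam ^ (p - 1) ≤ 4 ^ (p - 1) + (4 * (J + 1) * C2 * K) ^ (p - 1) +
      34 * (J + 1) * (2 * (J + 1)) ^ (p - 1) * (Q * V) ∧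
      ∀ l : ℕ, (ν {x | (2 : ℝ) ^ l ≤ ct T x}).toReal ≤
        Lam * (Fintype.card ι * V) * ((2 : ℝ) ^ l) ^ (-(p / (p - 1))) := by
  classical
  set m : ℝ := (Fintype.card ι : ℝ) with hm
  have hm1 : 1 ≤ m := by rw [hm]; exact_mod_cast Fintype.card_pos
  have hm0 : 0 < m := by linarith
  set b : ℝ := p - 1 with hb
  set q : ℝ := p / b with hq
  have hb1 : 1 ≤ b := by rw [hb]; linarith
  have hb0 : 0 < b := by linarith
  have hq2 : q ≤ 2 := by rw [hq, div_le_iff₀ hb0]; linarith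
  have hq1 : 1 < q := by rw [hq, lt_div_iff₀ hb0]; linarith
  have hqb : (q - 1) * b = 1 := by
    rw [hq, sub_mul, div_mul_cancel₀ _ hb0.ne', hb]; ring
  have hRHS1 : (4 : ℝ) ^ b ≤ 4 ^ b + (4 * (J + 1) * C2 * K) ^ b +
      34 * (J + 1) * (2 * (J + 1)) ^ b * (Q * V) := by
    have h1 : 0 ≤ (4 * (J + 1) * C2 * K) ^ b := Real.rpow_nonneg (by positivity) _
    have h2 : 0 ≤ 34 * (J + 1) * (2 * (J + 1)) ^ b * (Q * V) := by positivity
    linarith
  have hmV : 0 < m * V := by positivity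
  have hctm := ct_meas hT
  have hfin : ∀ l : ℕ, ν {x | (2 : ℝ) ^ l ≤ ct T x} ≤ ENNReal.ofReal (m * V) := by
    intro l
    refine (measure_mono fun x hx => ?_).trans (pos_vol ν T V hTV)
    have h0 : (0 : ℝ) < 2 ^ l := by positivity
    exact h0.trans_le hx
  set F : ℕ → ℝ := fun l => (ν {x | (2 : ℝ) ^ l ≤ ct T x}).toReal / (m * V) with hF
  have hF0 : ∀ l, 0 ≤ F l := fun l => by simp only [hF]; positivity
  have hF1 : ∀ l, F l ≤ 1 := by
    intro l
    simp only [hF]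
    rw [div_le_one hmV]
    exact ENNReal.toReal_le_of_le_ofReal hmV.le (hfin l)
  have hFbig : ∀ l : ℕ, m < 2 ^ l → F l = 0 := by
    intro l hl
    have : {x | (2 : ℝ) ^ l ≤ ct T x} = ∅ := by
      ext x
      simp only [mem_setOf_eq, mem_empty_iff_false, iff_false, not_le]
      exact (ct_le T x).trans_lt hl
    simp only [hF, this, measure_empty, ENNReal.toReal_zero, zero_div]
  have h2l : ∀ l : ℕ, (1 : ℝ) ≤ 2 ^ l := fun l => one_le_pow₀ (by norm_num)
  have hfinal : ∀ Lam : ℝ, 0 < Lam → (∀ l ≤ J, F l * ((2 : ℝ) ^ l) ^ q ≤ Lam) →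
      ∀ l : ℕ, (ν {x | (2 : ℝ) ^ l ≤ ct T x}).toReal ≤ Lam * (m * V) * ((2 : ℝ) ^ l) ^ (-q) := by
    intro Lam hL0 hL l
    have e1 : (ν {x | (2 : ℝ) ^ l ≤ ct T x}).toReal = F l * (m * V) := by
      simp only [hF]; field_simp
    rw [e1]
    have h0 : 0 < ((2 : ℝ) ^ l) ^ q := by positivity
    rcases le_or_gt l J with h | h
    · have := hL l h
      rw [Real.rpow_neg (by positivity)]
      calc F l * (m * V) = F l * ((2 : ℝ) ^ l) ^ q * (m * V) * (((2 : ℝ) ^ l) ^ q)⁻¹ := by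
            field_simp
        _ ≤ _ := by gcongr
    · have : F l = 0 := hFbig l (hJ.trans_lt (pow_lt_pow_right₀ (by norm_num) h))
      rw [this, zero_mul]
      positivity
  obtain ⟨ls, hls, hmax⟩ := Finset.exists_max_image (Finset.range (J + 1))
    (fun l => F l * ((2 : ℝ) ^ l) ^ q) ⟨0, by simp⟩
  set Lam : ℝ := F ls * ((2 : ℝ) ^ ls) ^ q with hLam
  rcases le_or_gt Lam 4 with h4 | h4
  · refine ⟨4, by norm_num, hRHS1, hfinal 4 (by norm_num) fun l hl => ?_⟩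
    exact (hmax l (Finset.mem_range.2 (by omega))).trans h4
  refine ⟨Lam, by linarith, ?_, hfinal Lam (by linarith) fun l hl =>
    hmax l (Finset.mem_range.2 (by omega))⟩
  have hLam0 : 0 < Lam := by linarith
  set μ : ℝ := (2 : ℝ) ^ ls with hμ
  have hμ1 : 1 ≤ μ := h2l ls
  have hμ0 : 0 < μ := by linarith
  have hls2 : 2 ≤ ls := by
    by_contra h
    have h1 : μ ≤ 2 := by
      rw [hμ]
      calc (2 : ℝ) ^ ls ≤ 2 ^ 1 := pow_le_pow_right₀ (by norm_num) (by omega)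
        _ = 2 := by norm_num
    have h2 : μ ^ q ≤ 4 := by
      calc μ ^ q ≤ μ ^ (2 : ℝ) := Real.rpow_le_rpow_of_exponent_le hμ1 hq2
        _ = μ ^ 2 := by norm_cast
        _ ≤ 2 ^ 2 := by gcongr
        _ = 4 := by norm_num
    have h3 : Lam ≤ 1 * 4 := mul_le_mul (hF1 ls) h2 (by positivity) zero_le_one
    linarith
  have hFpos : 0 < F ls := by
    by_contra h
    have : F ls = 0 := le_antisymm (not_lt.1 h) (hF0 ls)
    rw [hLam, this, zero_mul] at h4
    linarith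
  have hμm : μ ≤ m := by
    by_contra h
    have := hFbig ls (not_le.1 h)
    linarith
  have hFeq : F ls = Lam * μ ^ (-q) := by
    rw [hLam, mul_assoc, ← Real.rpow_add hμ0]
    simp
  -- the two level sets
  set A : Set X := {x | μ ≤ ct T x} with hA
  set A4 : Set X := {x | μ / 4 ≤ ct T x} with hA4
  have hAm : MeasurableSet A := measurableSet_le measurable_const hctm
  have hμ4 : μ / 4 = (2 : ℝ) ^ (ls - 2) := by
    rw [hμ]
    have : ls = (ls - 2) + 2 := by omega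
    conv_lhs => rw [this, pow_add]
    ring
  have hνA : (ν A).toReal = F ls * (m * V) := by simp only [hF]; field_simp; rfl
  have hνAfin : ν A ≠ ⊤ := ((hfin ls).trans_lt ENNReal.ofReal_lt_top).ne
  have hνA4 : (ν A4).toReal = F (ls - 2) * (m * V) := by
    rw [hA4, hμ4]; simp only [hF]; field_simp
  have hνA4fin : ν A4 ≠ ⊤ := by
    rw [hA4, hμ4]; exact ((hfin (ls - 2)).trans_lt ENNReal.ofReal_lt_top).ne
  have hF4 : F (ls - 2) ≤ 16 * F ls := by
    have h1 : F (ls - 2) * ((2 : ℝ) ^ (ls - 2)) ^ q ≤ F ls * μ ^ q :=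
      hmax (ls - 2) (Finset.mem_range.2 (by rw [Finset.mem_range] at hls; omega))
    have h2 : μ ^ q = 4 ^ q * ((2 : ℝ) ^ (ls - 2)) ^ q := by
      rw [← Real.mul_rpow (by norm_num) (by positivity), ← hμ4]
      congr 1; ring
    have h3 : (4 : ℝ) ^ q ≤ 16 := by
      calc (4 : ℝ) ^ q ≤ 4 ^ (2 : ℝ) := Real.rpow_le_rpow_of_exponent_le (by norm_num) hq2
        _ = 16 := by norm_num
    rw [h2] at h1
    have h5 : 0 < ((2 : ℝ) ^ (ls - 2)) ^ q := by positivity
    have h6 : F (ls - 2) * ((2 : ℝ) ^ (ls - 2)) ^ q ≤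
        (4 ^ q * F ls) * ((2 : ℝ) ^ (ls - 2)) ^ q := by
      refine h1.trans (le_of_eq ?_)
      ring
    have h7 := le_of_mul_le_mul_right h6 h5
    exact h7.trans (mul_le_mul_of_nonneg_right h3 hFpos.le)
  -- the sample
  set s : ℕ := ⌈K * m / μ⌉₊ with hs
  have hs1 : K * m / μ ≤ s := Nat.le_ceil _
  have hs2 : (s : ℝ) ≤ K * m / μ + 1 := (Nat.ceil_lt_add_one (by positivity)).le
  have hKm : 1 ≤ K * m / μ := by
    rw [le_div_iff₀ hμ0]
    nlinarith
  have hs0 : 1 ≤ s := by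
    have : (1 : ℝ) ≤ s := hKm.trans hs1
    exact_mod_cast this
  have hs3 : (s : ℝ) ≤ K * m + 1 := by
    refine hs2.trans (add_le_add_left (div_le_self (by positivity) hμ1) _)
  obtain ⟨w, hw1, hw2⟩ := sampling ν T hT V hV.le hTV μ K hμ0 hμm (by linarith) s hs1 hs2
  rw [← hm] at hw1 hw2
  set tau : ℝ := 3 * Real.exp (-(K / 12)) with htau
  have htau0 : 0 < tau := by positivity
  have htm : tau * m ≤ (1 / 2) ^ (J + 2) := by
    have h1 : 4 * (tau * m) * 2 ^ J ≤ 1 := by rw [htau]; linarith [hKJ]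
    have h2 : (1 / 2 : ℝ) ^ (J + 2) = 1 / (4 * 2 ^ J) := by
      rw [pow_add, div_pow, one_pow]; field_simp; norm_num
    rw [h2, le_div_iff₀ (by positivity)]
    linarith
  set E' : Set X := {x | K / 2 ≤ ct (fun l => T (w l)) x} with hE'
  have hμq : μ ^ (-q) ≥ 1 / m ^ 2 := by
    rw [Real.rpow_neg hμ0.le, ge_iff_le, one_div]
    apply inv_anti₀ (by positivity)
    calc μ ^ q ≤ μ ^ (2 : ℝ) := Real.rpow_le_rpow_of_exponent_le hμ1 hq2
      _ = μ ^ 2 := by norm_cast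
      _ ≤ m ^ 2 := by gcongr
  have htF : tau ≤ F ls := by
    have h1 : tau * m ≤ 1 / (4 * m) := by
      refine htm.trans ?_
      have h2 : (1 / 2 : ℝ) ^ (J + 2) = 1 / (4 * 2 ^ J) := by
        rw [pow_add, div_pow, one_pow]; field_simp; norm_num
      rw [h2]
      exact one_div_le_one_div_of_le (by positivity) (by linarith)
    have h2 : tau ≤ 1 / m ^ 2 := by
      rw [le_div_iff₀ (by positivity)]
      rw [le_div_iff₀ (by positivity)] at h1
      nlinarith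
    rw [hFeq]
    calc tau ≤ 1 * (1 / m ^ 2) := by linarith
      _ ≤ Lam * μ ^ (-q) := mul_le_mul (by linarith) hμq (by positivity) hLam0.le
  have hνE : (ν E').toReal ≤ 17 * F ls * (m * V) := by
    have h1 : ν E' ≤ ν A4 + ENNReal.ofReal (tau * (m * V)) := by
      calc ν E' ≤ ν (A4 ∪ (E' \ A4)) := measure_mono fun x hx => by
            by_cases h : x ∈ A4
            · exact Or.inl h
            · exact Or.inr ⟨hx, h⟩
        _ ≤ ν A4 + ν (E' \ A4) := measure_union_le _ _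
        _ ≤ _ := by gcongr
    have h2 : (ν E').toReal ≤ (ν A4).toReal + tau * (m * V) := by
      have h3 := ENNReal.toReal_mono (ENNReal.add_ne_top.2 ⟨hνA4fin, ENNReal.ofReal_ne_top⟩) h1
      rwa [ENNReal.toReal_add hνA4fin ENNReal.ofReal_ne_top,
        ENNReal.toReal_ofReal (by positivity)] at h3
    rw [hνA4] at h2
    nlinarith
  -- densities
  set a : ι → ℝ := fun i => (ν (T i ∩ A)).toReal / V with ha
  have hTAfin : ∀ i, ν (T i ∩ A) ≠ ⊤ := fun i =>
    ((measure_mono inter_subset_left).trans_lt ((hTV i).trans_lt ENNReal.ofReal_lt_top)).ne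
  have ha1 : ∀ i, a i ≤ 1 := by
    intro i
    simp only [ha]
    rw [div_le_one hV]
    exact ENNReal.toReal_le_of_le_ofReal hV.le ((measure_mono inter_subset_left).trans (hTV i))
  have hsum : μ * F ls * m ≤ ∑ i, a i := by
    have h1 : ENNReal.ofReal μ * ν A ≤ ∑ i, ν (T i ∩ A) := by
      rw [← lint_ct ν T hT hAm, ← setLIntegral_const]
      exact setLIntegral_mono' hAm fun x hx => ENNReal.ofReal_le_ofReal hx
    have h2 : μ * (ν A).toReal ≤ ∑ i, (ν (T i ∩ A)).toReal := by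
      rw [← ENNReal.toReal_sum fun i _ => hTAfin i]
      have h3 := ENNReal.toReal_mono (ENNReal.sum_ne_top.2 fun i _ => hTAfin i) h1
      rwa [ENNReal.toReal_mul, ENNReal.toReal_ofReal hμ0.le] at h3
    rw [hνA] at h2
    simp only [ha]
    rw [← Finset.sum_div, le_div_iff₀ hV]
    linarith
  have hμF : 4 / m ≤ μ * F ls := by
    rw [hFeq]
    have h1 : μ⁻¹ ≤ μ ^ (1 - q) := by
      rw [← Real.rpow_neg_one]
      exact Real.rpow_le_rpow_of_exponent_le hμ1 (by linarith)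
    have h2 : μ * (Lam * μ ^ (-q)) = Lam * μ ^ (1 - q) := by
      rw [show (1 : ℝ) - q = 1 + -q by ring, Real.rpow_add hμ0, Real.rpow_one]; ring
    rw [h2, div_eq_mul_inv]
    refine mul_le_mul h4.le ((inv_anti₀ hμ0 hμm).trans h1) (by positivity) hLam0.le
  obtain ⟨j, hjJ, hj⟩ := pigeon a ha1 J (μ * F ls * m) hsum (by
    rw [← hm]
    have h1 : (1 / 2 : ℝ) ^ (J + 1) ≤ 1 / (2 * m) := by
      rw [pow_succ, div_pow, one_pow]
      rw [show (1 : ℝ) / 2 ^ J * (1 / 2) = 1 / (2 * 2 ^ J) by field_simp]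
      exact one_div_le_one_div_of_le (by positivity) (by linarith)
    have h2 : 1 / (2 * m) ≤ 4 / m / 2 := by
      rw [div_div, div_le_div_iff₀ (by positivity) (by positivity)]
      nlinarith
    nlinarith)
  set mj : ℝ := ((Finset.univ.filter fun i => (1 / 2 : ℝ) ^ (j + 1) < a i).card : ℝ) with hmj
  have hmjN : mj ≤ ((Finset.univ.filter fun i => ENNReal.ofReal ((1 / 2) ^ (j + 2) * V) ≤
      ν (T i ∩ E')).card : ℝ) := by
    rw [hmj]
    norm_cast
    refine Finset.card_le_card fun i hi => ?_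
    rw [Finset.mem_filter] at hi ⊢
    refine ⟨Finset.mem_univ _, ?_⟩
    have h1 : (1 / 2 : ℝ) ^ (j + 1) * V < (ν (T i ∩ A)).toReal := by
      have := hi.2
      simp only [ha] at this
      rwa [lt_div_iff₀ hV] at this
    have h2 : ENNReal.ofReal ((1 / 2 : ℝ) ^ (j + 1) * V) ≤ ν (T i ∩ A) := by
      rw [ENNReal.ofReal_le_iff_le_toReal (hTAfin i)]
      exact h1.le
    have h3 : ν (T i ∩ A) ≤ ν (T i ∩ E') + ENNReal.ofReal (tau * (m * V)) := by
      calc ν (T i ∩ A) ≤ ν ((T i ∩ E') ∪ (A \ E')) := measure_mono fun x hx => by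
            by_cases h : x ∈ E'
            · exact Or.inl ⟨hx.1, h⟩
            · exact Or.inr ⟨hx.2, h⟩
        _ ≤ ν (T i ∩ E') + ν (A \ E') := measure_union_le _ _
        _ ≤ _ := by gcongr
    have h4 : ENNReal.ofReal ((1 / 2 : ℝ) ^ (j + 2) * V) + ENNReal.ofReal (tau * (m * V)) ≤
        ENNReal.ofReal ((1 / 2 : ℝ) ^ (j + 1) * V) := by
      rw [← ENNReal.ofReal_add (by positivity) (by positivity)]
      apply ENNReal.ofReal_le_ofReal
      have h5 : tau * m ≤ (1 / 2 : ℝ) ^ (j + 2) :=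
        htm.trans (pow_le_pow_of_le_one (by norm_num) (by norm_num) (by omega))
      have h6 : (1 / 2 : ℝ) ^ (j + 1) = (1 / 2) ^ (j + 2) + (1 / 2) ^ (j + 2) := by
        rw [pow_succ _ (j + 1)]; ring
      rw [h6]
      nlinarith
    exact (ENNReal.add_le_add_iff_right ENNReal.ofReal_ne_top).1 (h4.trans (h2.trans h3))
  have hmjpos : 0 < mj := by
    by_contra h
    have h1 : mj ≤ 0 := not_lt.1 h
    have h2 : 0 < μ * F ls * m / (2 * (J + 1)) := by positivity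
    have h3 : mj * (1 / 2 : ℝ) ^ j ≤ 0 := mul_nonpos_of_nonpos_of_nonneg h1 (by positivity)
    linarith
  have hmjm : mj ≤ m := by
    rw [hmj, hm]
    exact_mod_cast Finset.card_le_univ _
  have hμF2 : μ * F ls = Lam * μ ^ (1 - q) := by
    rw [hFeq, show (1 : ℝ) - q = 1 + -q by ring, Real.rpow_add hμ0, Real.rpow_one]; ring
  have h2j : (1 / 2 : ℝ) ^ j * 2 ^ j = 1 := by rw [← mul_pow]; norm_num
  have hJ1 : (0 : ℝ) < J + 1 := by positivity
  have hterm1 : 0 ≤ (4 * ((J : ℝ) + 1) * C2 * K) ^ b := Real.rpow_nonneg (by positivity) _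
  have hterm2 : 0 ≤ 34 * ((J : ℝ) + 1) * (2 * (J + 1)) ^ b * (Q * V) := by positivity
  have hterm0 : 0 ≤ (4 : ℝ) ^ b := by positivity
  rcases H s w j hjJ hs0 hs3 E' hE' with hc | hc
  · -- few tubes
    have h1 : mj < 2 * C2 * K * m / μ := by
      calc mj < C2 * s := hmjN.trans_lt hc
        _ ≤ C2 * (K * m / μ + K * m / μ) := by gcongr; linarith
        _ = 2 * C2 * K * m / μ := by ring
    have h2 : Lam * μ ^ (1 - q) * m / (2 * (J + 1)) ≤ 2 * C2 * K * m / μ := by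
      rw [← hμF2]
      refine hj.trans (le_trans ?_ h1.le)
      exact mul_le_of_le_one_right hmjpos.le (pow_le_one₀ (by norm_num) (by norm_num))
    have h3 : Lam * μ ^ (2 - q) ≤ 4 * (J + 1) * C2 * K := by
      have e1 : μ ^ (2 - q) = μ ^ (1 - q) * μ := by
        rw [show (2 : ℝ) - q = (1 - q) + 1 by ring, Real.rpow_add hμ0, Real.rpow_one]
      rw [e1]
      rw [div_le_div_iff₀ (by positivity) hμ0] at h2
      have h5 : (Lam * (μ ^ (1 - q) * μ)) * m ≤ (4 * (J + 1) * C2 * K) * m := by linarith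
      exact le_of_mul_le_mul_right h5 hm0
    have h4 : Lam ≤ 4 * (J + 1) * C2 * K := by
      refine le_trans ?_ h3
      have : 1 ≤ μ ^ (2 - q) := Real.one_le_rpow hμ1 (by linarith)
      nlinarith
    have h5 : Lam ^ b ≤ (4 * (J + 1) * C2 * K) ^ b := Real.rpow_le_rpow hLam0.le h4 hb0.le
    linarith
  · -- many tubes
    have h1 : mj ≤ Q * ((2 : ℝ) ^ j) ^ p * (17 * F ls * (m * V)) :=
      (hmjN.trans hc).trans (by gcongr)
    have h2 : μ * F ls * m ≤ 2 * (J + 1) * (mj * (1 / 2 : ℝ) ^ j) := by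
      rw [div_le_iff₀ (by positivity)] at hj
      linarith
    -- lower bound for the multiplicity
    have e2 : ((2 : ℝ) ^ j) ^ p * (1 / 2 : ℝ) ^ j = ((2 : ℝ) ^ j) ^ b := by
      have : ((2 : ℝ) ^ j) ^ p = ((2 : ℝ) ^ j) ^ b * 2 ^ j := by
        rw [show p = b + 1 by rw [hb]; ring, Real.rpow_add (by positivity), Real.rpow_one]
      rw [this, mul_assoc, mul_comm ((2 : ℝ) ^ j) _, h2j, mul_one]
    have h3 : μ ≤ 34 * (J + 1) * (Q * V) * ((2 : ℝ) ^ j) ^ b := by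
      have h5 : μ * mj ≤ (34 * (J + 1) * (Q * V) * ((2 : ℝ) ^ j) ^ b) * mj := by
        calc μ * mj ≤ μ * (Q * ((2 : ℝ) ^ j) ^ p * (17 * F ls * (m * V))) := by gcongr
          _ = 17 * Q * V * ((2 : ℝ) ^ j) ^ p * (μ * F ls * m) := by ring
          _ ≤ 17 * Q * V * ((2 : ℝ) ^ j) ^ p * (2 * (J + 1) * (mj * (1 / 2 : ℝ) ^ j)) := by gcongr
          _ = 34 * (J + 1) * (Q * V) * (((2 : ℝ) ^ j) ^ p * (1 / 2 : ℝ) ^ j) * mj := by ring
          _ = _ := by rw [e2]
      exact le_of_mul_le_mul_right h5 hmjpos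
    have h4' : Lam * μ ^ (1 - q) * 2 ^ j ≤ 2 * (J + 1) := by
      have h5 : (Lam * μ ^ (1 - q)) * m ≤ 2 * (J + 1) * (m * (1 / 2 : ℝ) ^ j) := by
        rw [← hμF2]
        exact h2.trans (by gcongr)
      have h6 : (Lam * μ ^ (1 - q)) ≤ 2 * (J + 1) * (1 / 2 : ℝ) ^ j := by
        have h7 : (Lam * μ ^ (1 - q)) * m ≤ (2 * (J + 1) * (1 / 2 : ℝ) ^ j) * m := by linarith
        exact le_of_mul_le_mul_right h7 hm0
      calc Lam * μ ^ (1 - q) * 2 ^ j ≤ (2 * (J + 1) * (1 / 2 : ℝ) ^ j) * 2 ^ j := by gcongr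
        _ = 2 * (J + 1) * ((1 / 2 : ℝ) ^ j * 2 ^ j) := by ring
        _ = 2 * (J + 1) := by rw [h2j, mul_one]
    have h5 : Lam ^ b * μ⁻¹ * ((2 : ℝ) ^ j) ^ b ≤ (2 * (J + 1)) ^ b := by
      have e3 : (Lam * μ ^ (1 - q) * 2 ^ j) ^ b = Lam ^ b * μ⁻¹ * ((2 : ℝ) ^ j) ^ b := by
        rw [Real.mul_rpow (by positivity) (by positivity), Real.mul_rpow (by positivity)
          (by positivity), ← Real.rpow_mul hμ0.le]
        have : (1 - q) * b = -1 := by linarith
        rw [this, Real.rpow_neg_one]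
      rw [← e3]
      exact Real.rpow_le_rpow (by positivity) h4' hb0.le
    have h6 : Lam ^ b ≤ 34 * (J + 1) * (2 * (J + 1)) ^ b * (Q * V) := by
      have h7 : Lam ^ b * ((2 : ℝ) ^ j) ^ b ≤ (2 * (J + 1)) ^ b * μ := by
        have h8 := mul_le_mul_of_nonneg_right h5 hμ0.le
        calc Lam ^ b * ((2 : ℝ) ^ j) ^ b = Lam ^ b * μ⁻¹ * ((2 : ℝ) ^ j) ^ b * μ := by field_simp
          _ ≤ _ := h8
      have h9 : Lam ^ b * ((2 : ℝ) ^ j) ^ b ≤
          (34 * (J + 1) * (2 * (J + 1)) ^ b * (Q * V)) * ((2 : ℝ) ^ j) ^ b := by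
        calc Lam ^ b * ((2 : ℝ) ^ j) ^ b ≤ (2 * (J + 1)) ^ b * μ := h7
          _ ≤ (2 * (J + 1)) ^ b * (34 * (J + 1) * (Q * V) * ((2 : ℝ) ^ j) ^ b) := by gcongr
          _ = _ := by ring
      exact le_of_mul_le_mul_right h9 (by positivity)
    linarith

end Pool.Agent.N248.KR
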