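import Mathlib
set_option autoImplicit false

/-! Kakeya for random sets of directions: cylinders and nets. -/

namespace Pool.Agent.N248.KR

open MeasureTheory Set Metric
open scoped ENNReal NNReal

/-- Euclidean space -/
abbrev E (n : ℕ) := EuclideanSpace ℝ (Fin n)

variable {n : ℕ}

/-- cylinder of half length `h` and radius `r` -/
def cyl (h r : ℝ) (a e : E n) : Set (E n) :=
  {y | |inner ℝ (y - a) e| ≤ h ∧ ‖(y - a) - (inner ℝ (y - a) e) • e‖ ≤ r}

theorem cyl_closed (h r : ℝ) (a e : E n) : IsClosed (cyl h r a e) := by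
  have h1 : Continuous fun y : E n => |inner ℝ (y - a) e| := by fun_prop
  have h2 : Continuous fun y : E n => ‖(y - a) - (inner ℝ (y - a) e) • e‖ := by fun_prop
  exact (isClosed_le h1 continuous_const).inter (isClosed_le h2 continuous_const)

theorem cyl_meas (h r : ℝ) (a e : E n) : MeasurableSet (cyl h r a e) :=
  (cyl_closed h r a e).measurableSet

/-- a point near the axis -/
theorem mem_cyl {h r s ρ : ℝ} {a e y : E n} (he : ‖e‖ = 1) (hs : |s| + ρ ≤ h) (hρ : ρ ≤ r)
    (hy : ‖y - a - s • e‖ ≤ ρ) : y ∈ cyl h r a e := by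
  set v := y - a - s • e with hv
  have hya : y - a = s • e + v := by rw [hv]; abel
  have hin : inner ℝ (y - a) e = s + inner ℝ v e := by
    rw [hya, inner_add_left, inner_smul_left, real_inner_self_eq_norm_sq, he]
    simp
  have hve : |inner ℝ v e| ≤ ρ := by
    refine (abs_real_inner_le_norm v e).trans ?_
    rw [he, mul_one]; exact hy
  refine ⟨?_, ?_⟩
  · rw [hin]
    exact (abs_add_le _ _).trans (by linarith)
  · have h1 : (y - a) - (inner ℝ (y - a) e) • e = v - (inner ℝ v e) • e := by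
      rw [hin, hya, add_smul]; abel
    rw [h1]
    refine le_trans ?_ (hy.trans hρ)
    have h2 : ‖v - (inner ℝ v e) • e‖ ^ 2 = ‖v‖ ^ 2 - (inner ℝ v e) ^ 2 := by
      rw [norm_sub_sq_real, inner_smul_right, norm_smul, he, mul_one, Real.norm_eq_abs, sq_abs]
      ring
    have h3 : ‖v - (inner ℝ v e) • e‖ ^ 2 ≤ ‖v‖ ^ 2 := by
      rw [h2]; linarith [sq_nonneg (inner ℝ v e)]
    exact (sq_le_sq₀ (norm_nonneg _) (norm_nonneg _)).1 h3

/-- a thin tube is in a fat tube of the net -/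
theorem thin_fat {δ : ℝ} {a a' e e' : E n} (he' : ‖e'‖ = 1) (hδ5 : δ ≤ 1 / 5) (ha : ‖a - a'‖ ≤ δ)
    (hee : ‖e - e'‖ ≤ δ) : cyl (1 / 2) δ a e ⊆ cyl 1 (3 * δ) a' e' := by
  rintro y ⟨h1, h2⟩
  have hδ0 : 0 ≤ δ := (norm_nonneg _).trans ha
  set s : ℝ := inner ℝ (y - a) e with hs
  refine mem_cyl he' (s := s) (ρ := 5 / 2 * δ) (by linarith) (by linarith) ?_
  have h3 : y - a' - s • e' = (a - a') + s • (e - e') + (y - a - s • e) := by
    rw [smul_sub]; abel
  rw [h3]
  have h4 : ‖s • (e - e')‖ ≤ 1 / 2 * δ := by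
    rw [norm_smul, Real.norm_eq_abs]
    exact mul_le_mul h1 hee (norm_nonneg _) (by norm_num)
  calc ‖(a - a') + s • (e - e') + (y - a - s • e)‖ ≤ ‖(a - a') + s • (e - e')‖ + ‖y - a - s • e‖ :=
        norm_add_le _ _
    _ ≤ (‖a - a'‖ + ‖s • (e - e')‖) + ‖y - a - s • e‖ := by gcongr; exact norm_add_le _ _
    _ ≤ 5 / 2 * δ := by linarith

/-- a fat tube is covered by three tubes with a nearby direction -/
theorem fat_thin {δ : ℝ} {a e e' : E n} (he : ‖e‖ = 1) (hδ10 : δ ≤ 1 / 10) (hee : ‖e - e'‖ ≤ δ) :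
    cyl 1 (3 * δ) a e' ⊆ ⋃ k : Fin 3, cyl (1 / 2) (5 * δ) (a + ((k : ℝ) - 1) • e) e := by
  rintro y ⟨h1, h2⟩
  have hδ0 : 0 ≤ δ := (norm_nonneg _).trans hee
  set s : ℝ := inner ℝ (y - a) e' with hs
  set v : E n := s • (e' - e) + (y - a - s • e') with hv
  have hvn : ‖v‖ ≤ 4 * δ := by
    have h4 : ‖s • (e' - e)‖ ≤ 1 * δ := by
      rw [norm_smul, Real.norm_eq_abs]
      refine mul_le_mul h1 ?_ (norm_nonneg _) (by norm_num)
      rw [norm_sub_rev]; exact hee
    exact (norm_add_le _ _).trans (by linarith)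
  have hya : y - a = s • e + v := by rw [hv, smul_sub]; abel
  set t : ℝ := inner ℝ (y - a) e with ht
  have htv : t = s + inner ℝ v e := by
    rw [ht, hya, inner_add_left, inner_smul_left, real_inner_self_eq_norm_sq, he]
    simp
  have hve : |inner ℝ v e| ≤ 4 * δ := by
    refine (abs_real_inner_le_norm v e).trans ?_
    rw [he, mul_one]; exact hvn
  have htb : |t| ≤ 3 / 2 := by
    rw [htv]
    exact (abs_add_le _ _).trans (by linarith)
  obtain ⟨k, hk⟩ : ∃ k : Fin 3, |t - ((k : ℝ) - 1)| ≤ 1 / 2 := by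
    rw [abs_le] at htb
    rcases le_or_gt t (-1 / 2) with h | h
    · refine ⟨0, ?_⟩
      rw [abs_le]
      constructor <;> simp <;> linarith [htb.1]
    · rcases le_or_gt t (1 / 2) with h' | h'
      · refine ⟨1, ?_⟩
        rw [abs_le]
        constructor <;> simp <;> linarith
      · refine ⟨2, ?_⟩
        rw [abs_le]
        constructor <;> simp <;> linarith [htb.2]
  rw [mem_iUnion]
  refine ⟨k, ?_, ?_⟩
  · have h3 : y - (a + ((k : ℝ) - 1) • e) = (y - a) - ((k : ℝ) - 1) • e := by abel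
    rw [h3, inner_sub_left, inner_smul_left, real_inner_self_eq_norm_sq, he, ← ht]
    simpa using hk
  · have h3 : y - (a + ((k : ℝ) - 1) • e) = (y - a) - ((k : ℝ) - 1) • e := by abel
    have h4 : inner ℝ (y - (a + ((k : ℝ) - 1) • e)) e = t - ((k : ℝ) - 1) := by
      rw [h3, inner_sub_left, inner_smul_left, real_inner_self_eq_norm_sq, he, ← ht]
      simp
    rw [h4, h3]
    have h5 : (y - a) - ((k : ℝ) - 1) • e - (t - ((k : ℝ) - 1)) • e = v - (inner ℝ v e) • e := by
      rw [htv, hya]; module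
    rw [h5]
    refine le_trans ?_ (hvn.trans (by linarith))
    have h2 : ‖v - (inner ℝ v e) • e‖ ^ 2 = ‖v‖ ^ 2 - (inner ℝ v e) ^ 2 := by
      rw [norm_sub_sq_real, inner_smul_right, norm_smul, he, mul_one, Real.norm_eq_abs, sq_abs]
      ring
    have h3 : ‖v - (inner ℝ v e) • e‖ ^ 2 ≤ ‖v‖ ^ 2 := by
      rw [h2]; linarith [sq_nonneg (inner ℝ v e)]
    exact (sq_le_sq₀ (norm_nonneg _) (norm_nonneg _)).1 h3

/-- adapted orthonormal coordinates -/
theorem coords {d : ℕ} {a e : E (d + 1)} (he : ‖e‖ = 1) :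
    ∃ b : OrthonormalBasis (Fin (d + 1)) ℝ (E (d + 1)), b 0 = e ∧
      MeasurePreserving (fun y : E (d + 1) => (b.repr (y - a)).ofLp) volume volume ∧
      ∀ y, (inner ℝ (y - a) e : ℝ) = b.repr (y - a) 0 ∧
        (y - a) - (inner ℝ (y - a) e : ℝ) • e = ∑ i : Fin d, b.repr (y - a) i.succ • b i.succ := by
  have hon : Orthonormal ℝ (({0} : Set (Fin (d + 1))).domRestrict (fun _ => e)) := by
    rw [orthonormal_iff_ite]
    rintro ⟨i, hi⟩ ⟨j, hj⟩
    simp only [mem_singleton_iff] at hi hj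
    subst hi; subst hj
    change (inner ℝ e e : ℝ) = _
    rw [real_inner_self_eq_norm_sq, he]
    simp
  obtain ⟨b, hb⟩ := hon.exists_orthonormalBasis_extension_of_card_eq (by simp)
  have hb0 : b 0 = e := hb 0 rfl
  refine ⟨b, hb0, ?_, fun y => ?_⟩
  · have h1 : MeasurePreserving (fun y : E (d + 1) => y - a) volume volume :=
      measurePreserving_sub_right volume a
    have h2 := b.measurePreserving_repr
    have h3 := PiLp.volume_preserving_ofLp (Fin (d + 1))
    exact h3.comp (h2.comp h1)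
  · have hv0 : (inner ℝ (y - a) e : ℝ) = b.repr (y - a) 0 := by
      rw [b.repr_apply_apply, hb0, real_inner_comm]
    refine ⟨hv0, ?_⟩
    have hsum : y - a = b.repr (y - a) 0 • e + ∑ i : Fin d, b.repr (y - a) i.succ • b i.succ := by
      conv_lhs => rw [← b.sum_repr (y - a)]
      rw [Fin.sum_univ_succ, hb0]
    rw [hv0]
    exact sub_eq_of_eq_add' hsum

/-- upper bound for the volume -/
theorem vol_cyl_le {d : ℕ} {h r : ℝ} (hh : 0 ≤ h) (hr : 0 ≤ r) {a e : E (d + 1)} (he : ‖e‖ = 1) :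
    volume (cyl h r a e) ≤ ENNReal.ofReal (2 * h * (2 * r) ^ d) := by
  obtain ⟨b, hb0, hmp, hc⟩ := coords (a := a) he
  set ρ : Fin (d + 1) → ℝ := Fin.cons h (fun _ => r) with hρ
  set B : Set (Fin (d + 1) → ℝ) := Set.pi univ (fun i => Icc (-(ρ i)) (ρ i)) with hB
  have hBm : MeasurableSet B := MeasurableSet.univ_pi (fun i => measurableSet_Icc)
  have hvolB : volume B = ENNReal.ofReal (2 * h * (2 * r) ^ d) := by
    rw [hB, volume_pi_pi]
    simp only [Real.volume_Icc]
    rw [Fin.prod_univ_succ]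
    simp only [hρ, Fin.cons_zero, Fin.cons_succ, Finset.prod_const, Finset.card_univ,
      Fintype.card_fin]
    rw [← ENNReal.ofReal_pow (by linarith), ← ENNReal.ofReal_mul (by linarith)]
    congr 1
    ring
  rw [← hvolB, ← hmp.measure_preimage hBm.nullMeasurableSet]
  apply measure_mono
  rintro y ⟨h1, h2⟩
  simp only [mem_preimage, hB, mem_univ_pi, mem_Icc]
  obtain ⟨h3, h4⟩ := hc y
  intro i
  rw [← abs_le]
  refine Fin.cases ?_ (fun j => ?_) i
  · rw [← h3]
    simpa [hρ] using h1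
  · simp only [hρ, Fin.cons_succ]
    have h5 : b.repr (y - a) j.succ = inner ℝ (b j.succ)
        ((y - a) - (inner ℝ (y - a) e : ℝ) • e) := by
      rw [inner_sub_right, inner_smul_right, ← hb0, b.repr_apply_apply]
      have : (inner ℝ (b j.succ) (b 0) : ℝ) = 0 := by
        rw [orthonormal_iff_ite.1 b.orthonormal]
        simp [Fin.succ_ne_zero]
      rw [this]
      ring
    have h6 := abs_real_inner_le_norm (b j.succ) ((y - a) - (inner ℝ (y - a) e : ℝ) • e)
    rw [← h5, b.orthonormal.1, one_mul] at h6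
    exact h6.trans h2

/-- lower bound for the volume -/
theorem vol_cyl_ge {d : ℕ} {r : ℝ} (hr : 0 < r) {a e : E (d + 1)} (he : ‖e‖ = 1) :
    ENNReal.ofReal ((2 / (d + 1)) ^ d * r ^ d) ≤ volume (cyl (1 / 2) r a e) := by
  obtain ⟨b, hb0, hmp, hc⟩ := coords (a := a) he
  set ρ : Fin (d + 1) → ℝ := Fin.cons (1 / 2) (fun _ => r / (d + 1)) with hρ
  set B : Set (Fin (d + 1) → ℝ) := Set.pi univ (fun i => Icc (-(ρ i)) (ρ i)) with hB
  have hBm : MeasurableSet B := MeasurableSet.univ_pi (fun i => measurableSet_Icc)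
  have hvolB : volume B = ENNReal.ofReal ((2 / (d + 1)) ^ d * r ^ d) := by
    rw [hB, volume_pi_pi]
    simp only [Real.volume_Icc]
    rw [Fin.prod_univ_succ]
    simp only [hρ, Fin.cons_zero, Fin.cons_succ, Finset.prod_const, Finset.card_univ,
      Fintype.card_fin]
    have hnn : 0 ≤ r / (d + 1) - -(r / (d + 1)) := by
      have : 0 ≤ r / (d + 1) := by positivity
      linarith
    rw [← ENNReal.ofReal_pow hnn, ← ENNReal.ofReal_mul (by norm_num)]
    congr 1
    rw [← mul_pow]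
    norm_num
    congr 1
    ring
  rw [← hvolB, ← hmp.measure_preimage hBm.nullMeasurableSet]
  apply measure_mono
  intro y hy
  simp only [mem_preimage, hB, mem_univ_pi, mem_Icc] at hy
  obtain ⟨h3, h4⟩ := hc y
  refine ⟨?_, ?_⟩
  · have := hy 0
    rw [h3, abs_le]
    simpa [hρ] using this
  · rw [h4]
    refine (norm_sum_le _ _).trans ?_
    calc ∑ i : Fin d, ‖b.repr (y - a) i.succ • b i.succ‖ ≤ ∑ _i : Fin d, r / (d + 1) := by
          refine Finset.sum_le_sum fun i _ => ?_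
          rw [norm_smul, b.orthonormal.1, mul_one, Real.norm_eq_abs, abs_le]
          have := hy i.succ
          simpa [hρ] using this
      _ = d * (r / (d + 1)) := by
          rw [Finset.sum_const, Finset.card_univ, Fintype.card_fin, nsmul_eq_mul]
      _ ≤ r := by
          rw [← mul_div_assoc, div_le_iff₀ (by positivity)]
          nlinarith

/-- **nets** of bounded sets, inside the set -/
theorem net (n : ℕ) (R : ℝ) (hR : 1 ≤ R) : ∃ C : ℝ, 1 ≤ C ∧ ∀ S : Set (E n), (∀ x ∈ S, ‖x‖ ≤ R) →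
    ∀ δ : ℝ, 0 < δ → δ < 1 → ∃ N : Finset (E n), (∀ y ∈ N, y ∈ S) ∧
      (N.card : ℝ) ≤ (C / δ) ^ n ∧ ∀ x ∈ S, ∃ y ∈ N, ‖x - y‖ ≤ δ := by
  classical
  refine ⟨2 * (R + 1) * (n + 2) + 1, by nlinarith [Nat.cast_nonneg (α := ℝ) n], ?_⟩
  intro S hS δ hδ hδ1
  set m : ℕ := ⌈(n : ℝ) / δ⌉₊ + 1 with hm
  have hm0 : (0 : ℝ) < m := by rw [hm]; positivity
  have hmδ : (n : ℝ) / m ≤ δ := by
    rw [div_le_iff₀ hm0]
    have h1 := Nat.le_ceil ((n : ℝ) / δ)
    have h2 : (n : ℝ) / δ ≤ m := by rw [hm]; push_cast; linarith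
    rw [div_le_iff₀ hδ] at h2
    linarith
  have hm1 : (m : ℝ) ≤ (n + 2) / δ := by
    have h1 := Nat.ceil_lt_add_one (by positivity : (0 : ℝ) ≤ (n : ℝ) / δ)
    have h2 : (1 : ℝ) ≤ 1 / δ := by rw [le_div_iff₀ hδ]; linarith
    have h3 : ((n : ℝ) + 2) / δ = n / δ + 2 * (1 / δ) := by ring
    rw [hm, h3]
    push_cast
    linarith
  set cell : E n → Fin n → ℤ := fun x i => ⌊x i * m⌋ with hcell
  set Q : ℕ := ⌈R * m⌉₊ + 1 with hQ
  set Bx : Finset (Fin n → ℤ) := Fintype.piFinset fun _ => Finset.Icc (-(Q : ℤ)) Q with hBx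
  have hmem : ∀ x ∈ S, cell x ∈ Bx := by
    intro x hx
    rw [hBx, Fintype.mem_piFinset]
    intro i
    have h1 : |x i| ≤ R := by
      have := (PiLp.norm_apply_le x i).trans (hS x hx)
      rwa [Real.norm_eq_abs] at this
    have h2 := Nat.le_ceil (R * m)
    have h3 := abs_le.1 h1
    have hQr : (R * m : ℝ) + 1 ≤ Q := by rw [hQ]; push_cast; linarith
    rw [Finset.mem_Icc]
    constructor
    · rw [Int.le_floor]
      push_cast
      nlinarith
    · have h4 : (⌊x i * m⌋ : ℝ) ≤ Q := by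
        refine (Int.floor_le _).trans ?_
        nlinarith
      exact_mod_cast h4
  set good : Finset (Fin n → ℤ) := Bx.filter fun c => ∃ x ∈ S, cell x = c with hgood
  set rep : (Fin n → ℤ) → E n := fun c => if h : ∃ x ∈ S, cell x = c then h.choose else 0 with hrep
  refine ⟨good.image rep, ?_, ?_, ?_⟩
  · intro y hy
    rw [Finset.mem_image] at hy
    obtain ⟨c, hc, rfl⟩ := hy
    have h := (Finset.mem_filter.1 hc).2
    simp only [hrep, dif_pos h]
    exact h.choose_spec.1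
  · have h1 : ((good.image rep).card : ℝ) ≤ (Bx.card : ℝ) := by
      exact_mod_cast Finset.card_image_le.trans (Finset.card_filter_le _ _)
    have h2 : Bx.card = (2 * Q + 1) ^ n := by
      rw [hBx, Fintype.card_piFinset]
      have : ∀ i : Fin n, (Finset.Icc (-(Q : ℤ)) Q).card = 2 * Q + 1 := by
        intro i
        rw [Int.card_Icc]
        omega
      rw [Finset.prod_congr rfl fun i _ => this i, Finset.prod_const, Finset.card_univ,
        Fintype.card_fin]
    refine h1.trans ?_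
    rw [h2]
    push_cast
    refine pow_le_pow_left₀ (by positivity) ?_ n
    have h3 := Nat.ceil_lt_add_one (by positivity : (0 : ℝ) ≤ R * m)
    have h4 : (Q : ℝ) ≤ R * m + 2 := by rw [hQ]; push_cast; linarith
    have h5 : (1 : ℝ) ≤ m := by rw [hm]; push_cast; linarith [Nat.cast_nonneg (α := ℝ) ⌈(n : ℝ) / δ⌉₊]
    have h6 : 2 * (Q : ℝ) + 1 ≤ 2 * R * m + 5 := by linarith
    rw [le_div_iff₀ hδ]
    have h7 : (m : ℝ) * δ ≤ n + 2 := by rwa [le_div_iff₀ hδ] at hm1
    nlinarith [Nat.cast_nonneg (α := ℝ) n]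
  · intro x hx
    have h : ∃ x' ∈ S, cell x' = cell x := ⟨x, hx, rfl⟩
    refine ⟨rep (cell x), Finset.mem_image.2 ⟨cell x, Finset.mem_filter.2 ⟨hmem x hx, h⟩, rfl⟩, ?_⟩
    simp only [hrep, dif_pos h]
    set y := h.choose with hy
    have hyc : cell y = cell x := h.choose_spec.2
    have hpt : ∀ i, |(x - y) i| ≤ 1 / m := by
      intro i
      have h1 : ⌊y i * m⌋ = ⌊x i * m⌋ := congrFun hyc i
      have h2 := Int.abs_sub_lt_one_of_floor_eq_floor h1.symm
      show |x i - y i| ≤ 1 / m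
      rw [← sub_mul, abs_mul, abs_of_pos hm0] at h2
      rw [le_div_iff₀ hm0]
      exact h2.le
    refine le_trans ?_ hmδ
    rw [EuclideanSpace.norm_eq]
    have h4 : ∑ i : Fin n, ‖(x - y) i‖ ^ 2 ≤ ((n : ℝ) / m) ^ 2 := by
      calc ∑ i : Fin n, ‖(x - y) i‖ ^ 2
          ≤ ∑ i : Fin n, (1 / m : ℝ) ^ 2 := Finset.sum_le_sum fun i _ => by
            rw [Real.norm_eq_abs]
            exact pow_le_pow_left₀ (abs_nonneg _) (hpt i) 2
        _ = n * (1 / m : ℝ) ^ 2 := by
            rw [Finset.sum_const, Finset.card_univ, Fintype.card_fin, nsmul_eq_mul]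
        _ ≤ (n : ℝ) ^ 2 * (1 / m : ℝ) ^ 2 := by
            refine mul_le_mul_of_nonneg_right ?_ (by positivity)
            rcases Nat.eq_zero_or_pos n with h | h
            · simp [h]
            · have : (1 : ℝ) ≤ n := by exact_mod_cast h
              nlinarith
        _ = _ := by ring
    exact (Real.sqrt_le_sqrt h4).trans (by rw [Real.sqrt_sq (by positivity)])

end Pool.Agent.N248.KR
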