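import Mathlib
import Pool.Agent.N248.KR.Core
import Pool.Agent.N248.KR.Geo
set_option autoImplicit false

/-! Kakeya for random sets of directions: from level sets to the restricted weak type inequality. -/

namespace Pool.Agent.N248.KR

open MeasureTheory Set Metric
open scoped ENNReal NNReal

section abstractPart

variable {X : Type*} [MeasurableSpace X]

/-- `ct` is `0` or at least `1` -/
theorem ct_int {ι : Type*} [Fintype ι] (T : ι → Set X) (x : X) : ct T x = 0 ∨ 1 ≤ ct T x := by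
  by_cases h : ∃ i, x ∈ T i
  · right
    obtain ⟨i, hi⟩ := h
    have h3 : (T i).indicator (fun _ => (1 : ℝ)) x ≤ ct T x :=
      Finset.single_le_sum (f := fun i => (T i).indicator (fun _ => (1 : ℝ)) x)
        (fun i _ => indicator_nonneg (fun _ _ => zero_le_one) x) (Finset.mem_univ i)
    rwa [indicator_of_mem hi] at h3
  · left
    push Not at h
    exact Finset.sum_eq_zero fun i _ => indicator_of_notMem (h i) _

/-- layers of `ct` -/
theorem ct_layers {ι : Type*} [Fintype ι] (T : ι → Set X) (J : ℕ)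
    (hJ : (Fintype.card ι : ℝ) ≤ 2 ^ J) (x : X) :
    ENNReal.ofReal (ct T x) ≤ ∑ l ∈ Finset.range (J + 1),
      ENNReal.ofReal (2 ^ (l + 1)) * ({x | (2 : ℝ) ^ l ≤ ct T x}).indicator 1 x := by
  rcases ct_int T x with h | h
  · rw [h, ENNReal.ofReal_zero]; exact zero_le
  · have hex : ∃ l : ℕ, ct T x < 2 ^ (l + 1) :=
      ⟨J, ((ct_le T x).trans hJ).trans_lt (pow_lt_pow_right₀ (by norm_num) (by omega))⟩
    classical
    set l := Nat.find hex with hl
    have h1 : ct T x < 2 ^ (l + 1) := Nat.find_spec hex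
    have hlJ : l ≤ J := Nat.find_min' hex
      (((ct_le T x).trans hJ).trans_lt (pow_lt_pow_right₀ (by norm_num) (by omega)))
    have h2 : (2 : ℝ) ^ l ≤ ct T x := by
      rcases Nat.eq_zero_or_pos l with h0 | h0
      · rw [h0, pow_zero]; exact h
      · have := Nat.find_min hex (m := l - 1) (by omega)
        rw [not_lt, Nat.sub_add_cancel h0] at this
        exact this
    calc ENNReal.ofReal (ct T x) ≤ ENNReal.ofReal (2 ^ (l + 1)) * 1 := by
          rw [mul_one]; exact ENNReal.ofReal_le_ofReal h1.le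
      _ = ENNReal.ofReal (2 ^ (l + 1)) * ({x | (2 : ℝ) ^ l ≤ ct T x}).indicator 1 x := by
          rw [indicator_of_mem (show x ∈ {x | (2 : ℝ) ^ l ≤ ct T x} from h2), Pi.one_apply]
      _ ≤ _ := Finset.single_le_sum (f := fun l => ENNReal.ofReal (2 ^ (l + 1)) *
          ({x | (2 : ℝ) ^ l ≤ ct T x}).indicator (1 : X → ℝ≥0∞) x) (fun _ _ => zero_le)
            (Finset.mem_range.2 (by omega))

/-- **from level sets to densities** -/
theorem rw_of_levels (ν : Measure X) {ι : Type*} [Fintype ι] (T : ι → Set X)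
    (hT : ∀ i, MeasurableSet (T i)) (D : Set X) (hD : MeasurableSet D) (hDf : ν D ≠ ⊤)
    (p : ℝ) (hp : 1 < p) (J : ℕ) (hJ : (Fintype.card ι : ℝ) ≤ 2 ^ J) (B : ℝ) (hB : 0 ≤ B)
    (hfin : ∀ l : ℕ, ν {x | (2 : ℝ) ^ l ≤ ct T x} ≠ ⊤)
    (hlev : ∀ l : ℕ, (ν {x | (2 : ℝ) ^ l ≤ ct T x}).toReal ≤ B * ((2 : ℝ) ^ l) ^ (-(p / (p - 1))))
    (x : ℝ) (hx0 : 0 ≤ x) (hx : ∀ i, ENNReal.ofReal x ≤ ν (T i ∩ D)) :
    (Fintype.card ι * x) ^ p ≤ (2 * (J + 1)) ^ p * (ν D).toReal * B ^ (p - 1) := by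
  have hp0 : 0 < p := by linarith
  have hp1 : 0 < p - 1 := by linarith
  have hctm := ct_meas hT
  have h1 : ENNReal.ofReal (Fintype.card ι * x) ≤ ∑ l ∈ Finset.range (J + 1),
      ENNReal.ofReal (2 ^ (l + 1)) * ν ({x | (2 : ℝ) ^ l ≤ ct T x} ∩ D) := by
    calc ENNReal.ofReal (Fintype.card ι * x) = ∑ _i : ι, ENNReal.ofReal x := by
          rw [Finset.sum_const, Finset.card_univ, nsmul_eq_mul,
            ENNReal.ofReal_mul (Nat.cast_nonneg _), ENNReal.ofReal_natCast]
      _ ≤ ∑ i, ν (T i ∩ D) := Finset.sum_le_sum fun i _ => hx i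
      _ = ∫⁻ y in D, ENNReal.ofReal (ct T y) ∂ν := (lint_ct ν T hT hD).symm
      _ ≤ ∫⁻ y in D, ∑ l ∈ Finset.range (J + 1), ENNReal.ofReal (2 ^ (l + 1)) *
            ({x | (2 : ℝ) ^ l ≤ ct T x}).indicator 1 y ∂ν := lintegral_mono fun y => ct_layers T J hJ y
      _ = ∑ l ∈ Finset.range (J + 1), ENNReal.ofReal (2 ^ (l + 1)) *
            ν ({x | (2 : ℝ) ^ l ≤ ct T x} ∩ D) := by
          rw [lintegral_finsetSum]
          · refine Finset.sum_congr rfl fun l _ => ?_
            have hm : MeasurableSet {x | (2 : ℝ) ^ l ≤ ct T x} :=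
              measurableSet_le measurable_const hctm
            rw [lintegral_const_mul _ (measurable_one.indicator hm), lintegral_indicator_one hm,
              Measure.restrict_apply hm]
          · intro l _
            have hm : MeasurableSet {x | (2 : ℝ) ^ l ≤ ct T x} :=
              measurableSet_le measurable_const hctm
            exact (measurable_one.indicator hm).const_mul _
  set Y : ℝ := (ν D).toReal with hY
  have hY0 : 0 ≤ Y := ENNReal.toReal_nonneg
  set c : ℝ := Y ^ (1 / p) * B ^ ((p - 1) / p) with hc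
  have hc0 : 0 ≤ c := by positivity
  have h2 : ∀ l : ℕ, 2 ^ (l + 1) * (ν ({x | (2 : ℝ) ^ l ≤ ct T x} ∩ D)).toReal ≤ 2 * c := by
    intro l
    set y : ℝ := (ν ({x | (2 : ℝ) ^ l ≤ ct T x} ∩ D)).toReal with hy
    have hy0 : 0 ≤ y := ENNReal.toReal_nonneg
    have hy1 : y ≤ Y := ENNReal.toReal_mono hDf (measure_mono inter_subset_right)
    have hy2 : y ≤ B * ((2 : ℝ) ^ l) ^ (-(p / (p - 1))) :=
      (ENNReal.toReal_mono (hfin l) (measure_mono inter_subset_left)).trans (hlev l)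
    have h3 : y ≤ Y ^ (1 / p) * (B * ((2 : ℝ) ^ l) ^ (-(p / (p - 1)))) ^ ((p - 1) / p) := by
      calc y = y ^ (1 / p + (p - 1) / p) := by
            rw [show 1 / p + (p - 1) / p = 1 by field_simp; ring, Real.rpow_one]
        _ = y ^ (1 / p) * y ^ ((p - 1) / p) := Real.rpow_add_of_nonneg hy0 (by positivity)
            (by positivity)
        _ ≤ _ := by gcongr
    have h4 : (B * ((2 : ℝ) ^ l) ^ (-(p / (p - 1)))) ^ ((p - 1) / p) =
        B ^ ((p - 1) / p) * ((2 : ℝ) ^ l)⁻¹ := by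
      rw [Real.mul_rpow hB (by positivity), ← Real.rpow_mul (by positivity)]
      have : -(p / (p - 1)) * ((p - 1) / p) = -1 := by field_simp
      rw [this, Real.rpow_neg_one]
    rw [h4] at h3
    calc 2 ^ (l + 1) * y ≤ 2 ^ (l + 1) * (Y ^ (1 / p) * (B ^ ((p - 1) / p) * ((2 : ℝ) ^ l)⁻¹)) := by
          gcongr
      _ = 2 * c := by
          rw [hc, pow_succ]; field_simp
  have h5 : (Fintype.card ι : ℝ) * x ≤ 2 * (J + 1) * c := by
    have h6 : ∑ l ∈ Finset.range (J + 1),
      ENNReal.ofReal (2 ^ (l + 1)) * ν ({x | (2 : ℝ) ^ l ≤ ct T x} ∩ D) ≤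
        ENNReal.ofReal (2 * (J + 1) * c) := by
      calc ∑ l ∈ Finset.range (J + 1),
          ENNReal.ofReal (2 ^ (l + 1)) * ν ({x | (2 : ℝ) ^ l ≤ ct T x} ∩ D)
          ≤ ∑ _l ∈ Finset.range (J + 1), ENNReal.ofReal (2 * c) := by
            refine Finset.sum_le_sum fun l _ => ?_
            have h7 : ν ({x | (2 : ℝ) ^ l ≤ ct T x} ∩ D) ≠ ⊤ :=
              ((measure_mono inter_subset_left).trans_lt (hfin l).lt_top).ne
            rw [← ENNReal.ofReal_toReal h7, ← ENNReal.ofReal_mul (by positivity)]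
            exact ENNReal.ofReal_le_ofReal (h2 l)
        _ = ENNReal.ofReal (2 * (J + 1) * c) := by
            rw [Finset.sum_const, Finset.card_range, nsmul_eq_mul, ← ENNReal.ofReal_natCast,
              ← ENNReal.ofReal_mul (by positivity)]
            congr 1
            push_cast; ring
    exact (ENNReal.ofReal_le_ofReal_iff (by positivity)).1 (h1.trans h6)
  calc ((Fintype.card ι : ℝ) * x) ^ p ≤ (2 * (J + 1) * c) ^ p :=
        Real.rpow_le_rpow (by positivity) h5 hp0.le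
    _ = (2 * (J + 1)) ^ p * c ^ p := Real.mul_rpow (by positivity) hc0
    _ = _ := by
        have e1 : c ^ p = Y * B ^ (p - 1) := by
          rw [hc, Real.mul_rpow (by positivity) (by positivity), ← Real.rpow_mul hY0,
            ← Real.rpow_mul hB, div_mul_cancel₀ _ hp0.ne', div_mul_cancel₀ _ hp0.ne',
            Real.rpow_one]
        rw [e1]
        ring

end abstractPart

variable {n : ℕ}

/-- the Kakeya maximal function -/
noncomputable def kmax (δ : ℝ) (f : E n → ℝ≥0∞) (e : E n) : ℝ≥0∞ :=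
  ⨆ a : E n, (volume (cyl (1 / 2) δ a e))⁻¹ * ∫⁻ y in cyl (1 / 2) δ a e, f y

/-- a fat tube with a large part in `D` -/
theorem kmax_of_fat {d : ℕ} {δ t : ℝ} (hδ : 0 < δ) (hδ10 : δ ≤ 1 / 10) {a e e' : E (d + 1)}
    (he : ‖e‖ = 1) (hee : ‖e - e'‖ ≤ δ) {D : Set (E (d + 1))} (hD : MeasurableSet D)
    (h : ENNReal.ofReal (t * (3 * (10 * δ) ^ d)) ≤ volume (cyl 1 (3 * δ) a e' ∩ D)) :
    ENNReal.ofReal t ≤ kmax (5 * δ) (D.indicator 1) e := by
  rcases le_or_gt t 0 with ht | ht
  · rw [ENNReal.ofReal_of_nonpos ht]; exact zero_le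
  set W : ℝ := (10 * δ) ^ d with hW
  have hW0 : 0 < W := by positivity
  obtain ⟨k, hk⟩ : ∃ k : Fin 3, ENNReal.ofReal (t * W) ≤
      volume (cyl (1 / 2) (5 * δ) (a + ((k : ℝ) - 1) • e) e ∩ D) := by
    by_contra hcon
    push Not at hcon
    have h1 : volume (cyl 1 (3 * δ) a e' ∩ D) ≤
        ∑ k : Fin 3, volume (cyl (1 / 2) (5 * δ) (a + ((k : ℝ) - 1) • e) e ∩ D) := by
      refine (measure_mono ?_).trans (measure_iUnion_fintype_le _ _)
      intro y hy
      have := fat_thin he hδ10 hee hy.1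
      rw [mem_iUnion] at this ⊢
      obtain ⟨k, hk⟩ := this
      exact ⟨k, hk, hy.2⟩
    have h2 : ∑ k : Fin 3, volume (cyl (1 / 2) (5 * δ) (a + ((k : ℝ) - 1) • e) e ∩ D) <
        ∑ _k : Fin 3, ENNReal.ofReal (t * W) :=
      ENNReal.sum_lt_sum_of_nonempty ⟨0, Finset.mem_univ _⟩ fun k _ => hcon k
    have h3 : ∑ _k : Fin 3, ENNReal.ofReal (t * W) = ENNReal.ofReal (t * (3 * W)) := by
      rw [Finset.sum_const, Finset.card_univ, Fintype.card_fin, nsmul_eq_mul,
        ← ENNReal.ofReal_natCast, ← ENNReal.ofReal_mul (by positivity)]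
      congr 1
      push_cast; ring
    rw [h3] at h2
    exact absurd (h.trans h1) (not_le.2 h2)
  set T := cyl (1 / 2) (5 * δ) (a + ((k : ℝ) - 1) • e) e with hT
  have hvol : volume T ≤ ENNReal.ofReal W := by
    refine (vol_cyl_le (by norm_num) (by positivity) he).trans (le_of_eq ?_)
    rw [hW]
    congr 1
    ring
  refine le_trans ?_ (le_iSup _ (a + ((k : ℝ) - 1) • e))
  rw [← hT, lintegral_indicator_one hD, Measure.restrict_apply hD, inter_comm D T]
  calc ENNReal.ofReal t = (ENNReal.ofReal W)⁻¹ * ENNReal.ofReal (t * W) := by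
        rw [mul_comm t W, ENNReal.ofReal_mul hW0.le, ← mul_assoc,
          ENNReal.inv_mul_cancel (by rw [ne_eq, ENNReal.ofReal_eq_zero, not_le]; exact hW0)
            ENNReal.ofReal_ne_top, one_mul]
    _ ≤ (volume T)⁻¹ * volume (T ∩ D) := by gcongr

end Pool.Agent.N248.KR
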