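import Mathlib
import Pool.Agent.N248.KR.Rw
set_option autoImplicit false

/-! Kakeya for random sets of directions: the restricted weak type inequality for a set of
directions which passes finitely many tests. -/

namespace Pool.Agent.N248.KR

open MeasureTheory Set Metric
open scoped ENNReal NNReal

variable {n : ℕ}

/-- directions -/
abbrev Dir (n : ℕ) := sphere (0 : E n) 1

/-- the sets of the tests -/
def tst {Z : Type*} (pos dir : Z → E n) (δ K : ℝ) {s : ℕ} (w : Fin s → Z) : Set (E n) :=
  {x | K / 2 ≤ ct (fun l => cyl 1 (3 * δ) (pos (w l)) (dir (w l))) x}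

theorem tst_meas {Z : Type*} (pos dir : Z → E n) (δ K : ℝ) {s : ℕ} (w : Fin s → Z) :
    MeasurableSet (tst pos dir δ K w) :=
  measurableSet_le measurable_const (ct_meas fun _ => cyl_meas _ _ _ _)

/-- the directions of the tests -/
def dirs {Z : Type*} (pos dir : Z → E n) (δ K : ℝ) (s : ℕ) (w : Fin s → Z) (j : ℕ) : Set (Dir n) :=
  {θ | ENNReal.ofReal ((1 / 2) ^ (j + 3)) < kmax (5 * δ) ((tst pos dir δ K w).indicator 1) θ}

open scoped Classical in
/-- all tests are passed -/
def Pass {M : ℕ} {Z : Type*} (P : Measure (Dir n)) (pos dir : Z → E n) (δ K c : ℝ) (J : ℕ)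
    (ω : Fin M → Dir n) : Prop :=
  ∀ (s : ℕ) (w : Fin s → Z) (j : ℕ), 1 ≤ s → j ≤ J →
    ((Finset.univ.filter fun i => ω i ∈ dirs pos dir δ K s w j).card : ℝ) < c * s ∨
    ((Finset.univ.filter fun i => ω i ∈ dirs pos dir δ K s w j).card : ℝ) ≤
      Real.exp 2 * (M * (P (dirs pos dir δ K s w j)).toReal)

/-- the restricted weak type inequality on the sphere -/
def WeakAt (P : Measure (Dir n)) (p A δ : ℝ) : Prop :=
  ∀ D : Set (E n), MeasurableSet D → volume D ≠ ⊤ → ∀ t : ℝ, 0 < t →
    P {θ | ENNReal.ofReal t < kmax δ (D.indicator 1) θ} ≤ ENNReal.ofReal (A * t ^ (-p)) * volume D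

/-- the bound of the core -/
noncomputable def RR (p c K Q : ℝ) (J : ℕ) : ℝ :=
  4 ^ (p - 1) + (4 * (J + 1) * c * K) ^ (p - 1) + 34 * (J + 1) * (2 * (J + 1)) ^ (p - 1) * Q

open scoped Classical in
theorem local_levels {d M : ℕ} {Z : Type*} (P : Measure (Dir (d + 1))) [IsProbabilityMeasure P]
    (pos dir : Z → E (d + 1)) (hdir : ∀ z, ‖dir z‖ = 1) (δ K c A p : ℝ) (J : ℕ) (hδ : 0 < δ)
    (hδ10 : δ ≤ 1 / 10) (hp : 2 ≤ p) (hA : 0 ≤ A) (hc : 0 ≤ c) (hK : 1 ≤ K)
    (hMJ : (M : ℝ) ≤ 2 ^ J) (hKJ : 12 * Real.exp (-(K / 12)) * M * 2 ^ J ≤ 1)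
    (hweak : WeakAt P p A (5 * δ)) (ω : Fin M → Dir (d + 1))
    (hpass : Pass P pos dir δ K c J ω) (I : Finset (Fin M)) (hI : I.Nonempty) (z : Fin M → Z)
    (hz : ∀ i ∈ I, ‖(ω i : E (d + 1)) - dir (z i)‖ ≤ δ) :
    ∃ Lam : ℝ, 0 < Lam ∧ Lam ^ (p - 1) ≤ RR p c K
        (Real.exp 2 * M * (A * 8 ^ p) * (3 * (10 * δ) ^ d)) J ∧
      ∀ l : ℕ, (volume {x | (2 : ℝ) ^ l ≤
        ct (fun i : I => cyl 1 (3 * δ) (pos (z i)) (dir (z i))) x}).toReal ≤
        Lam * (I.card * (3 * (10 * δ) ^ d)) * ((2 : ℝ) ^ l) ^ (-(p / (p - 1))) := by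
  set V : ℝ := 3 * (10 * δ) ^ d with hV
  have hV0 : 0 < V := by positivity
  have : Nonempty I := ⟨⟨hI.choose, hI.choose_spec⟩⟩
  set T : I → Set (E (d + 1)) := fun i => cyl 1 (3 * δ) (pos (z i)) (dir (z i)) with hT
  have hcard : (Fintype.card I : ℝ) = I.card := by rw [Fintype.card_coe]
  have hIM : (I.card : ℝ) ≤ M := by
    have := Finset.card_le_univ I
    rw [Fintype.card_fin] at this
    exact_mod_cast this
  have hTV : ∀ i, volume (T i) ≤ ENNReal.ofReal V := by
    intro i
    refine (vol_cyl_le zero_le_one (by positivity) (hdir _)).trans (ENNReal.ofReal_le_ofReal ?_)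
    rw [hV]
    have h1 : (2 * (3 * δ)) ^ d ≤ (10 * δ) ^ d :=
      pow_le_pow_left₀ (by positivity) (by linarith) d
    have h2 : 0 < (10 * δ) ^ d := by positivity
    linarith
  obtain ⟨Lam, h0, h1, h2⟩ := levels volume T (fun i => cyl_meas _ _ _ _) V hV0 hTV p hp J
    (by rw [hcard]; exact hIM.trans hMJ) K c (Real.exp 2 * M * (A * 8 ^ p)) hK hc (by positivity)
    (by
      refine le_trans ?_ hKJ
      rw [hcard]
      gcongr) (by
      intro s w j hj hs _ E' hE'
      have hE2 : E' = tst pos dir δ K (fun l => z (w l)) := hE'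
      set G := dirs pos dir δ K s (fun l => z (w l)) j with hG
      have hN : (Finset.univ.filter fun i => ENNReal.ofReal ((1 / 2) ^ (j + 2) * V) ≤
          volume (T i ∩ E')).card ≤ (Finset.univ.filter fun i => ω i ∈ G).card := by
        refine Finset.card_le_card_of_injOn (fun i : I => (i : Fin M)) ?_
          (fun x _ y _ h => Subtype.ext h)
        intro i hi
        have hi2 := (Finset.mem_filter.1 hi).2
        refine Finset.mem_filter.2 ⟨Finset.mem_univ _, ?_⟩
        have h3 := kmax_of_fat (t := (1 / 2) ^ (j + 2)) hδ hδ10 (norm_eq_of_mem_sphere (ω i))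
          (hz i i.2) (hE2 ▸ tst_meas pos dir δ K _) hi2
        show ENNReal.ofReal ((1 / 2) ^ (j + 3)) < kmax (5 * δ) ((tst pos dir δ K _).indicator 1) _
        rw [← hE2]
        refine lt_of_lt_of_le ?_ h3
        rw [ENNReal.ofReal_lt_ofReal_iff (by positivity)]
        exact pow_lt_pow_right_of_lt_one₀ (by norm_num) (by norm_num) (by omega)
      have hN' : ((Finset.univ.filter fun i => ENNReal.ofReal ((1 / 2) ^ (j + 2) * V) ≤
          volume (T i ∩ E')).card : ℝ) ≤ ((Finset.univ.filter fun i => ω i ∈ G).card : ℝ) := by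
        exact_mod_cast hN
      rcases hpass s (fun l => z (w l)) j hs hj with h | h
      · left
        exact hN'.trans_lt h
      · right
        refine (hN'.trans h).trans ?_
        have hEf : volume E' ≠ ⊤ := by
          rw [hE']
          refine ((measure_mono fun x hx => ?_).trans_lt
            ((pos_vol volume (fun l => T (w l)) V fun l => hTV _).trans_lt
              ENNReal.ofReal_lt_top)).ne
          have h4 : K / 2 ≤ ct (fun l => T (w l)) x := hx
          have h5 : 0 < ct (fun l => T (w l)) x := by linarith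
          exact h5
        have h5 := hweak E' (hE2 ▸ tst_meas pos dir δ K _) hEf ((1 / 2) ^ (j + 3)) (by positivity)
        rw [hE2] at h5
        have h6 : (P G).toReal ≤ A * ((1 / 2) ^ (j + 3)) ^ (-p) * (volume E').toReal := by
          have h7 := ENNReal.toReal_mono (ENNReal.mul_ne_top ENNReal.ofReal_ne_top (hE2 ▸ hEf)) h5
          rw [ENNReal.toReal_mul, ENNReal.toReal_ofReal (by positivity)] at h7
          rw [hE2]
          exact h7
        have h8 : (((1 : ℝ) / 2) ^ (j + 3)) ^ (-p) = 8 ^ p * ((2 : ℝ) ^ j) ^ p := by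
          have e1 : (((1 : ℝ) / 2) ^ (j + 3))⁻¹ = 8 * 2 ^ j := by
            rw [pow_add, one_div, inv_pow, inv_pow, mul_inv, inv_inv, inv_inv]
            norm_num
            ring
          rw [Real.rpow_neg (by positivity), ← Real.inv_rpow (by positivity), e1,
            Real.mul_rpow (by norm_num) (by positivity)]
        rw [h8] at h6
        calc Real.exp 2 * (M * (P G).toReal)
            ≤ Real.exp 2 * (M * (A * (8 ^ p * ((2 : ℝ) ^ j) ^ p) * (volume E').toReal)) := by gcongr
          _ = _ := by ring)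
  rw [hcard] at h2
  exact ⟨Lam, h0, h1, h2⟩

/-- lattice vectors -/
noncomputable def lv (k : Fin n → ℤ) : E n := WithLp.toLp 2 fun i => (k i : ℝ)

/-- bounded overlap of the translates of a ball -/
theorem overlap (S : Finset (Fin n → ℤ)) (D : Set (E n)) (hD : MeasurableSet D) (R : ℕ) :
    ∑ k ∈ S, volume ({y | y + lv k ∈ D} ∩ closedBall 0 (R : ℝ)) ≤
      ((2 * R + 1) ^ n : ℕ) * volume D := by
  classical
  have h1 : ∀ k, volume ({y | y + lv k ∈ D} ∩ closedBall 0 (R : ℝ)) =
      volume (closedBall (lv k) (R : ℝ) ∩ D) := by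
    intro k
    have h2 : {y | y + lv k ∈ D} ∩ closedBall 0 (R : ℝ) =
        (fun y => y + lv k) ⁻¹' (closedBall (lv k) (R : ℝ) ∩ D) := by
      ext y
      simp only [mem_inter_iff, mem_closedBall, mem_preimage, dist_eq_norm,
        add_sub_cancel_right, sub_zero]
      exact and_comm
    rw [h2, measure_preimage_add_right]
  simp_rw [h1]
  calc ∑ k ∈ S, volume (closedBall (lv k) (R : ℝ) ∩ D)
      = ∫⁻ y in D, ∑ k ∈ S, (closedBall (lv k) (R : ℝ)).indicator 1 y := by
        rw [lintegral_finsetSum _ fun k _ => measurable_one.indicator measurableSet_closedBall]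
        refine Finset.sum_congr rfl fun k _ => ?_
        rw [lintegral_indicator_one measurableSet_closedBall,
          Measure.restrict_apply measurableSet_closedBall]
    _ ≤ ∫⁻ _y in D, (((2 * R + 1) ^ n : ℕ) : ℝ≥0∞) := by
        refine lintegral_mono fun y => ?_
        have h3 : ∑ k ∈ S, (closedBall (lv k) (R : ℝ)).indicator (1 : E n → ℝ≥0∞) y =
            ((S.filter fun k => y ∈ closedBall (lv k) (R : ℝ)).card : ℝ≥0∞) := by
          rw [Finset.card_filter]
          push_cast
          refine Finset.sum_congr rfl fun k _ => ?_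
          by_cases h : y ∈ closedBall (lv k) (R : ℝ)
          · rw [indicator_of_mem h, if_pos h, Pi.one_apply]
          · rw [indicator_of_notMem h, if_neg h]
        show ∑ k ∈ S, (closedBall (lv k) (R : ℝ)).indicator (1 : E n → ℝ≥0∞) y ≤ _
        rw [h3]
        have h4 : (S.filter fun k => y ∈ closedBall (lv k) (R : ℝ)) ⊆
            Fintype.piFinset fun i => Finset.Icc (⌈y i⌉ - (R : ℤ)) (⌈y i⌉ + R) := by
          intro k hk
          rw [Finset.mem_filter, mem_closedBall, dist_eq_norm] at hk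
          rw [Fintype.mem_piFinset]
          intro i
          have h5 : |y i - k i| ≤ R := by
            have := (PiLp.norm_apply_le (y - lv k) i).trans hk.2
            rwa [Real.norm_eq_abs] at this
          rw [abs_le] at h5
          rw [Finset.mem_Icc]
          have h6 := Int.le_ceil (y i)
          have h7 := Int.ceil_lt_add_one (y i)
          constructor
          · have h8 : ((⌈y i⌉ : ℤ) : ℝ) < ((k i + R + 1 : ℤ) : ℝ) := by push_cast; linarith
            have h9 : ⌈y i⌉ < k i + R + 1 := by exact_mod_cast h8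
            omega
          · have h8 : ((k i : ℤ) : ℝ) ≤ ((⌈y i⌉ + R : ℤ) : ℝ) := by push_cast; linarith
            exact_mod_cast h8
        have h5 := Finset.card_le_card h4
        rw [Fintype.card_piFinset] at h5
        have h6 : ∀ i : Fin n, (Finset.Icc (⌈y i⌉ - (R : ℤ)) (⌈y i⌉ + R)).card = 2 * R + 1 := by
          intro i
          rw [Int.card_Icc]
          omega
        rw [Finset.prod_congr rfl fun i _ => h6 i, Finset.prod_const, Finset.card_univ,
          Fintype.card_fin] at h5
        exact_mod_cast h5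
    _ = _ := by rw [setLIntegral_const]

end Pool.Agent.N248.KR
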