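import Mathlib
import Pool.Agent.N248.KR.Loc
set_option autoImplicit false

/-! Kakeya for random sets of directions: the global restricted weak type inequality. -/

namespace Pool.Agent.N248.KR

open MeasureTheory Set Metric
open scoped ENNReal NNReal

variable {n : ℕ}

/-- the lower constant in the volume of a tube -/
noncomputable def kap (d : ℕ) : ℝ := (2 / (d + 1)) ^ d

theorem kap_pos (d : ℕ) : 0 < kap d := by unfold kap; positivity

theorem thin_part {d : ℕ} {δ η : ℝ} (hδ : 0 < δ) (hη : 0 < η) {a e : E (d + 1)} (he : ‖e‖ = 1)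
    {D : Set (E (d + 1))} (hD : MeasurableSet D)
    (h : ENNReal.ofReal η < (volume (cyl (1 / 2) δ a e))⁻¹ *
      ∫⁻ y in cyl (1 / 2) δ a e, D.indicator 1 y) :
    ENNReal.ofReal (η * (kap d * δ ^ d)) ≤ volume (cyl (1 / 2) δ a e ∩ D) := by
  have h1 := vol_cyl_ge (d := d) hδ (a := a) he
  have h2 := vol_cyl_le (d := d) (h := 1 / 2) (r := δ) (by norm_num) hδ.le (a := a) he
  set T := cyl (1 / 2) δ a e with hT
  rw [lintegral_indicator_one hD, Measure.restrict_apply hD, inter_comm D T] at h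
  have hT0 : volume T ≠ 0 := by
    intro h0
    rw [h0, nonpos_iff_eq_zero, ENNReal.ofReal_eq_zero] at h1
    have : 0 < (2 / ((d : ℝ) + 1)) ^ d * δ ^ d := by positivity
    linarith
  have hTt : volume T ≠ ⊤ := (h2.trans_lt ENNReal.ofReal_lt_top).ne
  calc ENNReal.ofReal (η * (kap d * δ ^ d)) = ENNReal.ofReal η * ENNReal.ofReal (kap d * δ ^ d) :=
        ENNReal.ofReal_mul hη.le
    _ ≤ ((volume T)⁻¹ * volume (T ∩ D)) * volume T := by gcongr; exact h1
    _ = volume (T ∩ D) := by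
        rw [mul_comm, ← mul_assoc, ENNReal.mul_inv_cancel hT0 hTt, one_mul]

theorem norm_cell (x : E n) : ‖x - lv (fun j => ⌊x j⌋)‖ ≤ n := by
  have hpt : ∀ i, |(x - lv (fun j => ⌊x j⌋)) i| ≤ 1 := by
    intro i
    show |x i - (⌊x i⌋ : ℝ)| ≤ 1
    have h1 := Int.floor_le (x i)
    have h2 := Int.lt_floor_add_one (x i)
    rw [abs_le]
    constructor <;> linarith
  rw [EuclideanSpace.norm_eq]
  have h4 : ∑ i : Fin n, ‖(x - lv (fun j => ⌊x j⌋)) i‖ ^ 2 ≤ (n : ℝ) ^ 2 := by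
    calc ∑ i : Fin n, ‖(x - lv (fun j => ⌊x j⌋)) i‖ ^ 2
        ≤ ∑ _i : Fin n, (1 : ℝ) ^ 2 := Finset.sum_le_sum fun i _ => by
          rw [Real.norm_eq_abs]
          exact pow_le_pow_left₀ (abs_nonneg _) (hpt i) 2
      _ = n := by simp
      _ ≤ (n : ℝ) ^ 2 := by
          rcases Nat.eq_zero_or_pos n with h | h
          · simp [h]
          · have : (1 : ℝ) ≤ n := by exact_mod_cast h
            nlinarith
  exact (Real.sqrt_le_sqrt h4).trans (by rw [Real.sqrt_sq (by positivity)])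

theorem cyl_sub_ball {δ : ℝ} {a e y : E n} (he : ‖e‖ = 1) (hy : y ∈ cyl (1 / 2) δ a e) :
    ‖y - a‖ ≤ 1 / 2 + δ := by
  obtain ⟨h1, h2⟩ := hy
  have h3 : y - a = (inner ℝ (y - a) e) • e + ((y - a) - (inner ℝ (y - a) e) • e) := by abel
  rw [h3]
  refine (norm_add_le _ _).trans (add_le_add ?_ h2)
  rw [norm_smul, he, mul_one, Real.norm_eq_abs]
  exact h1

theorem cyl_translate {h r : ℝ} {a e v : E n} (D : Set (E n)) :
    volume (cyl h r (a - v) e ∩ {y | y + v ∈ D}) = volume (cyl h r a e ∩ D) := by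
  have h2 : cyl h r (a - v) e ∩ {y | y + v ∈ D} = (fun y => y + v) ⁻¹' (cyl h r a e ∩ D) := by
    ext y
    simp only [mem_inter_iff, mem_preimage, cyl, mem_setOf_eq]
    have : y - (a - v) = y + v - a := by abel
    rw [this]
  rw [h2, measure_preimage_add_right]

/-- the constant of the global inequality -/
noncomputable def CC (d : ℕ) (p : ℝ) : ℝ :=
  2 ^ p * (kap d) ^ (-p) * (3 * 10 ^ d) ^ (p - 1) * ((2 * (d + 4) + 1) ^ (d + 1) : ℕ)

theorem CC_pos (d : ℕ) (p : ℝ) : 0 < CC d p := by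
  have := kap_pos d
  unfold CC
  positivity

open scoped Classical in
/-- **The restricted weak type inequality for a set of directions which passes the tests.** -/
theorem global_rw {d M : ℕ} (P : Measure (Dir (d + 1))) [IsProbabilityMeasure P]
    (N1 N2 : Finset (E (d + 1))) (δ K c A p : ℝ) (J : ℕ) (hδ : 0 < δ)
    (hδ10 : δ ≤ 1 / 10) (hp : 2 ≤ p) (hA : 0 ≤ A) (hc : 0 ≤ c) (hK : 1 ≤ K)
    (hN1 : ∀ x : E (d + 1), ‖x‖ ≤ (d : ℝ) + 1 → ∃ y ∈ N1, ‖x - y‖ ≤ δ)
    (hN2 : ∀ x : E (d + 1), ‖x‖ = 1 → ∃ y ∈ N2, ‖x - y‖ ≤ δ) (hN2s : ∀ y ∈ N2, ‖y‖ = 1)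
    (hMJ : (M : ℝ) ≤ 2 ^ J) (hKJ : 12 * Real.exp (-(K / 12)) * M * 2 ^ J ≤ 1)
    (hweak : WeakAt P p A (5 * δ)) (ω : Fin M → Dir (d + 1))
    (hpass : Pass P (fun z : N1 × N2 => (z.1 : E (d + 1))) (fun z => (z.2 : E (d + 1))) δ K c J ω)
    (D : Set (E (d + 1))) (hD : MeasurableSet D) (hDf : volume D ≠ ⊤) (η : ℝ) (hη : 0 < η) :
    ((Finset.univ.filter fun i => ENNReal.ofReal η < kmax δ (D.indicator 1) (ω i)).card : ℝ) *
      (η ^ p * δ ^ d) ≤ CC d p * (J + 1) ^ p *
        RR p c K (Real.exp 2 * M * (A * 8 ^ p) * (3 * (10 * δ) ^ d)) J * (volume D).toReal := by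
  set R : ℝ := RR p c K (Real.exp 2 * M * (A * 8 ^ p) * (3 * (10 * δ) ^ d)) J with hR
  have hR0 : 0 ≤ R := by rw [hR]; unfold RR; positivity
  set I := Finset.univ.filter fun i => ENNReal.ofReal η < kmax δ (D.indicator 1) (ω i) with hI
  have hκ := kap_pos d
  set x : ℝ := η * (kap d * δ ^ d) with hx
  have hx0 : 0 < x := by positivity
  have hω : ∀ i, ‖(ω i : E (d + 1))‖ = 1 := fun i => norm_eq_of_mem_sphere (ω i)
  have hex : ∀ i, ∃ a : E (d + 1), i ∈ I →
      ENNReal.ofReal x ≤ volume (cyl (1 / 2) δ a (ω i) ∩ D) := by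
    intro i
    by_cases hi : i ∈ I
    · have h1 := (Finset.mem_filter.1 hi).2
      unfold kmax at h1
      rw [lt_iSup_iff] at h1
      obtain ⟨a, ha⟩ := h1
      exact ⟨a, fun _ => thin_part hδ hη (hω i) hD ha⟩
    · exact ⟨0, fun h => absurd h hi⟩
  choose a ha using hex
  set k : Fin M → Fin (d + 1) → ℤ := fun i j => ⌊a i j⌋ with hk
  have hcell : ∀ i, ‖a i - lv (k i)‖ ≤ (d : ℝ) + 1 := by
    intro i
    have := norm_cell (a i)
    push_cast at this
    exact this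
  have hz : ∀ i, ∃ z : N1 × N2, ‖(a i - lv (k i)) - (z.1 : E (d + 1))‖ ≤ δ ∧
      ‖(ω i : E (d + 1)) - (z.2 : E (d + 1))‖ ≤ δ := by
    intro i
    obtain ⟨y1, hy1, h1⟩ := hN1 _ (hcell i)
    obtain ⟨y2, hy2, h2⟩ := hN2 _ (hω i)
    exact ⟨(⟨y1, hy1⟩, ⟨y2, hy2⟩), h1, h2⟩
  choose z hz1 hz2 using hz
  set V : ℝ := 3 * (10 * δ) ^ d with hV
  have hV0 : 0 < V := by positivity
  set Dk : (Fin (d + 1) → ℤ) → Set (E (d + 1)) := fun k0 =>
    {y | y + lv k0 ∈ D} ∩ closedBall 0 ((d + 4 : ℕ) : ℝ) with hDk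
  have hDkm : ∀ k0, MeasurableSet (Dk k0) := fun k0 =>
    (hD.preimage (measurable_add_const (lv k0))).inter measurableSet_closedBall
  have hDkf : ∀ k0, volume (Dk k0) ≠ ⊤ := fun k0 =>
    ((measure_mono inter_subset_right).trans_lt measure_closedBall_lt_top).ne
  -- one cell
  have hone : ∀ k0 ∈ I.image k, ((I.filter fun i => k i = k0).card : ℝ) * x ^ p ≤
      (2 * (J + 1)) ^ p * V ^ (p - 1) * R * (volume (Dk k0)).toReal := by
    intro k0 hk0
    set I0 := I.filter fun i => k i = k0 with hI0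
    have hI0ne : I0.Nonempty := by
      obtain ⟨i, hi, rfl⟩ := Finset.mem_image.1 hk0
      exact ⟨i, Finset.mem_filter.2 ⟨hi, rfl⟩⟩
    have hdir : ∀ z : N1 × N2, ‖(z.2 : E (d + 1))‖ = 1 := fun z => hN2s _ z.2.2
    obtain ⟨Lam, hL0, hL1, hL2⟩ := local_levels P (fun z : N1 × N2 => (z.1 : E (d + 1)))
      (fun z => (z.2 : E (d + 1))) hdir δ K c A p J hδ hδ10 hp hA hc hK hMJ hKJ hweak ω hpass I0
      hI0ne z (fun i _ => hz2 i)
    have hcard : (Fintype.card I0 : ℝ) = I0.card := by rw [Fintype.card_coe]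
    have hI0M : (I0.card : ℝ) ≤ M := by
      have := Finset.card_le_univ I0
      rw [Fintype.card_fin] at this
      exact_mod_cast this
    have hm0 : (0 : ℝ) < I0.card := by exact_mod_cast hI0ne.card_pos
    have h1 := rw_of_levels volume
      (fun i : I0 => cyl 1 (3 * δ) ((z i).1 : E (d + 1)) ((z i).2 : E (d + 1)))
      (fun i => cyl_meas _ _ _ _) (Dk k0) (hDkm k0) (hDkf k0) p (by linarith) J
      (by rw [hcard]; exact hI0M.trans hMJ) (Lam * (I0.card * V)) (by positivity)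
      (by
        intro l
        refine ((measure_mono fun y hy => ?_).trans_lt ((pos_vol volume
          (fun i : I0 => cyl 1 (3 * δ) ((z i).1 : E (d + 1)) ((z i).2 : E (d + 1)))
          (2 * 1 * (2 * (3 * δ)) ^ d)
          fun i => vol_cyl_le zero_le_one (by positivity) (hdir _)).trans_lt
          ENNReal.ofReal_lt_top)).ne
        have h0 : (0 : ℝ) < 2 ^ l := by positivity
        exact h0.trans_le hy) hL2 x hx0.le (by
        intro i
        have hi2 := Finset.mem_filter.1 i.2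
        have hki : k i = k0 := hi2.2
        refine (ha i hi2.1).trans ?_
        rw [← cyl_translate (v := lv k0) D]
        refine measure_mono fun y hy => ⟨?_, hy.2, ?_⟩
        · refine thin_fat (hdir _) (by linarith) ?_ (hz2 i) hy.1
          rw [← hki]
          exact hz1 i
        · rw [mem_closedBall, dist_zero_right]
          have h3 := cyl_sub_ball (hω i) hy.1
          have h4 : ‖a i - lv k0‖ ≤ (d : ℝ) + 1 := by rw [← hki]; exact hcell i
          calc ‖y‖ = ‖(y - (a i - lv k0)) + (a i - lv k0)‖ := by congr 1; abel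
            _ ≤ ‖y - (a i - lv k0)‖ + ‖a i - lv k0‖ := norm_add_le _ _
            _ ≤ ((d + 4 : ℕ) : ℝ) := by push_cast; linarith)
    rw [hcard] at h1
    have h2 : (Lam * ((I0.card : ℝ) * V)) ^ (p - 1) =
        Lam ^ (p - 1) * (I0.card : ℝ) ^ (p - 1) * V ^ (p - 1) := by
      rw [Real.mul_rpow hL0.le (by positivity), Real.mul_rpow (by positivity) hV0.le]
      ring
    have h3 : ((I0.card : ℝ) * x) ^ p = (I0.card : ℝ) * x ^ p * (I0.card : ℝ) ^ (p - 1) := by
      rw [Real.mul_rpow (by positivity) hx0.le]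
      have : (I0.card : ℝ) ^ p = (I0.card : ℝ) * (I0.card : ℝ) ^ (p - 1) := by
        rw [show p = 1 + (p - 1) by ring, Real.rpow_add hm0, Real.rpow_one]
        ring_nf
      rw [this]; ring
    rw [h2, h3] at h1
    have h4 : 0 < (I0.card : ℝ) ^ (p - 1) := by positivity
    have h5 : (I0.card : ℝ) * x ^ p * (I0.card : ℝ) ^ (p - 1) ≤
        ((2 * (J + 1)) ^ p * V ^ (p - 1) * R * (volume (Dk k0)).toReal) *
          (I0.card : ℝ) ^ (p - 1) := by
      refine h1.trans ?_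
      calc (2 * ((J : ℝ) + 1)) ^ p * (volume (Dk k0)).toReal *
            (Lam ^ (p - 1) * (I0.card : ℝ) ^ (p - 1) * V ^ (p - 1))
          ≤ (2 * ((J : ℝ) + 1)) ^ p * (volume (Dk k0)).toReal *
            (R * (I0.card : ℝ) ^ (p - 1) * V ^ (p - 1)) := by gcongr
        _ = _ := by ring
    exact le_of_mul_le_mul_right h5 h4
  -- all cells
  have hsum : (I.card : ℝ) * x ^ p ≤ (2 * (J + 1)) ^ p * V ^ (p - 1) * R *
      (((2 * (d + 4) + 1) ^ (d + 1) : ℕ) * (volume D).toReal) := by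
    have h1 : (I.card : ℝ) = ∑ k0 ∈ I.image k, ((I.filter fun i => k i = k0).card : ℝ) := by
      rw [← Nat.cast_sum]
      congr 1
      exact Finset.card_eq_sum_card_fiberwise fun i hi => Finset.mem_image_of_mem k hi
    rw [h1, Finset.sum_mul]
    refine (Finset.sum_le_sum hone).trans ?_
    rw [← Finset.mul_sum]
    refine mul_le_mul_of_nonneg_left ?_ (by positivity)
    rw [← ENNReal.toReal_sum fun k0 _ => hDkf k0]
    have h2 := overlap (I.image k) D hD (d + 4)
    have h3 := ENNReal.toReal_mono (ENNReal.mul_ne_top (ENNReal.natCast_ne_top _) hDf) h2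
    rw [ENNReal.toReal_mul, ENNReal.toReal_natCast] at h3
    exact h3
  -- cleaning
  set u : ℝ := δ ^ d with hu
  have hu0 : 0 < u := by positivity
  have e1 : x ^ p = η ^ p * (kap d) ^ p * (u * u ^ (p - 1)) := by
    rw [hx, Real.mul_rpow hη.le (by positivity), Real.mul_rpow hκ.le hu0.le]
    have : u ^ p = u * u ^ (p - 1) := by
      rw [show p = 1 + (p - 1) by ring, Real.rpow_add hu0, Real.rpow_one]
      ring_nf
    rw [this]; ring
  have e2 : V ^ (p - 1) = (3 * 10 ^ d) ^ (p - 1) * u ^ (p - 1) := by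
    rw [hV, mul_pow, ← mul_assoc, Real.mul_rpow (by positivity) hu0.le]
  have e3 : (2 * ((J : ℝ) + 1)) ^ p = 2 ^ p * ((J : ℝ) + 1) ^ p :=
    Real.mul_rpow (by norm_num) (by positivity)
  have hκp : 0 < (kap d) ^ p := by positivity
  have hup : 0 < u ^ (p - 1) := by positivity
  rw [e1, e2, e3] at hsum
  have h9 : ((I.card : ℝ) * (η ^ p * u)) * ((kap d) ^ p * u ^ (p - 1)) ≤
      (CC d p * (J + 1) ^ p * R * (volume D).toReal) * ((kap d) ^ p * u ^ (p - 1)) := by
    have e4 : (kap d) ^ (-p) * (kap d) ^ p = 1 := by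
      rw [← Real.rpow_add hκ]; simp
    calc ((I.card : ℝ) * (η ^ p * u)) * ((kap d) ^ p * u ^ (p - 1))
        = (I.card : ℝ) * (η ^ p * (kap d) ^ p * (u * u ^ (p - 1))) := by ring
      _ ≤ _ := hsum
      _ = (2 ^ p * ((kap d) ^ (-p) * (kap d) ^ p) * (3 * 10 ^ d) ^ (p - 1) *
          (((2 * (d + 4) + 1) ^ (d + 1) : ℕ) : ℝ)) * (J + 1) ^ p * R * (volume D).toReal *
            u ^ (p - 1) := by rw [e4]; ring
      _ = _ := by unfold CC; ring
  exact le_of_mul_le_mul_right h9 (by positivity)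

end Pool.Agent.N248.KR
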