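import Mathlib
import Pool.Agent.N248.KR.Glob
set_option autoImplicit false

/-! Kakeya for random sets of directions: from the restricted weak type inequality to the strong
type inequality, with a loss of logarithms, for a finite set of directions. -/

namespace Pool.Agent.N248.KR

open MeasureTheory Set Metric
open scoped ENNReal NNReal

variable {n : ℕ}

theorem kmax_ae {δ : ℝ} {f g : E n → ℝ≥0∞} (h : f =ᵐ[volume] g) (e : E n) :
    kmax δ f e = kmax δ g e := by
  unfold kmax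
  refine iSup_congr fun a => ?_
  congr 1
  exact lintegral_congr_ae (ae_restrict_of_ae h)

theorem kmax_smul {δ : ℝ} {f : E n → ℝ≥0∞} (hf : Measurable f) (c : ℝ≥0∞) (e : E n) :
    kmax δ (fun y => c * f y) e = c * kmax δ f e := by
  unfold kmax
  rw [ENNReal.mul_iSup]
  refine iSup_congr fun a => ?_
  rw [lintegral_const_mul _ hf]
  ring

theorem kmax_mono {δ : ℝ} {f g : E n → ℝ≥0∞} (h : ∀ y, f y ≤ g y) (e : E n) :
    kmax δ f e ≤ kmax δ g e := by
  unfold kmax
  refine iSup_mono fun a => ?_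
  gcongr with y
  exact h y

/-- volume of a tube -/
theorem vol_inv_le {d : ℕ} {δ : ℝ} (hδ : 0 < δ) {a e : E (d + 1)} (he : ‖e‖ = 1) :
    (volume (cyl (1 / 2) δ a e))⁻¹ ≤ ENNReal.ofReal ((kap d * δ ^ d)⁻¹) := by
  have h1 := vol_cyl_ge (d := d) hδ (a := a) he
  have hκ := kap_pos d
  rw [ENNReal.ofReal_inv_of_pos (by positivity)]
  exact ENNReal.inv_le_inv.2 h1

theorem vol_ne {d : ℕ} {δ : ℝ} (hδ : 0 < δ) {a e : E (d + 1)} (he : ‖e‖ = 1) :
    volume (cyl (1 / 2) δ a e) ≠ 0 ∧ volume (cyl (1 / 2) δ a e) ≠ ⊤ := by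
  have h1 := vol_cyl_ge (d := d) hδ (a := a) he
  have h2 := vol_cyl_le (d := d) (h := 1 / 2) (r := δ) (by norm_num) hδ.le (a := a) he
  have hκ := kap_pos d
  refine ⟨fun h0 => ?_, (h2.trans_lt ENNReal.ofReal_lt_top).ne⟩
  rw [h0, nonpos_iff_eq_zero, ENNReal.ofReal_eq_zero] at h1
  have : 0 < (2 / ((d : ℝ) + 1)) ^ d * δ ^ d := by positivity
  linarith

/-- `f ≤ 1 + f ^ p` -/
theorem le_one_add (x : ℝ≥0∞) {p : ℝ} (hp : 1 ≤ p) : x ≤ 1 + x ^ p := by
  rcases le_total x 1 with h | h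
  · exact h.trans le_self_add
  · calc x = x ^ (1 : ℝ) := (ENNReal.rpow_one x).symm
      _ ≤ x ^ p := ENNReal.rpow_le_rpow_of_exponent_le h hp
      _ ≤ _ := le_add_self

/-- the trivial bound -/
theorem kmax_triv {d : ℕ} {δ : ℝ} (hδ : 0 < δ) {e : E (d + 1)} (he : ‖e‖ = 1)
    {f : E (d + 1) → ℝ≥0∞} {p : ℝ} (hp : 1 ≤ p) (hf1 : ∫⁻ y, f y ^ p ≤ 1) :
    kmax δ f e ≤ ENNReal.ofReal (1 + (kap d * δ ^ d)⁻¹) := by
  have hκ := kap_pos d
  unfold kmax
  refine iSup_le fun a => ?_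
  obtain ⟨h0, ht⟩ := vol_ne (d := d) hδ (a := a) he
  rw [ENNReal.ofReal_add (by norm_num) (by positivity), ENNReal.ofReal_one]
  calc (volume (cyl (1 / 2) δ a e))⁻¹ * ∫⁻ y in cyl (1 / 2) δ a e, f y
      ≤ (volume (cyl (1 / 2) δ a e))⁻¹ * ∫⁻ y in cyl (1 / 2) δ a e, (1 + f y ^ p) := by
        gcongr with y
        exact le_one_add _ hp
    _ = (volume (cyl (1 / 2) δ a e))⁻¹ * (volume (cyl (1 / 2) δ a e) +
        ∫⁻ y in cyl (1 / 2) δ a e, f y ^ p) := by
        rw [lintegral_add_left measurable_const, setLIntegral_one]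
    _ ≤ (volume (cyl (1 / 2) δ a e))⁻¹ * (volume (cyl (1 / 2) δ a e) + 1) := by
        gcongr
        exact (setLIntegral_le_lintegral _ _).trans hf1
    _ = 1 + (volume (cyl (1 / 2) δ a e))⁻¹ := by
        rw [mul_add, ENNReal.inv_mul_cancel h0 ht, mul_one]
    _ ≤ _ := by gcongr; exact vol_inv_le hδ he

theorem dy {x : ℝ≥0∞} {J : ℕ} (h1 : 1 < x) (h2 : x ≤ 2 ^ J) :
    ∃ k < J, (2 : ℝ≥0∞) ^ k < x ∧ x ≤ 2 ^ (k + 1) := by
  have hex : ∃ k, x ≤ (2 : ℝ≥0∞) ^ k := ⟨J, h2⟩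
  classical
  set k0 := Nat.find hex with hk0
  have hk1 : x ≤ (2 : ℝ≥0∞) ^ k0 := Nat.find_spec hex
  have hk2 : k0 ≤ J := Nat.find_min' hex h2
  have hk3 : k0 ≠ 0 := by
    intro h0
    rw [h0, pow_zero] at hk1
    exact absurd h1 (not_lt.2 hk1)
  obtain ⟨k, hk⟩ := Nat.exists_eq_succ_of_ne_zero hk3
  have hk4 : (2 : ℝ≥0∞) ^ k < x := by
    by_contra hcon
    exact Nat.find_min hex (by omega : k < k0) (not_lt.1 hcon)
  rw [hk] at hk1
  exact ⟨k, by omega, hk4, hk1⟩

/-- pointwise bound by dyadic levels -/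
theorem pw_levels (x : ℝ≥0∞) {p : ℝ} (hp : 2 ≤ p) (J : ℕ) :
    x ≤ 1 + ∑ k ∈ Finset.range J, (if (2 : ℝ≥0∞) ^ k < x ∧ x ≤ 2 ^ (k + 1) then
      (2 : ℝ≥0∞) ^ (k + 1) else 0) + (2 ^ J)⁻¹ * x ^ p := by
  rcases le_or_gt x 1 with h1 | h1
  · exact h1.trans (le_self_add.trans le_self_add)
  rcases lt_or_ge ((2 : ℝ≥0∞) ^ J) x with h2 | h2
  · refine le_trans ?_ le_add_self
    have hJ0 : (2 : ℝ≥0∞) ^ J ≠ 0 := by positivity
    have hJt : (2 : ℝ≥0∞) ^ J ≠ ⊤ := ENNReal.pow_ne_top (by norm_num)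
    calc x = (2 ^ J)⁻¹ * (2 ^ J * x) := by
          rw [← mul_assoc, ENNReal.inv_mul_cancel hJ0 hJt, one_mul]
      _ ≤ (2 ^ J)⁻¹ * (x * x) := by gcongr
      _ = (2 ^ J)⁻¹ * x ^ (2 : ℝ) := by
          congr 1
          rw [show (2 : ℝ) = ((2 : ℕ) : ℝ) by norm_num, ENNReal.rpow_natCast, sq]
      _ ≤ _ := by
          gcongr
          exact h1.le
  · obtain ⟨k, hkJ, hk4, hk1⟩ := dy h1 h2
    refine le_trans ?_ (le_add_right le_add_self)
    refine le_trans ?_ (Finset.single_le_sum (f := fun k => (if (2 : ℝ≥0∞) ^ k < x ∧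
      x ≤ 2 ^ (k + 1) then (2 : ℝ≥0∞) ^ (k + 1) else 0)) (fun _ _ => zero_le)
        (Finset.mem_range.2 hkJ))
    simp only [hk4, hk1, and_self, if_true]

/-- a level of `f` -/
def lev (f : E n → ℝ≥0∞) (k : ℕ) : Set (E n) := {y | (2 : ℝ≥0∞) ^ k < f y ∧ f y ≤ 2 ^ (k + 1)}

theorem lev_meas {f : E n → ℝ≥0∞} (hf : Measurable f) (k : ℕ) : MeasurableSet (lev f k) :=
  (measurableSet_lt measurable_const hf).inter (measurableSet_le hf measurable_const)

/-- the maximal function is bounded by those of the levels -/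
theorem kmax_levels {d : ℕ} {δ : ℝ} (hδ : 0 < δ) {e : E (d + 1)} (he : ‖e‖ = 1)
    {f : E (d + 1) → ℝ≥0∞} (hf : Measurable f) {p : ℝ} (hp : 2 ≤ p) (hf1 : ∫⁻ y, f y ^ p ≤ 1)
    (J : ℕ) (hJ : 1 + (kap d * δ ^ d)⁻¹ ≤ 2 ^ J) :
    kmax δ f e ≤ 2 + ∑ k ∈ Finset.range J, 2 ^ (k + 1) * kmax δ ((lev f k).indicator 1) e := by
  have hκ := kap_pos d
  conv_lhs => unfold kmax
  refine iSup_le fun a => ?_
  obtain ⟨h0, ht⟩ := vol_ne (d := d) hδ (a := a) he
  set T := cyl (1 / 2) δ a e with hT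
  have hJ2 : (volume T)⁻¹ * ((2 : ℝ≥0∞) ^ J)⁻¹ ≤ 1 := by
    have h1 : (volume T)⁻¹ ≤ (2 : ℝ≥0∞) ^ J := by
      refine (vol_inv_le hδ he).trans ?_
      have h2 : ENNReal.ofReal ((kap d * δ ^ d)⁻¹) ≤ ENNReal.ofReal (2 ^ J) :=
        ENNReal.ofReal_le_ofReal (by linarith)
      rwa [ENNReal.ofReal_pow (by norm_num), ENNReal.ofReal_ofNat] at h2
    calc (volume T)⁻¹ * ((2 : ℝ≥0∞) ^ J)⁻¹ ≤ (2 : ℝ≥0∞) ^ J * ((2 : ℝ≥0∞) ^ J)⁻¹ := by gcongr
      _ ≤ 1 := ENNReal.mul_inv_le_one _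
  have hpt : ∀ y, f y ≤ 1 + ∑ k ∈ Finset.range J, (2 : ℝ≥0∞) ^ (k + 1) * (lev f k).indicator 1 y +
      (2 ^ J)⁻¹ * f y ^ p := by
    intro y
    refine (pw_levels (f y) hp J).trans (le_of_eq ?_)
    congr 2
    refine Finset.sum_congr rfl fun k _ => ?_
    by_cases h : 2 ^ k < f y ∧ f y ≤ 2 ^ (k + 1)
    · have h' : y ∈ lev f k := h
      rw [indicator_of_mem h', Pi.one_apply, mul_one, if_pos h]
    · have h' : y ∉ lev f k := h
      rw [indicator_of_notMem h', mul_zero, if_neg h]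
  have hms : ∀ k ∈ Finset.range J, Measurable fun y =>
      (2 : ℝ≥0∞) ^ (k + 1) * (lev f k).indicator (1 : E (d + 1) → ℝ≥0∞) y := fun k _ =>
    (measurable_one.indicator (lev_meas hf k)).const_mul _
  calc (volume T)⁻¹ * ∫⁻ y in T, f y
      ≤ (volume T)⁻¹ * ∫⁻ y in T, (1 + ∑ k ∈ Finset.range J,
        (2 : ℝ≥0∞) ^ (k + 1) * (lev f k).indicator 1 y + (2 ^ J)⁻¹ * f y ^ p) := by
        gcongr with y
        exact hpt y
    _ = (volume T)⁻¹ * (volume T + (∑ k ∈ Finset.range J,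
        2 ^ (k + 1) * (∫⁻ y in T, (lev f k).indicator 1 y)) + (2 ^ J)⁻¹ * ∫⁻ y in T, f y ^ p) := by
        congr 1
        have hm2 : Measurable fun y => 1 + ∑ k ∈ Finset.range J,
            (2 : ℝ≥0∞) ^ (k + 1) * (lev f k).indicator (1 : E (d + 1) → ℝ≥0∞) y :=
          measurable_const.add (Finset.measurable_fun_sum _ hms)
        rw [lintegral_add_left hm2, lintegral_add_left measurable_const, setLIntegral_one,
          lintegral_finsetSum _ hms, lintegral_const_mul _ (hf.pow_const p)]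
        congr 2
        exact Finset.sum_congr rfl fun k _ =>
          lintegral_const_mul _ (measurable_one.indicator (lev_meas hf k))
    _ ≤ 1 + ∑ k ∈ Finset.range J, 2 ^ (k + 1) * ((volume T)⁻¹ *
        ∫⁻ y in T, (lev f k).indicator 1 y) + 1 := by
        rw [mul_add, mul_add, ENNReal.inv_mul_cancel h0 ht, Finset.mul_sum]
        gcongr 1 + ?_ + ?_
        · exact le_of_eq (Finset.sum_congr rfl fun k _ => by ring)
        · rw [← mul_assoc]
          calc (volume T)⁻¹ * ((2 : ℝ≥0∞) ^ J)⁻¹ * ∫⁻ y in T, f y ^ p ≤ 1 * 1 := by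
                gcongr
                exact (setLIntegral_le_lintegral _ _).trans hf1
            _ = 1 := one_mul 1
    _ = 2 + ∑ k ∈ Finset.range J, 2 ^ (k + 1) * ((volume T)⁻¹ *
        ∫⁻ y in T, (lev f k).indicator 1 y) := by
        have h2 : (2 : ℝ≥0∞) = 1 + 1 := by norm_num
        rw [add_right_comm, ← h2]
    _ ≤ _ := by
        gcongr with k hk
        exact le_iSup (fun a => (volume (cyl (1 / 2) δ a e))⁻¹ *
          ∫⁻ y in cyl (1 / 2) δ a e, (lev f k).indicator 1 y) a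

/-- one level has finite measure -/
theorem lev_vol {f : E n → ℝ≥0∞} (hf : Measurable f) {p : ℝ} (hp : 0 ≤ p)
    (hf1 : ∫⁻ y, f y ^ p ≤ 1) (k : ℕ) :
    volume (lev f k) ≠ ⊤ ∧ ((2 : ℝ) ^ k) ^ p * (volume (lev f k)).toReal ≤ 1 := by
  have h1 : ENNReal.ofReal (((2 : ℝ) ^ k) ^ p) * volume (lev f k) ≤ 1 := by
    calc ENNReal.ofReal (((2 : ℝ) ^ k) ^ p) * volume (lev f k)
        = ∫⁻ _y in lev f k, ENNReal.ofReal (((2 : ℝ) ^ k) ^ p) := by rw [setLIntegral_const]
      _ ≤ ∫⁻ y in lev f k, f y ^ p := by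
          refine setLIntegral_mono (hf.pow_const p) fun y hy => ?_
          rw [← ENNReal.ofReal_rpow_of_nonneg (by positivity) hp,
            ENNReal.ofReal_pow (by norm_num), ENNReal.ofReal_ofNat]
          exact ENNReal.rpow_le_rpow hy.1.le hp
      _ ≤ 1 := (setLIntegral_le_lintegral _ _).trans hf1
  have h2 : 0 < ((2 : ℝ) ^ k) ^ p := by positivity
  have h3 : volume (lev f k) ≠ ⊤ := by
    intro h
    rw [h, ENNReal.mul_top (by rw [ne_eq, ENNReal.ofReal_eq_zero, not_le]; exact h2)] at h1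
    exact absurd h1 (by simp)
  refine ⟨h3, ?_⟩
  have h4 := ENNReal.toReal_mono (by simp) h1
  rwa [ENNReal.toReal_mul, ENNReal.toReal_ofReal h2.le, ENNReal.toReal_one] at h4

open scoped Classical in
/-- the number of directions with a large maximal function -/
theorem count_level {d M : ℕ} {δ p A : ℝ} (hδ : 0 < δ) (hp : 2 ≤ p) (hA : 0 ≤ A)
    (e : Fin M → E (d + 1)) (he : ∀ i, ‖e i‖ = 1)
    (hw : ∀ D : Set (E (d + 1)), MeasurableSet D → volume D ≠ ⊤ → ∀ η : ℝ, 0 < η →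
      ((Finset.univ.filter fun i => ENNReal.ofReal η < kmax δ (D.indicator 1) (e i)).card : ℝ) *
        (η ^ p * δ ^ d) ≤ A * (volume D).toReal)
    (J : ℕ) (hJ : 1 + (kap d * δ ^ d)⁻¹ ≤ 2 ^ J) {f : E (d + 1) → ℝ≥0∞} (hf : Measurable f)
    (hf1 : ∫⁻ y, f y ^ p ≤ 1) (l : ℕ) (hl : 2 ≤ l) :
    ((Finset.univ.filter fun i => (2 : ℝ≥0∞) ^ l < kmax δ f (e i)).card : ℝ) *
      (((2 : ℝ) ^ l) ^ p * δ ^ d) ≤ A * (4 * J) ^ p * J := by
  have hκ := kap_pos d
  have hJ0 : 0 < J := by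
    rcases Nat.eq_zero_or_pos J with h | h
    · rw [h, pow_zero] at hJ
      have : 0 < (kap d * δ ^ d)⁻¹ := by positivity
      linarith
    · exact h
  have hJ0' : (0 : ℝ) < J := by exact_mod_cast hJ0
  set η : ℕ → ℝ := fun k => 2 ^ l / (2 ^ (k + 2) * J) with hη
  have hη0 : ∀ k, 0 < η k := fun k => by rw [hη]; positivity
  have hsub : (Finset.univ.filter fun i => (2 : ℝ≥0∞) ^ l < kmax δ f (e i)) ⊆
      (Finset.range J).biUnion fun k => Finset.univ.filter fun i =>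
        ENNReal.ofReal (η k) < kmax δ ((lev f k).indicator 1) (e i) := by
    intro i hi
    have h1 := (Finset.mem_filter.1 hi).2
    by_contra hcon
    rw [Finset.mem_biUnion] at hcon
    push Not at hcon
    have h2 : ∀ k ∈ Finset.range J, kmax δ ((lev f k).indicator 1) (e i) ≤ ENNReal.ofReal (η k) := by
      intro k hk
      by_contra h3
      exact hcon k hk (Finset.mem_filter.2 ⟨Finset.mem_univ _, not_le.1 h3⟩)
    have h3 := kmax_levels hδ (he i) hf hp hf1 J hJ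
    have h4 : 2 + ∑ k ∈ Finset.range J, 2 ^ (k + 1) * kmax δ ((lev f k).indicator 1) (e i) ≤
        (2 : ℝ≥0∞) ^ l := by
      calc 2 + ∑ k ∈ Finset.range J, 2 ^ (k + 1) * kmax δ ((lev f k).indicator 1) (e i)
          ≤ 2 + ∑ k ∈ Finset.range J, ENNReal.ofReal (2 ^ (k + 1)) * ENNReal.ofReal (η k) := by
            gcongr with k hk
            · rw [ENNReal.ofReal_pow (by norm_num), ENNReal.ofReal_ofNat]
            · exact h2 k hk
        _ = ENNReal.ofReal (2 + ∑ _k ∈ Finset.range J, (2 : ℝ) ^ l / (2 * (J : ℝ))) := by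
            rw [ENNReal.ofReal_add (by norm_num) (by positivity),
              ENNReal.ofReal_sum_of_nonneg fun k _ => by positivity, ENNReal.ofReal_ofNat]
            congr 1
            refine Finset.sum_congr rfl fun k _ => ?_
            rw [← ENNReal.ofReal_mul (by positivity)]
            congr 1
            rw [hη]
            field_simp
            ring
        _ = ENNReal.ofReal (2 + 2 ^ l / 2) := by
            congr 2
            rw [Finset.sum_const, Finset.card_range, nsmul_eq_mul]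
            field_simp
        _ ≤ ENNReal.ofReal (2 ^ l) := by
            refine ENNReal.ofReal_le_ofReal ?_
            have h5 : (2 : ℝ) ^ 2 ≤ 2 ^ l := pow_le_pow_right₀ (by norm_num) hl
            linarith
        _ = _ := by rw [ENNReal.ofReal_pow (by norm_num), ENNReal.ofReal_ofNat]
    exact absurd (h1.trans_le (h3.trans h4)) (lt_irrefl _)
  have hcard : ((Finset.univ.filter fun i => (2 : ℝ≥0∞) ^ l < kmax δ f (e i)).card : ℝ) ≤
      ∑ k ∈ Finset.range J, ((Finset.univ.filter fun i =>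
        ENNReal.ofReal (η k) < kmax δ ((lev f k).indicator 1) (e i)).card : ℝ) := by
    have h1 := (Finset.card_le_card hsub).trans Finset.card_biUnion_le
    exact_mod_cast h1
  calc ((Finset.univ.filter fun i => (2 : ℝ≥0∞) ^ l < kmax δ f (e i)).card : ℝ) *
      (((2 : ℝ) ^ l) ^ p * δ ^ d)
      ≤ (∑ k ∈ Finset.range J, ((Finset.univ.filter fun i =>
        ENNReal.ofReal (η k) < kmax δ ((lev f k).indicator 1) (e i)).card : ℝ)) *
          (((2 : ℝ) ^ l) ^ p * δ ^ d) := by gcongr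
    _ = ∑ k ∈ Finset.range J, ((Finset.univ.filter fun i =>
        ENNReal.ofReal (η k) < kmax δ ((lev f k).indicator 1) (e i)).card : ℝ) *
          (((2 : ℝ) ^ l) ^ p * δ ^ d) := Finset.sum_mul _ _ _
    _ ≤ ∑ _k ∈ Finset.range J, A * (4 * J) ^ p := by
        refine Finset.sum_le_sum fun k _ => ?_
        obtain ⟨h1, h2⟩ := lev_vol hf (by linarith : (0 : ℝ) ≤ p) hf1 k
        have h3 := hw (lev f k) (lev_meas hf k) h1 (η k) (hη0 k)
        have h4 : ((2 : ℝ) ^ l) ^ p = (η k) ^ p * (((2 : ℝ) ^ k) ^ p * (4 * J) ^ p) := by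
          rw [← Real.mul_rpow (by positivity) (by positivity),
            ← Real.mul_rpow (hη0 k).le (by positivity)]
          congr 1
          rw [hη]
          field_simp
          ring
        calc ((Finset.univ.filter fun i =>
            ENNReal.ofReal (η k) < kmax δ ((lev f k).indicator 1) (e i)).card : ℝ) *
              (((2 : ℝ) ^ l) ^ p * δ ^ d)
            = (((Finset.univ.filter fun i =>
            ENNReal.ofReal (η k) < kmax δ ((lev f k).indicator 1) (e i)).card : ℝ) *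
              ((η k) ^ p * δ ^ d)) * (((2 : ℝ) ^ k) ^ p * (4 * J) ^ p) := by rw [h4]; ring
          _ ≤ (A * (volume (lev f k)).toReal) * (((2 : ℝ) ^ k) ^ p * (4 * J) ^ p) := by gcongr
          _ = A * (4 * J) ^ p * (((2 : ℝ) ^ k) ^ p * (volume (lev f k)).toReal) := by ring
          _ ≤ A * (4 * J) ^ p * 1 := by gcongr
          _ = _ := mul_one _
    _ = _ := by rw [Finset.sum_const, Finset.card_range, nsmul_eq_mul]; ring

open scoped Classical in
theorem strong_norm {d M : ℕ} {δ p A : ℝ} (hδ : 0 < δ) (hp : 2 ≤ p) (hA : 0 ≤ A)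
    (e : Fin M → E (d + 1)) (he : ∀ i, ‖e i‖ = 1)
    (hw : ∀ D : Set (E (d + 1)), MeasurableSet D → volume D ≠ ⊤ → ∀ η : ℝ, 0 < η →
      ((Finset.univ.filter fun i => ENNReal.ofReal η < kmax δ (D.indicator 1) (e i)).card : ℝ) *
        (η ^ p * δ ^ d) ≤ A * (volume D).toReal)
    (hM : M * δ ^ d ≤ 1)
    (J : ℕ) (hJ : 1 + (kap d * δ ^ d)⁻¹ ≤ 2 ^ J) {f : E (d + 1) → ℝ≥0∞} (hf : Measurable f)
    (hf1 : ∫⁻ y, f y ^ p ≤ 1) :
    ENNReal.ofReal (δ ^ d) * ∑ i, kmax δ f (e i) ^ p ≤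
      ENNReal.ofReal (4 ^ p + J * (2 ^ p * (A * (4 * J) ^ p * J))) := by
  have hp0 : 0 ≤ p := by linarith
  have hpt : ∀ i, kmax δ f (e i) ^ p ≤ ENNReal.ofReal (4 ^ p) + ∑ l ∈ Finset.Ico 2 J,
      (if (2 : ℝ≥0∞) ^ l < kmax δ f (e i) then ENNReal.ofReal ((2 ^ (l + 1)) ^ p) else 0) := by
    intro i
    rcases le_or_gt (kmax δ f (e i)) 4 with h | h
    · refine le_trans ?_ le_self_add
      rw [← ENNReal.ofReal_rpow_of_nonneg (by norm_num) hp0, ENNReal.ofReal_ofNat]
      exact ENNReal.rpow_le_rpow h hp0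
    · have h2 : kmax δ f (e i) ≤ 2 ^ J := by
        refine (kmax_triv hδ (he i) (by linarith : (1 : ℝ) ≤ p) hf1).trans ?_
        have h3 := ENNReal.ofReal_le_ofReal hJ
        rwa [ENNReal.ofReal_pow (by norm_num), ENNReal.ofReal_ofNat] at h3
      obtain ⟨l, hlJ, hl1, hl2⟩ := dy (lt_trans (by norm_num) h) h2
      have hl : 2 ≤ l := by
        by_contra hcon
        have h5 : (2 : ℝ≥0∞) ^ (l + 1) ≤ 2 ^ 2 := pow_le_pow_right₀ (by norm_num) (by omega)
        have h6 : (4 : ℝ≥0∞) < 2 ^ 2 := h.trans_le (hl2.trans h5)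
        norm_num at h6
      refine le_trans ?_ le_add_self
      refine le_trans ?_ (Finset.single_le_sum (f := fun l =>
        (if (2 : ℝ≥0∞) ^ l < kmax δ f (e i) then ENNReal.ofReal ((2 ^ (l + 1)) ^ p) else 0))
        (fun _ _ => zero_le) (Finset.mem_Ico.2 ⟨hl, hlJ⟩))
      simp only [hl1, if_true]
      rw [← ENNReal.ofReal_rpow_of_nonneg (by positivity) hp0, ENNReal.ofReal_pow (by norm_num),
        ENNReal.ofReal_ofNat]
      exact ENNReal.rpow_le_rpow hl2 hp0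
  calc ENNReal.ofReal (δ ^ d) * ∑ i, kmax δ f (e i) ^ p
      ≤ ENNReal.ofReal (δ ^ d) * ∑ i, (ENNReal.ofReal (4 ^ p) + ∑ l ∈ Finset.Ico 2 J,
      (if (2 : ℝ≥0∞) ^ l < kmax δ f (e i) then ENNReal.ofReal ((2 ^ (l + 1)) ^ p) else 0)) := by
        gcongr with i
        exact hpt i
    _ = ENNReal.ofReal (δ ^ d) * (M * ENNReal.ofReal (4 ^ p) + ∑ l ∈ Finset.Ico 2 J,
        (Finset.univ.filter fun i => (2 : ℝ≥0∞) ^ l < kmax δ f (e i)).card *
          ENNReal.ofReal ((2 ^ (l + 1)) ^ p)) := by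
        rw [Finset.sum_add_distrib, Finset.sum_const, Finset.card_univ, Fintype.card_fin,
          nsmul_eq_mul, Finset.sum_comm]
        congr 2
        refine Finset.sum_congr rfl fun l _ => ?_
        rw [← Finset.sum_filter, Finset.sum_const, nsmul_eq_mul]
    _ = ENNReal.ofReal (M * δ ^ d * 4 ^ p + ∑ l ∈ Finset.Ico 2 J, 2 ^ p *
        (((Finset.univ.filter fun i => (2 : ℝ≥0∞) ^ l < kmax δ f (e i)).card : ℝ) *
          (((2 : ℝ) ^ l) ^ p * δ ^ d))) := by
        rw [ENNReal.ofReal_add (by positivity) (by positivity),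
          ENNReal.ofReal_sum_of_nonneg fun l _ => by positivity, mul_add, Finset.mul_sum]
        congr 1
        · rw [← ENNReal.ofReal_natCast, ← ENNReal.ofReal_mul (by positivity),
            ← ENNReal.ofReal_mul (by positivity)]
          congr 1
          ring
        · refine Finset.sum_congr rfl fun l _ => ?_
          rw [← ENNReal.ofReal_natCast, ← ENNReal.ofReal_mul (by positivity),
            ← ENNReal.ofReal_mul (by positivity), pow_succ (2 : ℝ) l,
            Real.mul_rpow (by positivity) (by norm_num)]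
          congr 1
          ring
    _ ≤ _ := by
        refine ENNReal.ofReal_le_ofReal (add_le_add ?_ ?_)
        · have h4 : (0 : ℝ) < 4 ^ p := by positivity
          nlinarith
        · calc ∑ l ∈ Finset.Ico 2 J, 2 ^ p *
              (((Finset.univ.filter fun i => (2 : ℝ≥0∞) ^ l < kmax δ f (e i)).card : ℝ) *
              (((2 : ℝ) ^ l) ^ p * δ ^ d))
              ≤ ∑ _l ∈ Finset.Ico 2 J, 2 ^ p * (A * (4 * J) ^ p * J) := by
                refine Finset.sum_le_sum fun l hl => ?_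
                refine mul_le_mul_of_nonneg_left ?_ (by positivity)
                exact count_level hδ hp hA e he hw J hJ hf hf1 l (Finset.mem_Ico.1 hl).1
            _ ≤ _ := by
                rw [Finset.sum_const, Nat.card_Ico, nsmul_eq_mul]
                gcongr
                exact_mod_cast Nat.sub_le _ _

open scoped Classical in
/-- **From the restricted weak type inequality to the strong type inequality.** -/
theorem strong {d M : ℕ} {δ p A : ℝ} (hδ : 0 < δ) (hp : 2 ≤ p) (hA : 0 ≤ A)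
    (e : Fin M → E (d + 1)) (he : ∀ i, ‖e i‖ = 1)
    (hw : ∀ D : Set (E (d + 1)), MeasurableSet D → volume D ≠ ⊤ → ∀ η : ℝ, 0 < η →
      ((Finset.univ.filter fun i => ENNReal.ofReal η < kmax δ (D.indicator 1) (e i)).card : ℝ) *
        (η ^ p * δ ^ d) ≤ A * (volume D).toReal)
    (hM : M * δ ^ d ≤ 1)
    (J : ℕ) (hJ : 1 + (kap d * δ ^ d)⁻¹ ≤ 2 ^ J) {f : E (d + 1) → ℝ≥0∞}
    (hf : AEMeasurable f volume) :
    ENNReal.ofReal (δ ^ d) * ∑ i, kmax δ f (e i) ^ p ≤
      ENNReal.ofReal (4 ^ p + J * (2 ^ p * (A * (4 * J) ^ p * J))) * ∫⁻ y, f y ^ p := by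
  have hp0 : 0 < p := by linarith
  set C : ℝ := 4 ^ p + J * (2 ^ p * (A * (4 * J) ^ p * J)) with hC
  have hC0 : 0 < C := by rw [hC]; positivity
  -- reduce to measurable functions
  set g := hf.mk f with hg
  have hgm : Measurable g := hf.measurable_mk
  have hfg : f =ᵐ[volume] g := hf.ae_eq_mk
  have e1 : ∫⁻ y, f y ^ p = ∫⁻ y, g y ^ p := by
    refine lintegral_congr_ae ?_
    filter_upwards [hfg] with y hy
    rw [hy]
  rw [e1, Finset.sum_congr rfl fun i _ => by rw [kmax_ae hfg (e i)]]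
  rcases eq_or_ne (∫⁻ y, g y ^ p) ⊤ with ht | ht
  · rw [ht, ENNReal.mul_top (by rw [ne_eq, ENNReal.ofReal_eq_zero, not_le]; exact hC0)]
    exact le_top
  set X : ℝ := (∫⁻ y, g y ^ p).toReal with hX
  have hX0 : 0 ≤ X := ENNReal.toReal_nonneg
  have hXe : ∫⁻ y, g y ^ p = ENNReal.ofReal X := (ENNReal.ofReal_toReal ht).symm
  -- with a little room
  have key : ∀ Y : ℝ, X < Y → ENNReal.ofReal (δ ^ d) * ∑ i, kmax δ g (e i) ^ p ≤
      ENNReal.ofReal (C * Y) := by
    intro Y hY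
    have hY0 : 0 < Y := hX0.trans_lt hY
    set b : ℝ := Y ^ (-(1 / p)) with hb
    have hb0 : 0 < b := by positivity
    have hbp : b ^ p = Y⁻¹ := by
      rw [hb, ← Real.rpow_mul hY0.le]
      have : -(1 / p) * p = -1 := by field_simp
      rw [this, Real.rpow_neg_one]
    have hbe : (ENNReal.ofReal b) ^ p = ENNReal.ofReal Y⁻¹ := by
      rw [ENNReal.ofReal_rpow_of_pos hb0, hbp]
    have h1 : ∫⁻ y, (ENNReal.ofReal b * g y) ^ p ≤ 1 := by
      calc ∫⁻ y, (ENNReal.ofReal b * g y) ^ p = ∫⁻ y, ENNReal.ofReal Y⁻¹ * g y ^ p := by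
            refine lintegral_congr fun y => ?_
            rw [ENNReal.mul_rpow_of_nonneg _ _ hp0.le, hbe]
        _ = ENNReal.ofReal Y⁻¹ * ENNReal.ofReal X := by
            rw [lintegral_const_mul _ (hgm.pow_const p), hXe]
        _ = ENNReal.ofReal (Y⁻¹ * X) := (ENNReal.ofReal_mul (by positivity)).symm
        _ ≤ ENNReal.ofReal 1 := by
            refine ENNReal.ofReal_le_ofReal ?_
            rw [inv_mul_le_iff₀ hY0]
            linarith
        _ = 1 := ENNReal.ofReal_one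
    have h2 := strong_norm hδ hp hA e he hw hM J hJ (f := fun y => ENNReal.ofReal b * g y)
      (hgm.const_mul _) h1
    have h3 : ∀ i, kmax δ (fun y => ENNReal.ofReal b * g y) (e i) ^ p =
        ENNReal.ofReal Y⁻¹ * kmax δ g (e i) ^ p := by
      intro i
      rw [kmax_smul hgm, ENNReal.mul_rpow_of_nonneg _ _ hp0.le, hbe]
    rw [Finset.sum_congr rfl fun i _ => h3 i, ← Finset.mul_sum] at h2
    calc ENNReal.ofReal (δ ^ d) * ∑ i, kmax δ g (e i) ^ p
        = ENNReal.ofReal Y * (ENNReal.ofReal (δ ^ d) * (ENNReal.ofReal Y⁻¹ *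
          ∑ i, kmax δ g (e i) ^ p)) := by
          have h5 : ENNReal.ofReal Y * ENNReal.ofReal Y⁻¹ = 1 := by
            rw [← ENNReal.ofReal_mul hY0.le, mul_inv_cancel₀ hY0.ne', ENNReal.ofReal_one]
          calc ENNReal.ofReal (δ ^ d) * ∑ i, kmax δ g (e i) ^ p
              = (ENNReal.ofReal Y * ENNReal.ofReal Y⁻¹) *
                (ENNReal.ofReal (δ ^ d) * ∑ i, kmax δ g (e i) ^ p) := by rw [h5, one_mul]
            _ = _ := by ring
      _ ≤ ENNReal.ofReal Y * ENNReal.ofReal C := by gcongr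
      _ = ENNReal.ofReal (C * Y) := by rw [← ENNReal.ofReal_mul hY0.le, mul_comm]
  rw [hXe, ← ENNReal.ofReal_mul hC0.le]
  refine le_of_forall_gt fun z hz => ?_
  rcases eq_or_ne z ⊤ with hzt | hzt
  · rw [hzt]
    exact (key (X + 1) (by linarith)).trans_lt ENNReal.ofReal_lt_top
  · have hz2 : C * X < z.toReal := by
      rw [← ENNReal.ofReal_toReal hzt, ENNReal.ofReal_lt_ofReal_iff_of_nonneg (by positivity)] at hz
      exact hz
    obtain ⟨w, hw1, hw2⟩ := exists_between hz2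
    have h6 : X < w / C := by rw [lt_div_iff₀ hC0]; linarith
    refine (key (w / C) h6).trans_lt ?_
    rw [mul_div_cancel₀ _ hC0.ne', ← ENNReal.ofReal_toReal hzt]
    exact (ENNReal.ofReal_lt_ofReal_iff_of_nonneg ((mul_nonneg hC0.le hX0).trans hw1.le)).2 hw2

end Pool.Agent.N248.KR
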