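import Mathlib
import Pool.Agent.N248.KR.Strong
import Pool.Agent.N248.KR.Prob
set_option autoImplicit false

/-! Kakeya for random sets of directions: the choice of the parameters. -/

namespace Pool.Agent.N248.KR

open MeasureTheory Set Metric
open scoped ENNReal NNReal

/-- the maximal inequality for the directions `ω` -/
def Good {d M : ℕ} (p C δ : ℝ) (ω : Fin M → Dir (d + 1)) : Prop :=
  ∀ f : E (d + 1) → ℝ≥0∞, AEMeasurable f volume →
    ENNReal.ofReal (δ ^ d) * ∑ i, kmax δ f (ω i) ^ p ≤ ENNReal.ofReal C * ∫⁻ y, f y ^ p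

theorem Good.mono {d M : ℕ} {p C C' δ : ℝ} {ω : Fin M → Dir (d + 1)} (h : Good p C δ ω)
    (hC : C ≤ C') : Good p C' δ ω := fun f hf =>
  (h f hf).trans (by gcongr)

open scoped Classical in
/-- the trivial restricted weak type inequality -/
theorem triv_rw {d M : ℕ} {δ p : ℝ} (hδ : 0 < δ) (hp : 1 ≤ p) (hM : M * δ ^ d ≤ 1)
    (e : Fin M → E (d + 1)) (he : ∀ i, ‖e i‖ = 1) (D : Set (E (d + 1))) (hD : MeasurableSet D)
    (hDf : volume D ≠ ⊤) (η : ℝ) (hη : 0 < η) :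
    ((Finset.univ.filter fun i => ENNReal.ofReal η < kmax δ (D.indicator 1) (e i)).card : ℝ) *
        (η ^ p * δ ^ d) ≤ (kap d * δ ^ d)⁻¹ * (volume D).toReal := by
  have hκ := kap_pos d
  set I := Finset.univ.filter fun i => ENNReal.ofReal η < kmax δ (D.indicator 1) (e i) with hI
  rcases I.eq_empty_or_nonempty with h | ⟨i, hi⟩
  · rw [h, Finset.card_empty, Nat.cast_zero, zero_mul]
    positivity
  have h1 := (Finset.mem_filter.1 hi).2
  have h2 : kmax δ (D.indicator 1) (e i) ≤ 1 := by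
    unfold kmax
    refine iSup_le fun a => ?_
    rw [lintegral_indicator_one hD, Measure.restrict_apply hD]
    exact (mul_le_mul_right (measure_mono inter_subset_right) _).trans
      (ENNReal.inv_mul_le_one _)
  have h3 : kmax δ (D.indicator 1) (e i) ≤ ENNReal.ofReal ((kap d * δ ^ d)⁻¹) * volume D := by
    unfold kmax
    refine iSup_le fun a => ?_
    rw [lintegral_indicator_one hD, Measure.restrict_apply hD]
    gcongr
    · exact vol_inv_le hδ (he i)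
    · exact inter_subset_left
  have h4 : η < 1 := by
    have := h1.trans_le h2
    rw [← ENNReal.ofReal_one] at this
    exact (ENNReal.ofReal_lt_ofReal_iff_of_nonneg hη.le).1 this
  have h5 : η ≤ (kap d * δ ^ d)⁻¹ * (volume D).toReal := by
    have := h1.le.trans h3
    rw [← ENNReal.ofReal_toReal hDf, ← ENNReal.ofReal_mul (by positivity)] at this
    exact (ENNReal.ofReal_le_ofReal_iff (by positivity)).1 this
  have h6 : (I.card : ℝ) ≤ M := by
    have := Finset.card_le_univ I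
    rw [Fintype.card_fin] at this
    exact_mod_cast this
  have h7 : η ^ p ≤ η := by
    calc η ^ p ≤ η ^ (1 : ℝ) := Real.rpow_le_rpow_of_exponent_ge hη h4.le hp
      _ = η := Real.rpow_one η
  calc (I.card : ℝ) * (η ^ p * δ ^ d) ≤ M * (η * δ ^ d) := by gcongr
    _ = (M * δ ^ d) * η := by ring
    _ ≤ 1 * η := by gcongr
    _ = η := one_mul η
    _ ≤ _ := h5

theorem good_triv {d M : ℕ} {δ p : ℝ} (hδ : 0 < δ) (hp : 2 ≤ p) (hM : M * δ ^ d ≤ 1)
    (ω : Fin M → Dir (d + 1)) (J : ℕ) (hJ : 1 + (kap d * δ ^ d)⁻¹ ≤ 2 ^ J) :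
    Good p (4 ^ p + J * (2 ^ p * ((kap d * δ ^ d)⁻¹ * (4 * J) ^ p * J))) δ ω := by
  have hκ := kap_pos d
  intro f hf
  have hω : ∀ i, ‖(ω i : E (d + 1))‖ = 1 := fun i => norm_eq_of_mem_sphere (ω i)
  exact strong hδ hp (by positivity) (fun i => (ω i : E (d + 1))) hω
    (fun D hD hDf η hη => triv_rw hδ (by linarith) hM _ hω D hD hDf η hη) hM J hJ hf

/-- the constant -/
noncomputable def CF (d : ℕ) (p c K Q : ℝ) (J J' : ℕ) : ℝ :=
  4 ^ p + J' * (2 ^ p * ((CC d p * (J + 1) ^ p * RR p c K Q J) * (4 * J') ^ p * J'))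

theorem prob_at {d M : ℕ} (P : Measure (Dir (d + 1))) [IsProbabilityMeasure P]
    (N1 N2 : Finset (E (d + 1))) (δ K c A p a : ℝ) (J J' : ℕ) (hδ : 0 < δ)
    (hδ10 : δ ≤ 1 / 10) (hp : 2 ≤ p) (hA : 0 ≤ A) (ha : 0 ≤ a) (hc : a + 1 ≤ c) (hK : 1 ≤ K)
    (hN1 : ∀ x : E (d + 1), ‖x‖ ≤ (d : ℝ) + 1 → ∃ y ∈ N1, ‖x - y‖ ≤ δ)
    (hN2 : ∀ x : E (d + 1), ‖x‖ = 1 → ∃ y ∈ N2, ‖x - y‖ ≤ δ) (hN2s : ∀ y ∈ N2, ‖y‖ = 1)
    (hcard : (N1.card : ℝ) * N2.card ≤ Real.exp a)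
    (hMJ : (M : ℝ) ≤ 2 ^ J) (hKJ : 12 * Real.exp (-(K / 12)) * M * 2 ^ J ≤ 1)
    (hweak : WeakAt P p A (5 * δ)) (hM : M * δ ^ d ≤ 1)
    (hJ' : 1 + (kap d * δ ^ d)⁻¹ ≤ 2 ^ J') :
    (Measure.pi fun _ : Fin M => P) {ω | ¬ Good p (CF d p c K
      (Real.exp 2 * M * (A * 8 ^ p) * (3 * (10 * δ) ^ d)) J J') δ ω} ≤
      ENNReal.ofReal (2 * (J + 1) * Real.exp (-(c - a))) := by
  classical
  have hcc := CC_pos d p
  refine le_trans (measure_mono ?_) (good_prob P M (Z := N1 × N2)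
    (fun s w j => dirs (fun z : N1 × N2 => (z.1 : E (d + 1))) (fun z => (z.2 : E (d + 1))) δ K s w j)
    J a c (by rw [Fintype.card_prod, Fintype.card_coe, Fintype.card_coe]; push_cast; exact hcard)
    ha hc)
  intro ω hω
  intro hpass
  apply hω
  have hc0 : 0 ≤ c := by linarith
  have hK0 : 0 ≤ K := by linarith
  have hωn : ∀ i, ‖(ω i : E (d + 1))‖ = 1 := fun i => norm_eq_of_mem_sphere (ω i)
  intro f hf
  exact strong hδ hp (by unfold RR; positivity) (fun i => (ω i : E (d + 1))) hωn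
    (fun D hD hDf η hη => global_rw P N1 N2 δ K c A p J hδ hδ10 hp hA (by linarith) hK hN1 hN2
      hN2s hMJ hKJ hweak ω hpass D hD hDf η hη) hM J' hJ' hf

/-- the size of the constant -/
theorem CF_le {d : ℕ} {p c K Q Λ : ℝ} {J J' : ℕ} (hp : 2 ≤ p) (hΛ : 1 ≤ Λ) (hJ : (J : ℝ) + 1 ≤ Λ)
    (hJ' : (J' : ℝ) ≤ Λ) (hK0 : 0 ≤ K) (hK : K ≤ Λ) (hc0 : 0 ≤ c) (hc : c ≤ Λ) (hQ : 0 ≤ Q) :
    CF d p c K Q J J' ≤ (4 ^ p + 34 * 32 ^ p * CC d p) * Λ ^ (6 * p) * (1 + Q) := by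
  have hcc := CC_pos d p
  have hΛ0 : 0 < Λ := by linarith
  have hmono : ∀ x y : ℝ, x ≤ y → Λ ^ x ≤ Λ ^ y := fun x y h =>
    Real.rpow_le_rpow_of_exponent_le hΛ h
  have h4 : (4 : ℝ) ^ (p - 1) ≤ 4 ^ p := Real.rpow_le_rpow_of_exponent_le (by norm_num) (by linarith)
  have h1 : RR p c K Q J ≤ 34 * 4 ^ p * Λ ^ (3 * p) * (1 + Q) := by
    unfold RR
    have e1 : (4 : ℝ) ^ (p - 1) ≤ 4 ^ p * Λ ^ (3 * p) := by
      calc (4 : ℝ) ^ (p - 1) ≤ 4 ^ p * 1 := by rw [mul_one]; exact h4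
        _ ≤ _ := by
          gcongr
          exact Real.one_le_rpow hΛ (by linarith)
    have e2 : (4 * ((J : ℝ) + 1) * c * K) ^ (p - 1) ≤ 4 ^ p * Λ ^ (3 * p) := by
      calc (4 * ((J : ℝ) + 1) * c * K) ^ (p - 1) ≤ (4 * Λ * Λ * Λ) ^ (p - 1) := by
            apply Real.rpow_le_rpow (by positivity) _ (by linarith)
            gcongr
        _ = 4 ^ (p - 1) * Λ ^ (3 * (p - 1)) := by
            rw [show 4 * Λ * Λ * Λ = 4 * Λ ^ (3 : ℝ) by
              rw [show (3 : ℝ) = ((3 : ℕ) : ℝ) by norm_num, Real.rpow_natCast]; ring,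
              Real.mul_rpow (by norm_num) (by positivity), ← Real.rpow_mul hΛ0.le]
        _ ≤ _ := by
            gcongr ?_ * ?_
            exact hmono _ _ (by linarith)
    have e3 : 34 * ((J : ℝ) + 1) * (2 * ((J : ℝ) + 1)) ^ (p - 1) ≤ 34 * (4 ^ p * Λ ^ (3 * p)) := by
      calc 34 * ((J : ℝ) + 1) * (2 * ((J : ℝ) + 1)) ^ (p - 1)
          ≤ 34 * Λ * (2 * Λ) ^ (p - 1) := by
            have : (2 * ((J : ℝ) + 1)) ^ (p - 1) ≤ (2 * Λ) ^ (p - 1) :=
              Real.rpow_le_rpow (by positivity) (by linarith) (by linarith)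
            gcongr
        _ = 34 * (2 ^ (p - 1) * (Λ * Λ ^ (p - 1))) := by
            rw [Real.mul_rpow (by norm_num) hΛ0.le]; ring
        _ = 34 * (2 ^ (p - 1) * Λ ^ p) := by
            congr 2
            rw [← Real.rpow_one_add' hΛ0.le (by linarith)]
            congr 1; ring
        _ ≤ _ := by
            gcongr ?_ * (?_ * ?_)
            · exact (Real.rpow_le_rpow (by norm_num) (by norm_num) (by linarith)).trans h4
            · exact hmono _ _ (by linarith)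
    have e4 : 0 ≤ 4 ^ p * Λ ^ (3 * p) := by positivity
    calc (4 : ℝ) ^ (p - 1) + (4 * (J + 1) * c * K) ^ (p - 1) +
          34 * (J + 1) * (2 * (J + 1)) ^ (p - 1) * Q
        ≤ 4 ^ p * Λ ^ (3 * p) + 4 ^ p * Λ ^ (3 * p) + 34 * (4 ^ p * Λ ^ (3 * p)) * Q := by gcongr
      _ ≤ 34 * (4 ^ p * Λ ^ (3 * p)) + 34 * (4 ^ p * Λ ^ (3 * p)) * Q := by linarith
      _ = _ := by ring
  have hRR0 : 0 ≤ RR p c K Q J := by unfold RR; positivity
  have h2 : CC d p * (J + 1) ^ p * RR p c K Q J ≤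
      34 * 4 ^ p * CC d p * Λ ^ (4 * p) * (1 + Q) := by
    calc CC d p * (J + 1) ^ p * RR p c K Q J
        ≤ CC d p * Λ ^ p * (34 * 4 ^ p * Λ ^ (3 * p) * (1 + Q)) := by
          have : ((J : ℝ) + 1) ^ p ≤ Λ ^ p := Real.rpow_le_rpow (by positivity) hJ (by linarith)
          gcongr
      _ = 34 * 4 ^ p * CC d p * (Λ ^ p * Λ ^ (3 * p)) * (1 + Q) := by ring
      _ = _ := by
          rw [← Real.rpow_add hΛ0]
          congr 3; ring
  have h3 : 1 ≤ Λ ^ (6 * p) := Real.one_le_rpow hΛ (by linarith)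
  unfold CF
  calc 4 ^ p + (J' : ℝ) * (2 ^ p * ((CC d p * (J + 1) ^ p * RR p c K Q J) * (4 * J') ^ p * J'))
      ≤ 4 ^ p * Λ ^ (6 * p) * (1 + Q) + Λ * (2 ^ p * ((34 * 4 ^ p * CC d p * Λ ^ (4 * p) * (1 + Q)) *
        (4 * Λ) ^ p * Λ)) := by
        refine add_le_add ?_ ?_
        · have h5 : (1 : ℝ) ≤ Λ ^ (6 * p) * (1 + Q) := by nlinarith
          have h6 : (0 : ℝ) < 4 ^ p := by positivity
          calc (4 : ℝ) ^ p = 4 ^ p * 1 := (mul_one _).symm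
            _ ≤ 4 ^ p * (Λ ^ (6 * p) * (1 + Q)) := by gcongr
            _ = _ := by ring
        · have : (4 * (J' : ℝ)) ^ p ≤ (4 * Λ) ^ p :=
            Real.rpow_le_rpow (by positivity) (by linarith) (by linarith)
          gcongr
    _ = 4 ^ p * Λ ^ (6 * p) * (1 + Q) + 34 * 32 ^ p * CC d p *
        (Λ * Λ * Λ ^ p * Λ ^ (4 * p)) * (1 + Q) := by
        rw [Real.mul_rpow (by norm_num) hΛ0.le, show (32 : ℝ) = 2 * 4 * 4 by norm_num,
          Real.mul_rpow (by norm_num) (by norm_num), Real.mul_rpow (by norm_num) (by norm_num)]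
        ring
    _ ≤ 4 ^ p * Λ ^ (6 * p) * (1 + Q) + 34 * 32 ^ p * CC d p * Λ ^ (6 * p) * (1 + Q) := by
        have h7 : Λ * Λ * Λ ^ p * Λ ^ (4 * p) ≤ Λ ^ (6 * p) := by
          calc Λ * Λ * Λ ^ p * Λ ^ (4 * p) = Λ ^ (2 : ℝ) * Λ ^ p * Λ ^ (4 * p) := by
                rw [show (2 : ℝ) = ((2 : ℕ) : ℝ) by norm_num, Real.rpow_natCast, sq]
            _ = Λ ^ (2 + p + 4 * p) := by rw [← Real.rpow_add hΛ0, ← Real.rpow_add hΛ0]
            _ ≤ _ := hmono _ _ (by linarith)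
        gcongr
    _ = _ := by ring

end Pool.Agent.N248.KR
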