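import Mathlib
import Pool.Agent.N248.KR.Fin
set_option autoImplicit false

/-! Kakeya for random sets of directions: from weak type inequalities on the sphere to random
sets of directions. -/

namespace Pool.Agent.N248.KR

open MeasureTheory Set Metric
open scoped ENNReal NNReal

theorem exists_two_pow (x : ℝ) : ∃ k : ℕ, x ≤ 2 ^ k := by
  obtain ⟨k, hk⟩ := pow_unbounded_of_one_lt x (one_lt_two : (1 : ℝ) < 2)
  exact ⟨k, hk.le⟩

/-- the parameters for a small scale -/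
theorem params {d : ℕ} (hd : 1 ≤ d) {C1 C2 κ' s B : ℝ}
    (hC1 : 1 ≤ C1) (hC2 : 1 ≤ C2) (hs : 0 < s) (hB : 0 ≤ B) (k0 : ℕ) (hk0 : 1 + κ' ≤ 2 ^ k0)
    (hκ' : 0 < κ') :
    ∃ C0 : ℝ, 1 ≤ C0 ∧ ∀ δ : ℝ, 0 < δ → δ ≤ 1 / 10 → ∃ (J J' : ℕ) (K c a : ℝ),
      δ ^ (-(d : ℝ)) ≤ 2 ^ J ∧ 1 + κ' * (δ ^ d)⁻¹ ≤ 2 ^ J' ∧ 1 ≤ K ∧ 0 ≤ a ∧ a + 1 ≤ c ∧
      (C1 / δ) ^ (d + 1) * (C2 / δ) ^ (d + 1) ≤ Real.exp a ∧
      (∀ x : ℝ, 0 ≤ x → x ≤ 2 ^ J → 12 * Real.exp (-(K / 12)) * x * 2 ^ J ≤ 1) ∧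
      2 * ((J : ℝ) + 1) * Real.exp (-(c - a)) ≤ 2 * δ ^ B ∧
      (J : ℝ) + 1 ≤ C0 * δ ^ (-s) ∧ (J' : ℝ) ≤ C0 * δ ^ (-s) ∧ K ≤ C0 * δ ^ (-s) ∧
      c ≤ C0 * δ ^ (-s) := by
  have hd1 : (1 : ℝ) ≤ d := by exact_mod_cast hd
  have hlog : 0 ≤ Real.log (C1 * C2) := Real.log_nonneg (by nlinarith)
  set C00 : ℝ := 60 + 48 * d + (d + 1) * Real.log (C1 * C2) + 2 * (d + 1) + 2 + B + 2 * d + k0
    with hC00
  have hC00' : 1 ≤ C00 := by
    have : 0 ≤ ((d : ℝ) + 1) * Real.log (C1 * C2) := by positivity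
    have h2 : (0 : ℝ) ≤ k0 := Nat.cast_nonneg _
    rw [hC00]; linarith
  refine ⟨C00 * (1 + 1 / s), by
    have : 0 < 1 / s := by positivity
    nlinarith, ?_⟩
  intro δ hδ hδ10
  have hδ1 : δ < 1 := by linarith
  set L : ℝ := -Real.log δ with hL
  have hL0 : 0 < L := by
    have := Real.log_neg hδ hδ1
    rw [hL]; linarith
  have hrp : ∀ x : ℝ, δ ^ (-x) = Real.exp (L * x) := by
    intro x
    rw [Real.rpow_def_of_pos hδ, hL]
    congr 1; ring
  have hLs : 1 + L ≤ (1 + 1 / s) * δ ^ (-s) := by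
    have h1 : 1 ≤ δ ^ (-s) := by
      rw [hrp]; exact Real.one_le_exp (by positivity)
    have h2 : L ≤ 1 / s * δ ^ (-s) := by
      rw [hrp, div_mul_eq_mul_div, one_mul, le_div_iff₀ hs]
      have := Real.add_one_le_exp (L * s)
      linarith
    nlinarith
  set J : ℕ := ⌈2 * d * L⌉₊ with hJ
  have hJ1 : 2 * d * L ≤ J := Nat.le_ceil _
  have hJ2 : (J : ℝ) ≤ 2 * d * L + 1 := (Nat.ceil_lt_add_one (by positivity)).le
  have hJ0 : (0 : ℝ) ≤ J := Nat.cast_nonneg _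
  have hJd : Real.exp (d * L) ≤ 2 ^ J := by
    rw [← Real.exp_log (show (0 : ℝ) < 2 ^ J by positivity), Real.log_pow]
    refine Real.exp_le_exp.2 ?_
    have h1 := Real.log_two_gt_d9
    have h2 : 0 ≤ d * L := by positivity
    nlinarith
  have hδd : (δ ^ d)⁻¹ = Real.exp (d * L) := by
    rw [← Real.rpow_natCast, ← Real.rpow_neg hδ.le, hrp, mul_comm]
  set a : ℝ := (d + 1) * Real.log (C1 * C2) + 2 * (d + 1) * L with ha
  have ha0 : 0 ≤ a := by rw [ha]; positivity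
  set c : ℝ := a + 1 + B * L + J with hc
  refine ⟨J, J + k0, 36 + 24 * J, c, a, ?_, ?_, by linarith, ha0, ?_, ?_, ?_, ?_, ?_, ?_, ?_, ?_⟩
  · rw [hrp]
    refine le_trans (Real.exp_le_exp.2 ?_) hJd
    rw [mul_comm]
  · rw [hδd, pow_add]
    have h1 : 1 ≤ Real.exp (d * L) := Real.one_le_exp (by positivity)
    calc 1 + κ' * Real.exp (d * L) ≤ Real.exp (d * L) * (1 + κ') := by nlinarith
      _ ≤ _ := by gcongr
  · rw [hc]
    have : 0 ≤ B * L := by positivity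
    linarith
  · have h1 : C1 / δ = Real.exp (Real.log C1 + L) := by
      rw [Real.exp_add, Real.exp_log (by linarith), hL, Real.exp_neg, Real.exp_log hδ]
      rfl
    have h2 : C2 / δ = Real.exp (Real.log C2 + L) := by
      rw [Real.exp_add, Real.exp_log (by linarith), hL, Real.exp_neg, Real.exp_log hδ]
      rfl
    rw [h1, h2, ← Real.exp_nat_mul, ← Real.exp_nat_mul, ← Real.exp_add, ha,
      Real.log_mul (by linarith) (by linarith)]
    refine Real.exp_le_exp.2 (le_of_eq ?_)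
    push_cast
    ring
  · intro x hx0 hx
    have h1 : Real.exp (-((36 + 24 * (J : ℝ)) / 12)) = Real.exp (-3) * Real.exp (-2) ^ J := by
      rw [← Real.exp_nat_mul, ← Real.exp_add]
      congr 1; ring
    have h2 : Real.exp (-2) ≤ 1 / 4 := by
      have h3 : Real.exp (-1) < 0.3678794412 := Real.exp_neg_one_lt_d9
      have h4 : Real.exp (-2) = Real.exp (-1) * Real.exp (-1) := by
        rw [← Real.exp_add]; norm_num
      rw [h4]
      have h5 := Real.exp_pos (-1)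
      nlinarith
    have h3 : Real.exp (-3) ≤ 1 / 12 := by
      have h3 : Real.exp (-1) < 0.3678794412 := Real.exp_neg_one_lt_d9
      have h4 : Real.exp (-3) = Real.exp (-1) * (Real.exp (-1) * Real.exp (-1)) := by
        rw [← Real.exp_add, ← Real.exp_add]; norm_num
      rw [h4]
      have h5 := Real.exp_pos (-1)
      have h6 : Real.exp (-1) * Real.exp (-1) ≤ 0.3678794412 * 0.3678794412 := by gcongr
      calc Real.exp (-1) * (Real.exp (-1) * Real.exp (-1))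
          ≤ 0.3678794412 * (0.3678794412 * 0.3678794412) := by gcongr
        _ ≤ _ := by norm_num
    rw [h1]
    calc 12 * (Real.exp (-3) * Real.exp (-2) ^ J) * x * 2 ^ J
        ≤ 12 * (1 / 12 * (1 / 4) ^ J) * 2 ^ J * 2 ^ J := by gcongr
      _ = ((1 / 4) * 2 * 2 : ℝ) ^ J := by rw [mul_pow, mul_pow]; ring
      _ = 1 := by norm_num
  · have h1 : c - a = (1 + J) + B * L := by rw [hc]; ring
    have h2 : ((J : ℝ) + 1) * Real.exp (-(1 + J)) ≤ 1 := by
      rw [Real.exp_neg, ← div_eq_mul_inv, div_le_one (Real.exp_pos _)]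
      have := Real.add_one_le_exp (1 + (J : ℝ))
      linarith
    have h3 : δ ^ B = Real.exp (-(B * L)) := by
      have := hrp (-B)
      rw [neg_neg] at this
      rw [this]; congr 1; ring
    rw [h1, h3]
    have h4 : Real.exp (-(1 + J + B * L)) = Real.exp (-(1 + J)) * Real.exp (-(B * L)) := by
      rw [← Real.exp_add]; congr 1; ring
    rw [h4]
    have h5 := Real.exp_pos (-(B * L))
    nlinarith
  all_goals
    rw [mul_assoc]
    refine le_trans ?_ (mul_le_mul_of_nonneg_left hLs (by linarith))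
    have e0 : 0 ≤ ((d : ℝ) + 1) * Real.log (C1 * C2) := by positivity
    have e1 : 0 ≤ ((d : ℝ) + 1) * Real.log (C1 * C2) * L := by positivity
    have e2 : (0 : ℝ) ≤ k0 := Nat.cast_nonneg _
    have e3 : 0 ≤ k0 * L := by positivity
    have e4 : 0 ≤ d * L := by positivity
    have e5 : 0 ≤ B * L := by positivity
    rw [hC00]
  · nlinarith
  · push_cast
    nlinarith
  · nlinarith
  · rw [hc, ha]
    nlinarith

end Pool.Agent.N248.KR
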