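import Mathlib
import Pool.Agent.N248.KR.Par
set_option autoImplicit false

/-! Kakeya for random sets of directions: from weak type inequalities on the sphere to random
sets of directions. -/

namespace Pool.Agent.N248.KR

open MeasureTheory Set Metric
open scoped ENNReal NNReal

/-- random sets of directions -/
def RandP (d : ℕ) (P : Measure (Dir (d + 1))) (p γ : ℝ) : Prop :=
  ∀ ε : ℝ, 0 < ε → ∀ B : ℝ, 0 < B → ∃ C : ℝ, 0 < C ∧ ∀ δ : ℝ, 0 < δ → δ < 1 → ∀ M : ℕ,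
    (M : ℝ) ≤ δ ^ (-(d - γ)) →
    (Measure.pi fun _ : Fin M => P) {ω | ¬ Good p (C * δ ^ (-ε)) δ ω} ≤ ENNReal.ofReal (C * δ ^ B)

theorem M_le {d M : ℕ} {γ δ : ℝ} (hγ : 0 ≤ γ) (hδ : 0 < δ) (hδ1 : δ < 1)
    (hM : (M : ℝ) ≤ δ ^ (-(d - γ))) : M * δ ^ d ≤ 1 := by
  calc M * δ ^ d ≤ δ ^ (-(d - γ)) * δ ^ d := by gcongr
    _ = δ ^ (-(d - γ) + d) := by rw [← Real.rpow_natCast, ← Real.rpow_add hδ]
    _ ≤ 1 := Real.rpow_le_one hδ.le hδ1.le (by linarith)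

theorem fwd {d : ℕ} (hd : 1 ≤ d) {p γ : ℝ} (hp : 2 ≤ p) (hγ : 0 ≤ γ)
    (P : Measure (Dir (d + 1))) [IsProbabilityMeasure P]
    (hW : ∀ ε : ℝ, 0 < ε → ∃ C : ℝ, 0 < C ∧ ∀ r : ℝ, 0 < r → r < 1 →
      WeakAt P p (C * r ^ (-γ - ε)) r) : RandP d P p γ := by
  intro ε hε B hB
  have hp0 : 0 < p := by linarith
  have hd1 : (1 : ℝ) ≤ d := by exact_mod_cast hd
  obtain ⟨A1, hA1, hW⟩ := hW (ε / 2) (by linarith)
  obtain ⟨C1, hC1, hnet1⟩ := net (d + 1) (d + 1) (by linarith)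
  obtain ⟨C2, hC2, hnet2⟩ := net (d + 1) 1 le_rfl
  have hκ := kap_pos d
  have hcc := CC_pos d p
  obtain ⟨k0, hk0⟩ := exists_two_pow (1 + (kap d)⁻¹)
  obtain ⟨k1, hk1⟩ := exists_two_pow (1 + (kap d)⁻¹ * 10 ^ d)
  set s : ℝ := ε / (12 * p) with hs
  have hs0 : 0 < s := by positivity
  obtain ⟨C0, hC0, hpar⟩ := params hd hC1 hC2 hs0 hB.le k0 hk0 (by positivity)
  set Q2 : ℝ := Real.exp 2 * A1 * 8 ^ p * 3 * 10 ^ d with hQ2
  have hQ20 : 0 < Q2 := by positivity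
  set C3 : ℝ := (4 ^ p + 34 * 32 ^ p * CC d p) * C0 ^ (6 * p) * (1 + Q2) with hC3
  have hC30 : 0 < C3 := by positivity
  set C4 : ℝ := 4 ^ p + k1 * (2 ^ p * (((kap d)⁻¹ * 10 ^ d) * (4 * k1) ^ p * k1)) with hC4
  have hC40 : 0 < C4 := by positivity
  refine ⟨C3 + C4 + 2, by positivity, ?_⟩
  intro δ hδ hδ1 M hM
  have hMd : M * δ ^ d ≤ 1 := M_le hγ hδ hδ1 hM
  have hδε : 1 ≤ δ ^ (-ε) := Real.one_le_rpow_of_pos_of_le_one_of_nonpos hδ hδ1.le (by linarith)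
  rcases le_or_gt δ (1 / 10) with h10 | h10
  · obtain ⟨J, J', K, c, a, h1, h2, h3, h4, h5, h6, h7, h8, h9, h11, h12, h13⟩ := hpar δ hδ h10
    have hM' : (M : ℝ) ≤ δ ^ (-(d : ℝ)) :=
      hM.trans (Real.rpow_le_rpow_of_exponent_ge hδ hδ1.le (by linarith))
    obtain ⟨N1, -, hN1c, hN1⟩ := hnet1 {x | ‖x‖ ≤ (d : ℝ) + 1} (fun x hx => hx) δ hδ hδ1
    obtain ⟨N2, hN2s, hN2c, hN2⟩ := hnet2 {x | ‖x‖ = 1} (fun x hx => le_of_eq hx) δ hδ hδ1
    set A : ℝ := A1 * (5 * δ) ^ (-γ - ε / 2) with hA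
    have hA0 : 0 < A := by positivity
    set Q : ℝ := Real.exp 2 * M * (A * 8 ^ p) * (3 * (10 * δ) ^ d) with hQ
    have hQ0 : 0 ≤ Q := by positivity
    have hQle : Q ≤ Q2 * δ ^ (-(ε / 2)) := by
      have e1 : (5 * δ) ^ (-γ - ε / 2) ≤ δ ^ (-γ - ε / 2) :=
        Real.rpow_le_rpow_of_nonpos hδ (by linarith) (by linarith)
      calc Q ≤ Real.exp 2 * δ ^ (-(d - γ)) * ((A1 * δ ^ (-γ - ε / 2)) * 8 ^ p) *
            (3 * (10 * δ) ^ d) := by
              rw [hQ, hA]; gcongr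
        _ = Q2 * (δ ^ (-(d - γ)) * δ ^ (-γ - ε / 2) * δ ^ (d : ℝ)) := by
            rw [hQ2, mul_pow, Real.rpow_natCast]; ring
        _ = Q2 * δ ^ (-(ε / 2)) := by
            rw [← Real.rpow_add hδ, ← Real.rpow_add hδ]
            congr 2; ring
    have hp1 := prob_at P N1 N2 δ K c A p a J J' hδ h10 hp hA0.le h4 h5 h3 hN1 hN2 hN2s
      (le_trans (by gcongr) h6) (hM'.trans h1) (h7 M (Nat.cast_nonneg _) (hM'.trans h1))
      (hW (5 * δ) (by linarith) (by linarith)) hMd (by rw [mul_inv]; exact h2)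
    have hCF : CF d p c K Q J J' ≤ (C3 + C4 + 2) * δ ^ (-ε) := by
      have e0 : 1 ≤ C0 * δ ^ (-s) := by
        have : 1 ≤ δ ^ (-s) := Real.one_le_rpow_of_pos_of_le_one_of_nonpos hδ hδ1.le (by linarith)
        nlinarith
      have e1 := CF_le (d := d) hp e0 h9 h11 (by linarith) h12 (by linarith) h13 hQ0
      refine e1.trans ?_
      have e2 : (C0 * δ ^ (-s)) ^ (6 * p) = C0 ^ (6 * p) * δ ^ (-(ε / 2)) := by
        rw [Real.mul_rpow (by linarith) (by positivity), ← Real.rpow_mul hδ.le]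
        congr 2
        rw [hs]; field_simp; ring
      have e3 : 1 ≤ δ ^ (-(ε / 2)) :=
        Real.one_le_rpow_of_pos_of_le_one_of_nonpos hδ hδ1.le (by linarith)
      rw [e2]
      calc (4 ^ p + 34 * 32 ^ p * CC d p) * (C0 ^ (6 * p) * δ ^ (-(ε / 2))) * (1 + Q)
          ≤ (4 ^ p + 34 * 32 ^ p * CC d p) * (C0 ^ (6 * p) * δ ^ (-(ε / 2))) *
            ((1 + Q2) * δ ^ (-(ε / 2))) := by
            gcongr
            nlinarith
        _ = C3 * (δ ^ (-(ε / 2)) * δ ^ (-(ε / 2))) := by rw [hC3]; ring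
        _ = C3 * δ ^ (-ε) := by
            rw [← Real.rpow_add hδ]; congr 2; ring
        _ ≤ _ := by gcongr; linarith
    have hsub : {ω : Fin M → Dir (d + 1) | ¬ Good p ((C3 + C4 + 2) * δ ^ (-ε)) δ ω} ⊆
        {ω | ¬ Good p (CF d p c K Q J J') δ ω} := by
      intro ω hω h
      exact hω (h.mono hCF)
    refine (measure_mono hsub).trans (hp1.trans (ENNReal.ofReal_le_ofReal (h8.trans ?_)))
    gcongr
    linarith
  · have hempty : {ω : Fin M → Dir (d + 1) | ¬ Good p ((C3 + C4 + 2) * δ ^ (-ε)) δ ω} = ∅ := by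
      rw [eq_empty_iff_forall_notMem]
      intro ω hω
      apply hω
      have e1 : (kap d * δ ^ d)⁻¹ ≤ (kap d)⁻¹ * 10 ^ d := by
        rw [mul_inv]
        gcongr
        rw [← inv_pow]
        refine pow_le_pow_left₀ (by positivity) ?_ d
        rw [inv_le_comm₀ hδ (by norm_num)]
        linarith
      refine (good_triv hδ hp hMd ω k1 (by linarith)).mono ?_
      calc 4 ^ p + k1 * (2 ^ p * ((kap d * δ ^ d)⁻¹ * (4 * k1) ^ p * k1)) ≤ C4 := by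
            rw [hC4]; gcongr
        _ ≤ (C3 + C4 + 2) * 1 := by linarith
        _ ≤ _ := by gcongr
    rw [hempty, measure_empty]
    exact zero_le

end Pool.Agent.N248.KR
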