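import Mathlib
import Pool.Agent.N248.KR.Fwd
set_option autoImplicit false

/-! Kakeya for random sets of directions: weak type inequalities on the sphere. -/

namespace Pool.Agent.N248.KR

open MeasureTheory Set Metric
open scoped ENNReal NNReal

theorem kmax_ind_le_one {n : ℕ} (δ : ℝ) {D : Set (E n)} (hD : MeasurableSet D) (e : E n) :
    kmax δ (D.indicator 1) e ≤ 1 := by
  unfold kmax
  refine iSup_le fun a => ?_
  rw [lintegral_indicator_one hD, Measure.restrict_apply hD]
  exact (mul_le_mul_right (measure_mono inter_subset_right) _).trans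
    (ENNReal.inv_mul_le_one _)

theorem kmax_ind_le {d : ℕ} {δ : ℝ} (hδ : 0 < δ) {D : Set (E (d + 1))} (hD : MeasurableSet D)
    {e : E (d + 1)} (he : ‖e‖ = 1) :
    kmax δ (D.indicator 1) e ≤ ENNReal.ofReal ((kap d * δ ^ d)⁻¹) * volume D := by
  unfold kmax
  refine iSup_le fun a => ?_
  rw [lintegral_indicator_one hD, Measure.restrict_apply hD]
  gcongr
  · exact vol_inv_le hδ he
  · exact inter_subset_left

/-- the trivial weak type inequality -/
theorem weak_triv {d : ℕ} (P : Measure (Dir (d + 1))) [IsProbabilityMeasure P] {δ p : ℝ}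
    (hδ : 0 < δ) (hp : 1 ≤ p) : WeakAt P p ((kap d * δ ^ d)⁻¹) δ := by
  have hκ := kap_pos d
  intro D hD hDf t ht
  rcases eq_empty_or_nonempty {θ : Dir (d + 1) | ENNReal.ofReal t < kmax δ (D.indicator 1) θ} with
    h | ⟨θ, hθ⟩
  · rw [h, measure_empty]; exact zero_le
  have h1 : ENNReal.ofReal t < kmax δ (D.indicator 1) θ := hθ
  have h4 : t < 1 := by
    have := h1.trans_le (kmax_ind_le_one δ hD _)
    rw [← ENNReal.ofReal_one] at this
    exact (ENNReal.ofReal_lt_ofReal_iff_of_nonneg ht.le).1 this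
  have h5 : t ≤ (kap d * δ ^ d)⁻¹ * (volume D).toReal := by
    have := h1.le.trans (kmax_ind_le hδ hD (norm_eq_of_mem_sphere θ))
    rw [← ENNReal.ofReal_toReal hDf, ← ENNReal.ofReal_mul (by positivity)] at this
    exact (ENNReal.ofReal_le_ofReal_iff (by positivity)).1 this
  have h6 : 1 ≤ t ^ (-p) * t := by
    calc (1 : ℝ) ≤ t ^ (1 - p) := Real.one_le_rpow_of_pos_of_le_one_of_nonpos ht h4.le (by linarith)
      _ = t ^ (-p) * t := by
          rw [show 1 - p = -p + 1 by ring, Real.rpow_add ht, Real.rpow_one]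
  calc P {θ : Dir (d + 1) | ENNReal.ofReal t < kmax δ (D.indicator 1) θ} ≤ 1 := prob_le_one
    _ = ENNReal.ofReal 1 := ENNReal.ofReal_one.symm
    _ ≤ ENNReal.ofReal ((kap d * δ ^ d)⁻¹ * t ^ (-p) * (volume D).toReal) := by
        refine ENNReal.ofReal_le_ofReal (h6.trans ?_)
        calc t ^ (-p) * t ≤ t ^ (-p) * ((kap d * δ ^ d)⁻¹ * (volume D).toReal) := by gcongr
          _ = _ := by ring
    _ = _ := by rw [ENNReal.ofReal_mul (by positivity), ENNReal.ofReal_toReal hDf]

theorem WeakAt.mono {n : ℕ} {P : Measure (Dir n)} {p A A' δ : ℝ} (h : WeakAt P p A δ)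
    (hA : A ≤ A') : WeakAt P p A' δ := fun D hD hDf t ht =>
  (h D hD hDf t ht).trans (by gcongr)

/-- the weak type inequality from the strong type inequality (no measurability is needed) -/
theorem weak_of_strong {d : ℕ} (P : Measure (Dir (d + 1))) {δ p A : ℝ} (hδ : 0 < δ)
    (hδ10 : δ ≤ 1 / 10) (hp : 0 < p) (hA : 0 ≤ A)
    (hs : ∀ D : Set (E (d + 1)), MeasurableSet D → volume D ≠ ⊤ →
      ∫⁻ θ : Dir (d + 1), kmax (5 * δ) (D.indicator 1) θ ^ p ∂P ≤ ENNReal.ofReal A * volume D) :
    WeakAt P p (A * (3 * 10 ^ d / kap d) ^ p) δ := by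
  have hκ := kap_pos d
  intro D hD hDf t ht
  set S := {θ : Dir (d + 1) | ENNReal.ofReal t < kmax δ (D.indicator 1) θ} with hS
  set N : Set (Dir (d + 1)) := ⋃ θ ∈ S, ball θ δ with hN
  have hNo : IsOpen N := isOpen_biUnion fun θ _ => isOpen_ball
  have hSN : S ⊆ N := fun θ hθ => mem_biUnion hθ (mem_ball_self hδ)
  set u : ℝ := t * (kap d / (3 * 10 ^ d)) with hu
  have hu0 : 0 < u := by positivity
  have hNk : ∀ θ' ∈ N, ENNReal.ofReal u ≤ kmax (5 * δ) (D.indicator 1) (θ' : E (d + 1)) := by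
    intro θ' hθ'
    obtain ⟨θ, hθ, hθθ⟩ := mem_iUnion₂.1 hθ'
    have hθ2 : ENNReal.ofReal t < kmax δ (D.indicator 1) θ := hθ
    unfold kmax at hθ2
    rw [lt_iSup_iff] at hθ2
    obtain ⟨a, ha⟩ := hθ2
    have h1 := thin_part hδ ht (norm_eq_of_mem_sphere θ) hD ha
    refine kmax_of_fat (t := u) (a := a) hδ hδ10 (e' := (θ : E (d + 1)))
      (norm_eq_of_mem_sphere θ') ?_ hD ?_
    · rw [← dist_eq_norm]
      exact (mem_ball.1 hθθ).le
    · refine le_trans ?_ (h1.trans (measure_mono ?_))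
      · refine ENNReal.ofReal_le_ofReal (le_of_eq ?_)
        rw [hu, mul_pow]
        field_simp
      · intro y hy
        exact ⟨thin_fat (norm_eq_of_mem_sphere θ) (by linarith) (by simpa using hδ.le)
          (by simpa using hδ.le) hy.1, hy.2⟩
  have h2 : ENNReal.ofReal (u ^ p) * P N ≤ ENNReal.ofReal A * volume D := by
    refine le_trans ?_ (hs D hD hDf)
    calc ENNReal.ofReal (u ^ p) * P N
        = ∫⁻ _θ in N, ENNReal.ofReal (u ^ p) ∂P := by rw [setLIntegral_const]
      _ = ∫⁻ θ, N.indicator (fun _ => ENNReal.ofReal (u ^ p)) θ ∂P := by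
          rw [lintegral_indicator hNo.measurableSet]
      _ ≤ _ := by
          refine lintegral_mono fun θ => ?_
          by_cases h : θ ∈ N
          · rw [indicator_of_mem h, ← ENNReal.ofReal_rpow_of_nonneg hu0.le hp.le]
            exact ENNReal.rpow_le_rpow (hNk θ h) hp.le
          · rw [indicator_of_notMem h]; exact zero_le
  have h3 : P N ≤ ENNReal.ofReal (u ^ (-p)) * (ENNReal.ofReal A * volume D) := by
    calc P N = ENNReal.ofReal (u ^ (-p)) * (ENNReal.ofReal (u ^ p) * P N) := by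
          rw [← mul_assoc, ← ENNReal.ofReal_mul (by positivity), ← Real.rpow_add hu0,
            neg_add_cancel, Real.rpow_zero, ENNReal.ofReal_one, one_mul]
      _ ≤ _ := by gcongr
  refine (measure_mono hSN).trans (h3.trans (le_of_eq ?_))
  rw [← mul_assoc, ← ENNReal.ofReal_mul (by positivity)]
  congr 2
  have h5 : (kap d / (3 * 10 ^ d)) ^ (-p) = (3 * 10 ^ d / kap d) ^ p := by
    rw [Real.rpow_neg (by positivity), ← Real.inv_rpow (by positivity), inv_div]
  rw [hu, Real.mul_rpow ht.le (by positivity), h5]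
  ring

end Pool.Agent.N248.KR
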