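import Mathlib
import Pool.Agent.N248.KR.Wk
set_option autoImplicit false

/-! Kakeya for random sets of directions: the maximal inequality for all directions. -/

namespace Pool.Agent.N248.KR

open MeasureTheory Set Metric
open scoped ENNReal NNReal

/-- surface measure -/
noncomputable abbrev sg (d : ℕ) : Measure (Dir (d + 1)) :=
  (volume : Measure (E (d + 1))).toSphere

theorem sg_ne (d : ℕ) : sg d univ ≠ 0 ∧ sg d univ ≠ ⊤ := by
  refine ⟨?_, measure_ne_top _ _⟩
  rw [Measure.toSphere_apply_univ]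
  have h1 : (volume (ball (0 : E (d + 1)) 1)) ≠ 0 := (measure_ball_pos volume _ one_pos).ne'
  refine mul_ne_zero ?_ h1
  simp

/-- the uniform probability measure on the sphere -/
noncomputable abbrev Pu (d : ℕ) : Measure (Dir (d + 1)) := (sg d univ)⁻¹ • sg d

instance (d : ℕ) : IsProbabilityMeasure (Pu d) := ⟨by
  rw [Measure.smul_apply, smul_eq_mul]
  exact ENNReal.inv_mul_cancel (sg_ne d).1 (sg_ne d).2⟩

/-- the maximal inequality for the measure `P` on the sphere, with the loss `δ ^ (-γ)` -/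
def KB (d : ℕ) (P : Measure (Dir (d + 1))) (p γ : ℝ) : Prop :=
  ∀ ε : ℝ, 0 < ε → ∃ C : ℝ, 0 < C ∧ ∀ δ : ℝ, 0 < δ → δ < 1 →
    ∀ f : E (d + 1) → ℝ≥0∞, AEMeasurable f volume →
      ∫⁻ θ : Dir (d + 1), kmax δ f θ ^ p ∂P ≤
        ENNReal.ofReal (C * δ ^ (-γ - ε)) * ∫⁻ y, f y ^ p

theorem ind_pow {n : ℕ} {p : ℝ} (hp : 0 < p) {D : Set (E n)} (hD : MeasurableSet D) :
    ∫⁻ y, (D.indicator (1 : E n → ℝ≥0∞) y) ^ p = volume D := by
  rw [← lintegral_indicator_one hD]
  refine lintegral_congr fun y => ?_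
  by_cases h : y ∈ D
  · rw [indicator_of_mem h, Pi.one_apply, ENNReal.one_rpow]
  · rw [indicator_of_notMem h, ENNReal.zero_rpow_of_pos hp]

theorem weak_of_KB {d : ℕ} {p γ : ℝ} (hp : 1 ≤ p) (hγ : 0 ≤ γ) (P : Measure (Dir (d + 1)))
    [IsProbabilityMeasure P] (h : KB d P p γ) :
    ∀ ε : ℝ, 0 < ε → ∃ C : ℝ, 0 < C ∧ ∀ r : ℝ, 0 < r → r < 1 →
      WeakAt P p (C * r ^ (-γ - ε)) r := by
  intro ε hε
  have hκ := kap_pos d
  have hp0 : 0 < p := by linarith
  obtain ⟨C, hC, h⟩ := h ε hε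
  set C1 : ℝ := C * (3 * 10 ^ d / kap d) ^ p with hC1
  set C2 : ℝ := (kap d)⁻¹ * 10 ^ d with hC2
  have hC10 : 0 ≤ C1 := by positivity
  have hC20 : 0 < C2 := by positivity
  refine ⟨C1 + C2, by positivity, ?_⟩
  intro r hr hr1
  have hr2 : 1 ≤ r ^ (-γ - ε) :=
    Real.one_le_rpow_of_pos_of_le_one_of_nonpos hr hr1.le (by linarith)
  rcases le_or_gt r (1 / 10) with h10 | h10
  · have h1 := weak_of_strong P (p := p) (A := C * (5 * r) ^ (-γ - ε)) hr h10
      hp0 (by positivity) (by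
        intro D hD _
        have h2 := h (5 * r) (by linarith) (by linarith) (D.indicator 1)
          (measurable_one.indicator hD).aemeasurable
        rwa [ind_pow hp0 hD] at h2)
    refine h1.mono ?_
    have e1 : (5 * r) ^ (-γ - ε) ≤ r ^ (-γ - ε) :=
      Real.rpow_le_rpow_of_nonpos hr (by linarith) (by linarith)
    calc C * (5 * r) ^ (-γ - ε) * (3 * 10 ^ d / kap d) ^ p
        ≤ C * r ^ (-γ - ε) * (3 * 10 ^ d / kap d) ^ p := by gcongr
      _ = C1 * r ^ (-γ - ε) := by rw [hC1]; ring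
      _ ≤ _ := by gcongr; linarith
  · refine (weak_triv P hr hp).mono ?_
    have e1 : (kap d * r ^ d)⁻¹ ≤ C2 := by
      rw [mul_inv, hC2]
      gcongr
      rw [← inv_pow]
      refine pow_le_pow_left₀ (by positivity) ?_ d
      rw [inv_le_comm₀ hr (by norm_num)]
      linarith
    nlinarith

/-- random directions from all directions -/
theorem rand_of_KB {d : ℕ} (hd : 1 ≤ d) {p γ : ℝ} (hp : 2 ≤ p) (hγ : 0 ≤ γ)
    (P : Measure (Dir (d + 1))) [IsProbabilityMeasure P] (h : KB d P p γ) :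
    RandP d P p γ :=
  fwd hd hp hγ P (weak_of_KB (by linarith) hγ P h)

/-- the trivial inequality for one direction -/
theorem kmax_pow_le {d : ℕ} {δ p : ℝ} (hδ : 0 < δ) (hp : 1 < p) {e : E (d + 1)} (he : ‖e‖ = 1)
    {f : E (d + 1) → ℝ≥0∞} (hf : AEMeasurable f volume) :
    kmax δ f e ^ p ≤ ENNReal.ofReal ((kap d * δ ^ d)⁻¹) * ∫⁻ y, f y ^ p := by
  have hp0 : 0 < p := by linarith
  have hkey : kmax δ f e ≤ (ENNReal.ofReal ((kap d * δ ^ d)⁻¹) * ∫⁻ y, f y ^ p) ^ (p⁻¹) := by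
    conv_lhs => unfold kmax
    refine iSup_le fun a => ?_
    obtain ⟨h0, ht⟩ := vol_ne (d := d) hδ (a := a) he
    set T := cyl (1 / 2) δ a e with hT
    have hpq : p.HolderConjugate (Real.conjExponent p) := Real.HolderConjugate.conjExponent hp
    have h1 := ENNReal.lintegral_mul_le_Lp_mul_Lq (volume.restrict T) hpq
      (f := f) (g := fun _ => 1) hf.restrict aemeasurable_const
    simp only [Pi.mul_apply, mul_one, ENNReal.one_rpow, lintegral_const, one_mul,
      Measure.restrict_apply_univ] at h1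
    set τ := volume T with hτ
    have hq : 1 / Real.conjExponent p = 1 - 1 / p := by
      have := hpq.inv_add_inv_eq_one
      rw [one_div, one_div]; linarith
    rw [hq] at h1
    rw [ENNReal.le_rpow_inv_iff hp0]
    calc (τ⁻¹ * ∫⁻ y in T, f y) ^ p
        ≤ (τ⁻¹ * ((∫⁻ y in T, f y ^ p) ^ (1 / p) * τ ^ (1 - 1 / p))) ^ p := by gcongr
      _ = τ⁻¹ * ∫⁻ y in T, f y ^ p := by
          rw [ENNReal.mul_rpow_of_nonneg _ _ hp0.le, ENNReal.mul_rpow_of_nonneg _ _ hp0.le,
            ← ENNReal.rpow_mul, ← ENNReal.rpow_mul, one_div, inv_mul_cancel₀ hp0.ne',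
            ENNReal.rpow_one]
          have e1 : (τ⁻¹) ^ p * τ ^ ((1 - p⁻¹) * p) = τ⁻¹ := by
            rw [ENNReal.inv_rpow, ← ENNReal.rpow_neg, ← ENNReal.rpow_add _ _ h0 ht,
              ← ENNReal.rpow_neg_one]
            congr 1
            field_simp
            ring
          calc (τ⁻¹) ^ p * ((∫⁻ y in T, f y ^ p) * τ ^ ((1 - p⁻¹) * p))
              = ((τ⁻¹) ^ p * τ ^ ((1 - p⁻¹) * p)) * ∫⁻ y in T, f y ^ p := by ring
            _ = _ := by rw [e1]
      _ ≤ _ := by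
          gcongr
          · exact vol_inv_le hδ he
          · exact Measure.restrict_le_self
  exact (ENNReal.le_rpow_inv_iff hp0).1 hkey

end Pool.Agent.N248.KR
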