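import Mathlib
import Pool.Agent.N248.KR.Kb
set_option autoImplicit false

/-! Kakeya for random sets of directions: from random sets of directions to all directions. -/

namespace Pool.Agent.N248.KR

open MeasureTheory Set Metric
open scoped ENNReal NNReal

theorem KB_of_rand {d : ℕ} (hd : 1 ≤ d) {p γ : ℝ} (hp : 2 ≤ p) (hγ : 0 ≤ γ) (hγd : γ ≤ d)
    (P : Measure (Dir (d + 1))) [IsProbabilityMeasure P] (h : RandP d P p γ) : KB d P p γ := by
  intro ε hε
  have hd0 : (0 : ℝ) < d := by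
    have : (1 : ℝ) ≤ d := by exact_mod_cast hd
    linarith
  have hκ := kap_pos d
  obtain ⟨C, hC, h⟩ := h ε hε d hd0
  set C5 : ℝ := C + C * (kap d)⁻¹ with hC5
  have hC50 : 0 < C5 := by positivity
  refine ⟨2 * C5, by positivity, ?_⟩
  intro δ hδ hδ1 f hf
  set X := ∫⁻ y, f y ^ p with hX
  set x : ℝ := δ ^ (-(d - γ)) with hx
  have hx1 : 1 ≤ x := Real.one_le_rpow_of_pos_of_le_one_of_nonpos hδ hδ1.le (by linarith)
  set M : ℕ := ⌊x⌋₊ with hM
  have hMx : (M : ℝ) ≤ x := Nat.floor_le (by linarith)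
  have hM1 : (1 : ℝ) ≤ M := by
    have : 1 ≤ M := Nat.le_floor (by simpa using hx1)
    exact_mod_cast this
  have hM2 : x / 2 ≤ M := by
    have := Nat.lt_floor_add_one x
    rw [← hM] at this
    linarith
  have hMd : M * δ ^ d ≤ 1 := M_le hγ hδ hδ1 hMx
  have hδd : 0 < δ ^ d := by positivity
  obtain ⟨g, hgm, hgle, hgeq⟩ := exists_measurable_le_lintegral_eq P
    (fun θ : Dir (d + 1) => kmax δ f θ ^ p)
  rw [hgeq]
  set μ := Measure.pi fun _ : Fin M => P with hμ
  set S := {ω : Fin M → Dir (d + 1) | ¬ Good p (C * δ ^ (-ε)) δ ω} with hS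
  set S' := toMeasurable μ S with hS'
  have hS'm : MeasurableSet S' := measurableSet_toMeasurable _ _
  have hS'μ : μ S' ≤ ENNReal.ofReal (C * δ ^ d) := by
    rw [hS', measure_toMeasurable]
    have := h δ hδ hδ1 M hMx
    rwa [Real.rpow_natCast] at this
  have h1 : ∫⁻ ω, ENNReal.ofReal (δ ^ d) * ∑ i, g (ω i) ∂μ =
      ENNReal.ofReal (M * δ ^ d) * ∫⁻ θ, g θ ∂P := by
    have hmi : ∀ i ∈ (Finset.univ : Finset (Fin M)), Measurable fun ω : Fin M → Dir (d + 1) =>
        g (ω i) := fun i _ => hgm.comp (measurable_pi_apply i)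
    rw [lintegral_const_mul _ (Finset.measurable_fun_sum _ hmi), lintegral_finsetSum _ hmi]
    have h2 : ∀ i, ∫⁻ ω, g (ω i) ∂μ = ∫⁻ θ, g θ ∂P := fun i =>
      (measurePreserving_eval (fun _ : Fin M => P) i).lintegral_comp hgm
    rw [Finset.sum_congr rfl fun i _ => h2 i, Finset.sum_const, Finset.card_univ, Fintype.card_fin,
      nsmul_eq_mul, ← mul_assoc, ENNReal.ofReal_mul (Nat.cast_nonneg _), ENNReal.ofReal_natCast,
      mul_comm (M : ℝ≥0∞)]
  have h2 : ∀ ω, ENNReal.ofReal (δ ^ d) * ∑ i, g (ω i) ≤ ENNReal.ofReal (C * δ ^ (-ε)) * X +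
      S'.indicator (fun _ => ENNReal.ofReal ((kap d * δ ^ d)⁻¹) * X) ω := by
    intro ω
    have h3 : ∑ i, g (ω i) ≤ ∑ i, kmax δ f (ω i) ^ p := Finset.sum_le_sum fun i _ => hgle (ω i)
    by_cases hω : ω ∈ S'
    · rw [indicator_of_mem hω]
      refine le_trans ?_ le_add_self
      calc ENNReal.ofReal (δ ^ d) * ∑ i, g (ω i)
          ≤ ENNReal.ofReal (δ ^ d) * ∑ _i : Fin M, ENNReal.ofReal ((kap d * δ ^ d)⁻¹) * X := by
            gcongr with i
            exact (hgle (ω i)).trans (kmax_pow_le hδ (by linarith) (norm_eq_of_mem_sphere (ω i)) hf)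
        _ = ENNReal.ofReal (M * δ ^ d) * (ENNReal.ofReal ((kap d * δ ^ d)⁻¹) * X) := by
            rw [Finset.sum_const, Finset.card_univ, Fintype.card_fin, nsmul_eq_mul,
              ENNReal.ofReal_mul (Nat.cast_nonneg _), ENNReal.ofReal_natCast]
            ring
        _ ≤ ENNReal.ofReal 1 * (ENNReal.ofReal ((kap d * δ ^ d)⁻¹) * X) := by gcongr
        _ = _ := by rw [ENNReal.ofReal_one, one_mul]
    · rw [indicator_of_notMem hω, add_zero]
      have hg : Good p (C * δ ^ (-ε)) δ ω := by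
        by_contra hcon
        exact hω (subset_toMeasurable μ S hcon)
      exact (mul_le_mul_right h3 _).trans (hg f hf)
  have h3 : ENNReal.ofReal (M * δ ^ d) * ∫⁻ θ, g θ ∂P ≤
      ENNReal.ofReal (C5 * δ ^ (-ε)) * X := by
    rw [← h1]
    calc ∫⁻ ω, ENNReal.ofReal (δ ^ d) * ∑ i, g (ω i) ∂μ
        ≤ ∫⁻ ω, (ENNReal.ofReal (C * δ ^ (-ε)) * X +
          S'.indicator (fun _ => ENNReal.ofReal ((kap d * δ ^ d)⁻¹) * X) ω) ∂μ :=
          lintegral_mono h2
      _ = ENNReal.ofReal (C * δ ^ (-ε)) * X + ENNReal.ofReal ((kap d * δ ^ d)⁻¹) * X * μ S' := by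
          rw [lintegral_add_left measurable_const, lintegral_const, measure_univ, mul_one,
            lintegral_indicator hS'm, setLIntegral_const]
      _ ≤ ENNReal.ofReal (C * δ ^ (-ε)) * X + ENNReal.ofReal ((kap d * δ ^ d)⁻¹) * X *
          ENNReal.ofReal (C * δ ^ d) := by gcongr
      _ = (ENNReal.ofReal (C * δ ^ (-ε)) + ENNReal.ofReal (C * (kap d)⁻¹)) * X := by
          rw [add_mul]
          congr 1
          rw [mul_right_comm, ← ENNReal.ofReal_mul (by positivity)]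
          congr 2
          rw [mul_inv]
          field_simp
      _ ≤ _ := by
          rw [← ENNReal.ofReal_add (by positivity) (by positivity)]
          gcongr
          have h4 : 1 ≤ δ ^ (-ε) :=
            Real.one_le_rpow_of_pos_of_le_one_of_nonpos hδ hδ1.le (by linarith)
          have h5 : 0 < C * (kap d)⁻¹ := by positivity
          rw [hC5]
          nlinarith
  have hMd0 : 0 < M * δ ^ d := by positivity
  calc ∫⁻ θ, g θ ∂P
      = ENNReal.ofReal ((M * δ ^ d)⁻¹) * (ENNReal.ofReal (M * δ ^ d) * ∫⁻ θ, g θ ∂P) := by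
        rw [← mul_assoc, ← ENNReal.ofReal_mul (by positivity), inv_mul_cancel₀ hMd0.ne',
          ENNReal.ofReal_one, one_mul]
    _ ≤ ENNReal.ofReal ((M * δ ^ d)⁻¹) * (ENNReal.ofReal (C5 * δ ^ (-ε)) * X) := by gcongr
    _ = ENNReal.ofReal ((M * δ ^ d)⁻¹ * (C5 * δ ^ (-ε))) * X := by
        rw [ENNReal.ofReal_mul (inv_nonneg.2 hMd0.le)]
        ring
    _ ≤ _ := by
        refine mul_le_mul_left (ENNReal.ofReal_le_ofReal ?_) _
        have h5 : (M * δ ^ d)⁻¹ ≤ 2 * δ ^ (-γ) := by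
          have h6 : x / 2 * δ ^ d ≤ M * δ ^ d := by gcongr
          have h7 : 0 < x / 2 * δ ^ d := by positivity
          refine (inv_anti₀ h7 h6).trans (le_of_eq ?_)
          rw [hx, mul_inv, inv_div, div_eq_mul_inv, ← Real.rpow_natCast, ← Real.rpow_neg hδ.le,
            ← Real.rpow_neg hδ.le, mul_assoc, ← Real.rpow_add hδ]
          congr 2
          ring
        calc (M * δ ^ d)⁻¹ * (C5 * δ ^ (-ε)) ≤ (2 * δ ^ (-γ)) * (C5 * δ ^ (-ε)) := by gcongr
          _ = 2 * C5 * (δ ^ (-γ) * δ ^ (-ε)) := by ring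
          _ = _ := by
              rw [← Real.rpow_add hδ]
              congr 1

/-- **the equivalence** -/
theorem KB_iff_rand {d : ℕ} (hd : 1 ≤ d) {p γ : ℝ} (hp : 2 ≤ p) (hγ : 0 ≤ γ) (hγd : γ ≤ d)
    (P : Measure (Dir (d + 1))) [IsProbabilityMeasure P] : KB d P p γ ↔ RandP d P p γ :=
  ⟨rand_of_KB hd hp hγ P, KB_of_rand hd hp hγ hγd P⟩

end Pool.Agent.N248.KR
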