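import Mathlib
import Pool.Agent.N248.KR.Conv
import Pool.Agent.Y244.WR.Max
import Pool.Agent.Y254.HK.FinalG
set_option autoImplicit false

/-! Kakeya for random sets of directions: the unconditional ranges. -/

namespace Pool.Agent.N248.KR

open MeasureTheory Set Metric
open scoped ENNReal NNReal

/-- the weak type inequality with the exponent `1 + d / c` -/
theorem weak_of_WeakP {d : ℕ} {c : ℝ} (hd : 1 ≤ d) (hc : 1 ≤ c)
    (h : Pool.Agent.Y244.HM.WeakP d c) : ∃ C : ℝ, 0 < C ∧ ∀ r : ℝ, 0 < r → r < 1 →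
      WeakAt (Pu d) (1 + d / c) (C * r ^ (-((d : ℝ) - d / c))) r := by
  have hd0 : (0 : ℝ) < d := by
    have : (1 : ℝ) ≤ d := by exact_mod_cast hd
    linarith
  have hc0 : 0 < c := by linarith
  obtain ⟨C, hC, h⟩ := h
  set s : ℝ := ((sg d univ)⁻¹).toReal with hs
  have hse : (sg d univ)⁻¹ = ENNReal.ofReal s := by
    rw [hs, ENNReal.ofReal_toReal (ENNReal.inv_ne_top.2 (sg_ne d).1)]
  have hs0 : 0 ≤ s := ENNReal.toReal_nonneg
  refine ⟨s * C + 1, by positivity, ?_⟩
  intro r hr hr1 D hD hDf t ht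
  set S := {θ : Dir (d + 1) | ENNReal.ofReal t < kmax r (D.indicator 1) θ} with hS
  have h1 := h r hr hr1 (D.indicator 1) (measurable_one.indicator hD).aemeasurable t ht
  have hS1 : sg d S ≤ ENNReal.ofReal (C * r ^ (-((c - 1) * (d : ℝ))) * t ^ (-((d : ℝ) + c))) *
      (∫⁻ y, (D.indicator 1 y) ^ (1 + (d : ℝ) / c)) ^ c := h1
  rw [ind_pow (by positivity) hD] at hS1
  set v : ℝ := (volume D).toReal with hv
  have hv0 : 0 ≤ v := ENNReal.toReal_nonneg
  have hve : volume D = ENNReal.ofReal v := (ENNReal.ofReal_toReal hDf).symm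
  set a : ℝ := r ^ (-((d : ℝ) - d / c)) * t ^ (-(1 + (d : ℝ) / c)) * v with ha
  have ha0 : 0 ≤ a := by positivity
  have hac : r ^ (-((c - 1) * (d : ℝ))) * t ^ (-((d : ℝ) + c)) * v ^ c = a ^ c := by
    rw [ha, Real.mul_rpow (by positivity) hv0, Real.mul_rpow (by positivity) (by positivity),
      ← Real.rpow_mul hr.le, ← Real.rpow_mul ht.le]
    congr 3
    · field_simp
    · field_simp
      ring
  have hS2 : Pu d S ≤ ENNReal.ofReal (s * C * a ^ c) := by
    rw [Measure.smul_apply, smul_eq_mul, hse]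
    calc ENNReal.ofReal s * sg d S ≤ ENNReal.ofReal s *
          (ENNReal.ofReal (C * r ^ (-((c - 1) * (d : ℝ))) * t ^ (-((d : ℝ) + c))) *
            (volume D) ^ c) := by gcongr
      _ = ENNReal.ofReal (s * (C * r ^ (-((c - 1) * (d : ℝ))) * t ^ (-((d : ℝ) + c)) * v ^ c)) := by
          rw [hve, ENNReal.ofReal_rpow_of_nonneg hv0 hc0.le, ← ENNReal.ofReal_mul (by positivity),
            ← ENNReal.ofReal_mul hs0]
      _ = _ := by
          congr 1
          rw [← hac]; ring
  have hfin : Pu d S ≤ ENNReal.ofReal ((s * C + 1) * a) := by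
    rcases le_or_gt 1 a with h1a | h1a
    · calc Pu d S ≤ 1 := prob_le_one
        _ = ENNReal.ofReal 1 := ENNReal.ofReal_one.symm
        _ ≤ _ := by
            refine ENNReal.ofReal_le_ofReal ?_
            have : 0 ≤ s * C := by positivity
            nlinarith
    · refine hS2.trans (ENNReal.ofReal_le_ofReal ?_)
      have h3 : a ^ c ≤ a := by
        rcases ha0.eq_or_lt with h0 | h0
        · rw [← h0, Real.zero_rpow hc0.ne']
        · calc a ^ c ≤ a ^ (1 : ℝ) := Real.rpow_le_rpow_of_exponent_ge h0 h1a.le hc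
            _ = a := Real.rpow_one a
      have : 0 ≤ s * C := by positivity
      nlinarith
  refine hfin.trans (le_of_eq ?_)
  rw [hve, ← ENNReal.ofReal_mul (by positivity)]
  congr 1
  rw [ha]; ring

/-- from the open range of exponents to the closed range -/
theorem weak_range {d : ℕ} {c0 p : ℝ} (hd : 1 ≤ d) (hc0 : 1 ≤ c0)
    (h : ∀ c : ℝ, c0 < c → Pool.Agent.Y244.HM.WeakP d c) (hp : 2 ≤ p) (hpc : p ≤ 1 + d / c0) :
    ∀ ε : ℝ, 0 < ε → ∃ C : ℝ, 0 < C ∧ ∀ r : ℝ, 0 < r → r < 1 →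
      WeakAt (Pu d) p (C * r ^ (-(d + 1 - p) - ε)) r := by
  intro ε hε
  have hd0 : (0 : ℝ) < d := by
    have : (1 : ℝ) ≤ d := by exact_mod_cast hd
    linarith
  set q : ℝ := p - 1 - min ε (1 / 2) with hq
  have hm1 : 0 < min ε (1 / 2) := lt_min hε (by norm_num)
  have hm2 : min ε (1 / 2) ≤ ε := min_le_left _ _
  have hm3 : min ε (1 / 2) ≤ 1 / 2 := min_le_right _ _
  have hq0 : 0 < q := by linarith
  have hc0' : 0 < c0 := by linarith
  set c : ℝ := d / q with hc
  have hc1 : c0 < c := by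
    rw [hc, lt_div_iff₀ hq0]
    have h1 : q < d / c0 := by linarith
    rw [lt_div_iff₀ hc0'] at h1
    linarith
  have hdc : (d : ℝ) / c = q := by
    rw [hc]; field_simp
  obtain ⟨C, hC, hW⟩ := weak_of_WeakP hd (by linarith : 1 ≤ c) (h c hc1)
  refine ⟨C, hC, ?_⟩
  intro r hr hr1 D hD hDf t ht
  rcases lt_or_ge t 1 with ht1 | ht1
  · refine (hW r hr hr1 D hD hDf t ht).trans ?_
    rw [hdc]
    gcongr ENNReal.ofReal (?_ * ?_) * _
    · gcongr C * ?_
      exact Real.rpow_le_rpow_of_exponent_ge hr hr1.le (by linarith)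
    · exact Real.rpow_le_rpow_of_exponent_ge ht ht1.le (by linarith)
  · have : {θ : Dir (d + 1) | ENNReal.ofReal t < kmax r (D.indicator 1) θ} = ∅ := by
      rw [eq_empty_iff_forall_notMem]
      intro θ hθ
      have h1 : ENNReal.ofReal t < kmax r (D.indicator 1) θ := hθ
      have h2 := h1.trans_le (kmax_ind_le_one r hD _)
      rw [← ENNReal.ofReal_one] at h2
      have h3 := (ENNReal.ofReal_lt_ofReal_iff_of_nonneg ht.le).1 h2
      linarith
    rw [this, measure_empty]
    exact zero_le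

/-- **the range of Wolff** -/
theorem rand_wolff {d : ℕ} (hd : 2 ≤ d) {p : ℝ} (hp : 2 ≤ p) (hpd : p ≤ ((d : ℝ) + 3) / 2) :
    RandP d (Pu d) p (d + 1 - p) := by
  have hd2 : (2 : ℝ) ≤ d := by exact_mod_cast hd
  refine fwd (by omega) hp (by linarith) (Pu d) (weak_range (by omega)
    (c0 := 2 * (d : ℝ) / ((d : ℝ) + 1)) ?_
    (fun c hc => (Pool.Agent.Y244.WR.wolff_max hd hc).1) hp ?_)
  · rw [le_div_iff₀ (by linarith)]
    linarith
  · have : (d : ℝ) / (2 * (d : ℝ) / ((d : ℝ) + 1)) = ((d : ℝ) + 1) / 2 := by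
      field_simp
    rw [this]
    linarith

/-- **the hybrid range** -/
theorem rand_hybrid {d : ℕ} (hd : 9 ≤ d) {p : ℝ} (hp : 2 ≤ p) (hpd : p ≤ 1 + 25 / 42 * (d : ℝ)) :
    RandP d (Pu d) p (d + 1 - p) := by
  have hd9 : (9 : ℝ) ≤ d := by exact_mod_cast hd
  refine fwd (by omega) hp (by linarith) (Pu d) (weak_range (by omega)
    (c0 := 42 / 25) (by norm_num) (fun c hc => ?_) hp ?_)
  · refine (Pool.Agent.Y254HK.max_mix hd (x := 0) ⟨le_rfl, zero_le_one, by linarith, ?_, ?_⟩).1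
    · have h1 : 0 < c ^ 3 - 4 * c + 2 := by
        nlinarith [mul_pos (show 0 < c - 42 / 25 by linarith) (show 0 < c - 42 / 25 by linarith),
          mul_pos (mul_pos (show 0 < c - 42 / 25 by linarith)
            (show 0 < c - 42 / 25 by linarith)) (show 0 < c - 42 / 25 by linarith)]
      rw [zero_mul, add_zero]
      positivity
    · rw [zero_mul, zero_mul, add_zero, add_zero]
      have h2 : 0 < c ^ 2 - 1 := by nlinarith
      nlinarith
  · linarith

end Pool.Agent.N248.KR
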