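import Mathlib
import Pool.Agent.N248.KR.Kb
set_option autoImplicit false

/-! Kakeya for random sets of directions: the number of directions is optimal. -/

namespace Pool.Agent.N248.KR

open MeasureTheory Set Metric
open scoped ENNReal NNReal

theorem ball_sub_cyl {n : ℕ} {δ : ℝ} (hδ2 : δ ≤ 1 / 2) {e : E n} (he : ‖e‖ = 1) :
    closedBall (0 : E n) δ ⊆ cyl (1 / 2) δ 0 e := by
  intro y hy
  rw [mem_closedBall, dist_zero_right] at hy
  refine ⟨?_, ?_⟩
  · rw [sub_zero]
    calc |inner ℝ y e| ≤ ‖y‖ * ‖e‖ := abs_real_inner_le_norm y e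
      _ ≤ 1 / 2 := by rw [he, mul_one]; linarith
  · rw [sub_zero]
    refine le_trans ?_ hy
    have h1 : ‖y - (inner ℝ y e) • e‖ ^ 2 ≤ ‖y‖ ^ 2 := by
      rw [norm_sub_sq_real, inner_smul_right, norm_smul, he, Real.norm_eq_abs, mul_one, sq_abs]
      nlinarith [sq_nonneg (inner ℝ y e)]
    exact le_of_sq_le_sq h1 (norm_nonneg _)

theorem sharp_number (d : ℕ) {p : ℝ} (hp : 0 < p) : ∃ c : ℝ, 0 < c ∧ ∀ δ : ℝ, 0 < δ → δ ≤ 1 / 2 →
    ∀ (M : ℕ) (ω : Fin M → Dir (d + 1)) (C : ℝ), 0 ≤ C → Good p C δ ω →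
      (M : ℝ) ≤ c * C * δ ^ (-(p - 1)) := by
  set b : ℝ := (volume (ball (0 : E (d + 1)) 1)).toReal with hb
  have hbt : volume (ball (0 : E (d + 1)) 1) ≠ ⊤ := measure_ball_lt_top.ne
  have hb0 : 0 < b := ENNReal.toReal_pos (measure_ball_pos volume _ one_pos).ne' hbt
  have hbe : volume (ball (0 : E (d + 1)) 1) = ENNReal.ofReal b := (ENNReal.ofReal_toReal hbt).symm
  set u : ℝ := ((2 : ℝ) ^ d)⁻¹ * b with hu
  have hu0 : 0 < u := by positivity
  refine ⟨b * u ^ (-p), by positivity, ?_⟩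
  intro δ hδ hδ2 M ω C hC h
  have hvol : volume (closedBall (0 : E (d + 1)) δ) = ENNReal.ofReal (δ ^ (d + 1) * b) := by
    rw [Measure.addHaar_closedBall volume _ hδ.le, finrank_euclideanSpace, Fintype.card_fin, hbe,
      ← ENNReal.ofReal_mul (by positivity)]
  have h1 := h ((closedBall (0 : E (d + 1)) δ).indicator 1)
    (measurable_one.indicator measurableSet_closedBall).aemeasurable
  rw [ind_pow hp measurableSet_closedBall, hvol] at h1
  have h2 : ∀ i, ENNReal.ofReal (u * δ) ≤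
      kmax δ ((closedBall (0 : E (d + 1)) δ).indicator 1) (ω i : E (d + 1)) := by
    intro i
    have he := norm_eq_of_mem_sphere (ω i)
    refine le_trans ?_ (le_iSup _ (0 : E (d + 1)))
    rw [lintegral_indicator_one measurableSet_closedBall,
      Measure.restrict_apply measurableSet_closedBall,
      inter_eq_left.2 (ball_sub_cyl hδ2 he), hvol]
    have h3 : volume (cyl (1 / 2) δ 0 (ω i : E (d + 1))) ≤ ENNReal.ofReal ((2 * δ) ^ d) := by
      refine (vol_cyl_le (by norm_num) hδ.le he).trans (le_of_eq ?_)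
      congr 1
      ring
    calc ENNReal.ofReal (u * δ)
        = ENNReal.ofReal (((2 * δ) ^ d)⁻¹) * ENNReal.ofReal (δ ^ (d + 1) * b) := by
          rw [← ENNReal.ofReal_mul (by positivity)]
          congr 1
          rw [hu, mul_pow]
          field_simp
          ring
      _ ≤ _ := by
          gcongr
          rw [ENNReal.ofReal_inv_of_pos (by positivity)]
          exact ENNReal.inv_le_inv.2 h3
  have h3 : ENNReal.ofReal (δ ^ d * (M * (u * δ) ^ p)) ≤ ENNReal.ofReal (C * (δ ^ (d + 1) * b)) := by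
    calc ENNReal.ofReal (δ ^ d * (M * (u * δ) ^ p))
        = ENNReal.ofReal (δ ^ d) * ∑ _i : Fin M, ENNReal.ofReal (u * δ) ^ p := by
          rw [Finset.sum_const, Finset.card_univ, Fintype.card_fin, nsmul_eq_mul,
            ENNReal.ofReal_rpow_of_nonneg (by positivity) hp.le, ← ENNReal.ofReal_natCast,
            ← ENNReal.ofReal_mul (by positivity), ← ENNReal.ofReal_mul (by positivity)]
      _ ≤ ENNReal.ofReal (δ ^ d) * ∑ i : Fin M,
          kmax δ ((closedBall (0 : E (d + 1)) δ).indicator 1) (ω i : E (d + 1)) ^ p := by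
          gcongr with i
          exact h2 i
      _ ≤ _ := by
          rw [ENNReal.ofReal_mul hC]
          exact h1
  have h4 := (ENNReal.ofReal_le_ofReal_iff (by positivity)).1 h3
  have h5 : (M : ℝ) * (u ^ p * δ ^ p) ≤ C * (δ * b) := by
    have h6 : 0 < δ ^ d := by positivity
    refine le_of_mul_le_mul_left ?_ h6
    rw [Real.mul_rpow hu0.le hδ.le] at h4
    calc δ ^ d * (M * (u ^ p * δ ^ p)) ≤ C * (δ ^ (d + 1) * b) := h4
      _ = _ := by ring
  have h6 : 0 < u ^ p * δ ^ p := by positivity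
  calc (M : ℝ) = (M * (u ^ p * δ ^ p)) * (u ^ (-p) * δ ^ (-p)) := by
        have e1 : u ^ p * u ^ (-p) = 1 := by rw [← Real.rpow_add hu0]; simp
        have e2 : δ ^ p * δ ^ (-p) = 1 := by rw [← Real.rpow_add hδ]; simp
        calc (M : ℝ) = M * (u ^ p * u ^ (-p)) * (δ ^ p * δ ^ (-p)) := by rw [e1, e2]; ring
          _ = _ := by ring
    _ ≤ (C * (δ * b)) * (u ^ (-p) * δ ^ (-p)) := by gcongr
    _ = b * u ^ (-p) * C * (δ * δ ^ (-p)) := by ring
    _ = _ := by
        congr 1
        rw [show -(p - 1) = 1 + -p by ring, Real.rpow_add hδ, Real.rpow_one]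

end Pool.Agent.N248.KR
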